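import Pool.Agent.V8H51.PIT.Core

/-!
# The block generator
-/

set_option autoImplicit false

namespace Pool.Agent.V8H51.PIT

open MvPolynomial Finset

/-! ### Degrees of compositions, grids -/

theorem degreeOf_aeval_le {σ τ : Type*} (f : MvPolynomial σ ℂ) (g : σ → MvPolynomial τ ℂ) (t : τ)
    (D : ℕ) (hg : ∀ i, (g i).degreeOf t ≤ D) :
    (aeval g f).degreeOf t ≤ D * f.totalDegree := by
  classical
  rw [aeval_def, eval₂_eq]
  refine (degreeOf_sum_le t _ _).trans ?_
  refine Finset.sup_le fun m hm => ?_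
  refine (degreeOf_mul_le t _ _).trans ?_
  have h1 : ((algebraMap ℂ (MvPolynomial τ ℂ)) (f.coeff m)).degreeOf t = 0 := degreeOf_C _ _
  rw [h1, zero_add]
  refine (degreeOf_prod_le t _ _).trans ?_
  calc ∑ i ∈ m.support, (g i ^ m i).degreeOf t ≤ ∑ i ∈ m.support, m i * D := by
        refine Finset.sum_le_sum fun i _ => ?_
        exact (degreeOf_pow_le t _ _).trans (Nat.mul_le_mul_left _ (hg i))
    _ = D * (m.sum fun _ e => e) := by
        rw [← Finset.sum_mul, mul_comm]; rfl
    _ ≤ D * f.totalDegree := Nat.mul_le_mul_left _ (le_totalDegree hm)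

theorem eval_aeval {σ τ : Type*} (x : τ → ℂ) (g : σ → MvPolynomial τ ℂ) (f : MvPolynomial σ ℂ) :
    eval x (aeval g f) = eval (fun i => eval x (g i)) f := by
  induction f using MvPolynomial.induction_on with
  | C c => simp
  | add p q hp hq => simp only [map_add, hp, hq]
  | mul_X p i hp => simp only [map_mul, aeval_X, eval_X, hp]

theorem exists_grid {τ : Type*} [Finite τ] {p : MvPolynomial τ ℂ} (hp : p ≠ 0) (D : ℕ)
    (hD : ∀ t, p.degreeOf t ≤ D) :
    ∃ x : τ → ℕ, (∀ t, x t ≤ D) ∧ eval (fun t => (x t : ℂ)) p ≠ 0 := by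
  classical
  by_contra hcon
  push Not at hcon
  apply hp
  refine eq_zero_of_eval_zero_at_prod_finset p
    (fun _ => (Finset.range (D + 1)).image (fun a : ℕ => (a : ℂ))) ?_ ?_
  · intro t
    rw [Finset.card_image_of_injective _ Nat.cast_injective, Finset.card_range]
    exact Nat.lt_succ_of_le (hD t)
  · intro x hx
    have h1 : ∀ t, ∃ a : ℕ, a ≤ D ∧ (a : ℂ) = x t := by
      intro t
      obtain ⟨a, ha, hax⟩ := Finset.mem_image.1 (hx t)
      exact ⟨a, Nat.lt_succ_iff.1 (Finset.mem_range.1 ha), hax⟩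
    choose a ha hax using h1
    have := hcon a ha
    have h2 : (fun t => (a t : ℂ)) = x := funext hax
    rwa [h2] at this

/-! ### Blocks -/

/-- `f` is simple with respect to the set `B` of variables: for every point `y` with `f y ≠ 0` there
are `ρ` polynomials `q` in the variables outside `B` and `k ≤ κ` variables `T` in `B` and a
polynomial `Φ` such that `Φ (q, x_T)` does not vanish at `y`, and `f x ≠ 0` where it does not
vanish. -/
def BlockSimple {n : ℕ} (f : MvPolynomial (Fin n) ℂ) (B : Finset (Fin n)) (ρ κ : ℕ) : Prop :=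
  ∀ y : Fin n → ℂ, eval y f ≠ 0 →
    ∃ (k : ℕ) (T : Fin k → Fin n) (q : Fin ρ → MvPolynomial (Fin n) ℂ)
      (Φ : MvPolynomial (Fin ρ ⊕ Fin k) ℂ), k ≤ κ ∧ Function.Injective T ∧ (∀ a, T a ∈ B) ∧
      (∀ l (x x' : Fin n → ℂ), (∀ i, i ∉ B → x i = x' i) → eval x (q l) = eval x' (q l)) ∧
      eval (Sum.elim (fun l => eval y (q l)) (fun a => y (T a))) Φ ≠ 0 ∧
      ∀ x : Fin n → ℂ, eval (Sum.elim (fun l => eval x (q l)) (fun a => x (T a))) Φ ≠ 0 →
        eval x f ≠ 0

/-- the value of the generator in the coordinate `i` -/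
noncomputable def gval {M : ℕ} (X : Fin M → ℂ) (z : ℂ) (i : ℕ) : ℂ :=
  ∑ m : Fin M, X m * (((i : ℂ) + 1) * z) ^ (m : ℕ)

theorem step {n M ρ κ : ℕ} (hM : ρ + κ ≤ M) (f : MvPolynomial (Fin n) ℂ) (B : Finset (Fin n))
    (hf : BlockSimple f B ρ κ) (p : Fin n → MvPolynomial (Fin M) ℂ) (X₀ : Fin M → ℂ)
    (t : Fin n → ℂ)
    (h0 : eval (fun i => if i ∈ B then t i else eval X₀ (p i)) f ≠ 0) :
    ∃ (X : Fin M → ℂ) (z : ℂ),
      eval (fun i : Fin n => if i ∈ B then gval X z i else eval X (p i)) f ≠ 0 := by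
  obtain ⟨k, T, q, Φ, hk, hT, hTB, hq, hΦ0, hΦ⟩ := hf _ h0
  let q' : Fin ρ → MvPolynomial (Fin M) ℂ :=
    fun l => aeval (fun i => if i ∈ B then C (t i) else p i) (q l)
  have hq' : ∀ (X : Fin M → ℂ) l (x : Fin n → ℂ), (∀ i, i ∉ B → x i = eval X (p i)) →
      eval X (q' l) = eval x (q l) := by
    intro X l x hx
    have h1 : eval X (q' l) = eval (fun i => if i ∈ B then t i else eval X (p i)) (q l) := by
      have h2 : (fun i => eval X ((fun i => if i ∈ B then C (t i) else p i) i)) =
          (fun i => if i ∈ B then t i else eval X (p i)) := by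
        funext i
        by_cases hi : i ∈ B
        · simp [hi]
        · simp [hi]
      rw [← h2]
      exact eval_aeval _ _ _
    rw [h1]
    refine hq l _ _ fun i hi => ?_
    rw [if_neg hi, hx i hi]
  have hcond := condenser (M := M) (ρ := ρ) (k := k) (by omega) q' Φ (fun a => (T a : ℕ) + 1)
    (fun a b hab => hT (Fin.ext (by simpa using hab))) (fun a => Nat.succ_pos _)
    ⟨X₀, fun a => t (T a), by
      have h1 : ∀ l, eval X₀ (q' l) = eval (fun i => if i ∈ B then t i else eval X₀ (p i)) (q l) :=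
        fun l => hq' X₀ l _ (fun i hi => if_neg hi)
      have h2 : ∀ a, (fun i => if i ∈ B then t i else eval X₀ (p i)) (T a) = t (T a) :=
        fun a => if_pos (hTB a)
      simp only [h1]
      simp only [h2] at hΦ0
      exact hΦ0⟩
  obtain ⟨X, z, hXz⟩ := hcond
  refine ⟨X, z, hΦ _ ?_⟩
  have h1 : ∀ l, eval X (q' l) =
      eval (fun i : Fin n => if i ∈ B then gval X z i else eval X (p i)) (q l) :=
    fun l => hq' X l _ (fun i hi => if_neg hi)
  have h2 : ∀ a, (fun i : Fin n => if i ∈ B then gval X z i else eval X (p i)) (T a) =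
      ∑ m : Fin M, X m * ((((T a : ℕ) + 1 : ℕ) : ℂ) * z) ^ (m : ℕ) := by
    intro a
    simp only [hTB a, if_true, gval]
    push_cast
    rfl
  simp only [h1] at hXz
  simp only [h2]
  exact hXz

theorem step_single {n M : ℕ} (hM : 2 ≤ M) (f : MvPolynomial (Fin n) ℂ) (B : Finset (Fin n))
    (hB : B.card ≤ 1) (p : Fin n → MvPolynomial (Fin M) ℂ) (X₀ : Fin M → ℂ)
    (t : Fin n → ℂ)
    (h0 : eval (fun i => if i ∈ B then t i else eval X₀ (p i)) f ≠ 0) :
    ∃ (X : Fin M → ℂ) (z : ℂ),
      eval (fun i : Fin n => if i ∈ B then gval X z i else eval X (p i)) f ≠ 0 := by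
  rcases Nat.eq_zero_or_pos B.card with hB0 | hB1
  · rw [Finset.card_eq_zero] at hB0
    subst hB0
    refine ⟨X₀, 0, ?_⟩
    simpa using h0
  obtain ⟨i₀, rfl⟩ := Finset.card_eq_one.1 (le_antisymm hB hB1)
  -- a point `X` with `X 1 ≠ 0` and `f (p (X), t) ≠ 0`
  let F : MvPolynomial (Fin M) ℂ := aeval (fun i => if i ∈ ({i₀} : Finset (Fin n)) then C (t i) else p i) f
  have hF : ∀ X : Fin M → ℂ, eval X F =
      eval (fun i => if i ∈ ({i₀} : Finset (Fin n)) then t i else eval X (p i)) f := by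
    intro X
    have h2 : (fun i => eval X ((fun i => if i ∈ ({i₀} : Finset (Fin n)) then C (t i) else p i) i)) =
        (fun i => if i ∈ ({i₀} : Finset (Fin n)) then t i else eval X (p i)) := by
      funext i
      by_cases hi : i ∈ ({i₀} : Finset (Fin n))
      · simp only [hi, if_true, eval_C]
      · simp only [hi, if_false]
    rw [← h2]
    exact eval_aeval _ _ _
  have hF0 : F ≠ 0 := by
    intro h
    apply h0
    rw [← hF, h, map_zero]
  let m1 : Fin M := ⟨1, by omega⟩
  obtain ⟨X, hX⟩ := exists_eval_ne_zero' (mul_ne_zero hF0 (X_ne_zero (R := ℂ) m1))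
  rw [map_mul, eval_X] at hX
  have hX1 : X m1 ≠ 0 := right_ne_zero_of_mul hX
  have hX2 := left_ne_zero_of_mul hX
  rw [hF] at hX2
  let P : Polynomial ℂ := aeval (fun i => if i ∈ ({i₀} : Finset (Fin n)) then Polynomial.X
    else Polynomial.C (eval X (p i))) f
  have hP : ∀ u : ℂ, P.eval u =
      eval (fun i => if i ∈ ({i₀} : Finset (Fin n)) then u else eval X (p i)) f := by
    intro u
    have h1 : ∀ g : MvPolynomial (Fin n) ℂ, Polynomial.eval u
        (aeval (fun i => if i ∈ ({i₀} : Finset (Fin n)) then Polynomial.X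
    else Polynomial.C (eval X (p i))) g) =
      eval (fun i => if i ∈ ({i₀} : Finset (Fin n)) then u else eval X (p i)) g := by
      intro g
      induction g using MvPolynomial.induction_on with
      | C c => simp
      | add p q hp hq => simp only [map_add, Polynomial.eval_add, hp, hq]
      | mul_X p i hp =>
        rw [map_mul, map_mul, Polynomial.eval_mul, hp, aeval_X, eval_X]
        by_cases hi : i ∈ ({i₀} : Finset (Fin n))
        · simp only [hi, if_true, Polynomial.eval_X]
        · simp only [hi, if_false, Polynomial.eval_C]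
    exact h1 f
  have hP0 : P ≠ 0 := by
    intro h
    apply hX2
    have h1 := hP (t i₀)
    rw [h, Polynomial.eval_zero] at h1
    rw [h1]
    congr 2
    funext i
    by_cases hi : i ∈ ({i₀} : Finset (Fin n))
    · rw [Finset.mem_singleton] at hi
      subst hi
      simp
    · simp only [hi, if_false]
  let Q : Polynomial ℂ := ∑ m : Fin M, Polynomial.C (X m * ((i₀ : ℕ) + 1 : ℂ) ^ (m : ℕ)) *
    Polynomial.X ^ (m : ℕ)
  have hQ : ∀ z, Q.eval z = gval X z i₀ := by
    intro z
    simp only [Q, gval, Polynomial.eval_finsetSum, Polynomial.eval_mul, Polynomial.eval_C,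
      Polynomial.eval_pow, Polynomial.eval_X]
    exact Finset.sum_congr rfl fun m _ => by rw [mul_pow]; ring
  have hQ1 : Q.coeff 1 ≠ 0 := by
    have h1 : Q.coeff 1 = X m1 * ((i₀ : ℕ) + 1 : ℂ) := by
      simp only [Q, Polynomial.finsetSum_coeff, Polynomial.coeff_C_mul, Polynomial.coeff_X_pow]
      rw [Finset.sum_eq_single m1]
      · simp [m1]
      · intro m _ hm
        rw [if_neg, mul_zero]
        intro h
        exact hm (Fin.ext h.symm)
      · intro h; exact absurd (Finset.mem_univ _) h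
    rw [h1]
    refine mul_ne_zero hX1 ?_
    exact_mod_cast Nat.succ_ne_zero (i₀ : ℕ)
  have hcomp : P.comp Q ≠ 0 := by
    intro h
    rcases Polynomial.comp_eq_zero_iff.1 h with h1 | ⟨-, h1⟩
    · exact hP0 h1
    · apply hQ1
      rw [h1]
      simp
  obtain ⟨z, hz⟩ : ∃ z, (P.comp Q).eval z ≠ 0 := by
    by_contra hcon
    push Not at hcon
    exact hcomp (Polynomial.funext fun z => by rw [hcon z, Polynomial.eval_zero])
  refine ⟨X, z, ?_⟩
  rw [Polynomial.eval_comp, hP, hQ] at hz
  convert hz using 3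
  funext i
  by_cases hi : i ∈ ({i₀} : Finset (Fin n))
  · rw [Finset.mem_singleton] at hi
    subst hi
    simp
  · simp only [hi, if_false]

theorem hybrid {n M ρ κ b : ℕ} (hM : ρ + κ ≤ M) (hM2 : 2 ≤ M) (f : MvPolynomial (Fin n) ℂ)
    (hf : f ≠ 0) (h : Fin n → Fin b)
    (hB : ∀ j, BlockSimple f (Finset.univ.filter fun i => h i = j) ρ κ ∨
      (Finset.univ.filter fun i => h i = j).card ≤ 1) :
    ∀ j : ℕ, j ≤ b → ∃ (X : Fin M → ℂ) (z : Fin b → ℂ) (y : Fin n → ℂ),
      eval (fun i => if (h i : ℕ) < j then gval X (z (h i)) i else y i) f ≠ 0 := by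
  intro j
  induction j with
  | zero =>
    intro _
    obtain ⟨y, hy⟩ := exists_eval_ne_zero' hf
    exact ⟨fun _ => 0, fun _ => 0, y, by simpa using hy⟩
  | succ j ih =>
    intro hj
    obtain ⟨X₀, z, y, h0⟩ := ih (by omega)
    let j' : Fin b := ⟨j, hj⟩
    let B : Finset (Fin n) := Finset.univ.filter fun i => h i = j'
    let p : Fin n → MvPolynomial (Fin M) ℂ := fun i =>
      if (h i : ℕ) < j then ∑ m : Fin M, X m * C ((((i : ℕ) : ℂ) + 1) * z (h i)) ^ (m : ℕ)
      else C (y i)
    have hp : ∀ X' i, i ∉ B → eval X' (p i) =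
        if (h i : ℕ) < j then gval X' (z (h i)) i else y i := by
      intro X' i _
      by_cases hi : (h i : ℕ) < j
      · simp only [p, hi, if_true, gval, map_sum, map_mul, map_pow, eval_X, eval_C]
      · simp only [p, hi, if_false, eval_C]
    have hmem : ∀ i, i ∈ B ↔ (h i : ℕ) = j := by
      intro i
      simp only [B, Finset.mem_filter, Finset.mem_univ, true_and]
      exact ⟨fun h => by rw [h], fun h => Fin.ext h⟩
    have h0' : eval (fun i => if i ∈ B then y i else eval X₀ (p i)) f ≠ 0 := by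
      convert h0 using 3
      funext i
      by_cases hi : i ∈ B
      · have := (hmem i).1 hi
        rw [if_pos hi, if_neg (by omega)]
      · rw [if_neg hi, hp X₀ i hi]
    obtain ⟨X, zj, hX⟩ : ∃ (X : Fin M → ℂ) (z : ℂ),
        eval (fun i : Fin n => if i ∈ B then gval X z i else eval X (p i)) f ≠ 0 := by
      rcases hB j' with hs | hs
      · exact step hM f B hs p X₀ y h0'
      · exact step_single hM2 f B hs p X₀ y h0'
    refine ⟨X, Function.update z j' zj, y, ?_⟩
    convert hX using 3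
    funext i
    by_cases hi : i ∈ B
    · have h1 := (hmem i).1 hi
      have h2 : h i = j' := Fin.ext h1
      rw [if_pos hi, if_pos (by omega), h2, Function.update_self]
    · have h1 : (h i : ℕ) ≠ j := fun h => hi ((hmem i).2 h)
      rw [if_neg hi, hp X i hi]
      by_cases h3 : (h i : ℕ) < j
      · rw [if_pos (by omega), if_pos h3, Function.update_of_ne]
        intro h4
        apply h1
        rw [h4]
      · rw [if_neg (by omega), if_neg h3]

/-- **The block generator.** -/
theorem block_hit {n M ρ κ b d : ℕ} (hM : ρ + κ ≤ M) (hM2 : 2 ≤ M) (f : MvPolynomial (Fin n) ℂ)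
    (hf : f ≠ 0) (hd : f.totalDegree ≤ d) (h : Fin n → Fin b)
    (hB : ∀ j, BlockSimple f (Finset.univ.filter fun i => h i = j) ρ κ ∨
      (Finset.univ.filter fun i => h i = j).card ≤ 1) :
    ∃ (X : Fin M → ℕ) (z : Fin b → ℕ), (∀ m, X m ≤ d * M) ∧ (∀ j, z j ≤ d * M) ∧
      eval (fun i : Fin n => ((∑ m : Fin M, X m * (((i : ℕ) + 1) * z (h i)) ^ (m : ℕ) : ℕ) : ℂ)) f ≠ 0 := by
  classical
  obtain ⟨X, z, y, h0⟩ := hybrid hM hM2 f hf h hB b le_rfl
  have h0' : eval (fun i => gval X (z (h i)) i) f ≠ 0 := by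
    convert h0 using 3
    funext i
    rw [if_pos (h i).2]
  let g : Fin n → MvPolynomial (Fin M ⊕ Fin b) ℂ := fun i =>
    ∑ m : Fin M, MvPolynomial.X (Sum.inl m) *
      (C (((i : ℕ) : ℂ) + 1) * MvPolynomial.X (Sum.inr (h i))) ^ (m : ℕ)
  have hg : ∀ (X : Fin M → ℂ) (z : Fin b → ℂ),
      eval (Sum.elim X z) (aeval g f) = eval (fun i => gval X (z (h i)) i) f := by
    intro X z
    have h2 : (fun i => eval (Sum.elim X z) (g i)) = (fun i : Fin n => gval X (z (h i)) i) := by
      funext i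
      simp only [g, gval, map_sum, map_mul, map_pow, eval_X, eval_C, Sum.elim_inl, Sum.elim_inr]
    rw [← h2]
    exact eval_aeval _ _ _
  have hne : aeval g f ≠ 0 := by
    intro h
    apply h0'
    rw [← hg, h, map_zero]
  have hdeg : ∀ t, (aeval g f).degreeOf t ≤ d * M := by
    intro t
    refine (degreeOf_aeval_le f g t M ?_).trans ?_
    · intro i
      refine (degreeOf_sum_le t _ _).trans (Finset.sup_le fun m _ => ?_)
      refine (degreeOf_mul_le t _ _).trans ?_
      have h1 : (MvPolynomial.X (Sum.inl m) : MvPolynomial (Fin M ⊕ Fin b) ℂ).degreeOf t ≤ 1 := by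
        rw [degreeOf_X]; split_ifs <;> simp
      have h2 : ((C (((i : ℕ) : ℂ) + 1) * MvPolynomial.X (Sum.inr (h i)) :
          MvPolynomial (Fin M ⊕ Fin b) ℂ) ^ (m : ℕ)).degreeOf t ≤ m := by
        refine (degreeOf_pow_le t _ _).trans ?_
        have h3 : (C (((i : ℕ) : ℂ) + 1) * MvPolynomial.X (Sum.inr (h i)) :
          MvPolynomial (Fin M ⊕ Fin b) ℂ).degreeOf t ≤ 1 := by
          refine (degreeOf_mul_le t _ _).trans ?_
          rw [degreeOf_C, degreeOf_X, zero_add]
          split_ifs <;> simp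
        calc (m : ℕ) * _ ≤ (m : ℕ) * 1 := Nat.mul_le_mul_left _ h3
          _ = m := mul_one _
      have := m.2
      omega
    · rw [mul_comm]
      exact Nat.mul_le_mul_right _ hd
  obtain ⟨x, hx1, hx2⟩ := exists_grid hne (d * M) hdeg
  refine ⟨fun m => x (Sum.inl m), fun j => x (Sum.inr j), fun m => hx1 _, fun j => hx1 _, ?_⟩
  have h3 : (fun t => (x t : ℂ)) = Sum.elim (fun m => (x (Sum.inl m) : ℂ))
      (fun j => (x (Sum.inr j) : ℂ)) := by
    funext t
    rcases t with t | t <;> rfl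
  rw [h3, hg] at hx2
  convert hx2 using 3
  funext i
  simp only [gval]
  push_cast
  rfl

end Pool.Agent.V8H51.PIT
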