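import Mathlib

/-!
# The condenser lemma

Let `q_1, …, q_ρ` be polynomials in `X_1, …, X_M` and `Φ (u_1, …, u_ρ, t_1, …, t_k)` a polynomial with
`Φ (q (X), T) ≠ 0`. If `M ≥ ρ + k`, then `Φ (q (X), A (z) X) ≠ 0` for the linear map
`(A (z) X)_i = ∑_m X_m (α_i z)^m`, the `α_i` being distinct positive integers.
-/

set_option autoImplicit false

namespace Pool.Agent.V8H51.PIT

open MvPolynomial Finset

/-! ### Chain rule and the Jacobian criterion -/

section Jac

variable {L : Type*} [CommRing L] [Algebra ℂ L]

/-- the chain rule for a derivation killing the coefficients -/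
theorem chain {k : ℕ} (N : Subalgebra ℂ L) (D : Derivation ℂ L L) (hD : ∀ c ∈ N, D c = 0)
    (T : Fin k → L) (g : MvPolynomial (Fin k) N) :
    D (aeval T g) = ∑ i, aeval T (pderiv i g) * D (T i) := by
  induction g using MvPolynomial.induction_on with
  | C c =>
    simp only [pderiv_C, map_zero, zero_mul, Finset.sum_const_zero]
    rw [MvPolynomial.aeval_C]
    exact hD _ c.2
  | add p q hp hq =>
    simp only [map_add, hp, hq, add_mul, Finset.sum_add_distrib]
  | mul_X p j hp =>
    simp only [map_mul, MvPolynomial.aeval_X, Derivation.leibniz, smul_eq_mul, hp, map_add,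
      pderiv_X, add_mul, Finset.sum_add_distrib]
    have h1 : ∀ i, aeval T (p * (Pi.single i (1 : MvPolynomial (Fin k) N) : Fin k → _) j) * D (T i)
        = if i = j then aeval T p * D (T j) else 0 := by
      intro i
      by_cases h : i = j
      · subst h; simp
      · rw [if_neg h, Pi.single_eq_of_ne (Ne.symm h)]; simp
    simp only [map_mul] at h1
    rw [Finset.sum_congr rfl fun i _ => h1 i, Finset.sum_ite_eq' Finset.univ j]
    simp only [Finset.mem_univ, if_true]
    rw [Finset.mul_sum]
    congr 1
    exact Finset.sum_congr rfl fun i _ => by ring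

theorem totalDegree_pderiv_le {A : Type*} [CommRing A] {k : ℕ} (g : MvPolynomial (Fin k) A)
    (i : Fin k) (d : ℕ) (hg : g.totalDegree ≤ d + 1) : (pderiv i g).totalDegree ≤ d := by
  refine Finset.sup_le fun m hm => ?_
  have h1 : g.coeff (m + Finsupp.single i 1) ≠ 0 := by
    intro h
    rw [mem_support_iff, coeff_pderiv, h, zero_mul] at hm
    exact hm rfl
  have h2 := le_totalDegree (mem_support_iff.2 h1)
  have h3 : ((m + Finsupp.single i 1).sum fun _ e => e) = (m.sum fun _ e => e) + 1 := by
    rw [Finsupp.sum_add_index' (fun _ => rfl) (fun _ _ _ => rfl), Finsupp.sum_single_index rfl]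
  omega

theorem eq_C_of_pderiv {A : Type*} [CommRing A] [IsDomain A] [CharZero A] {k : ℕ}
    (g : MvPolynomial (Fin k) A) (h : ∀ i, pderiv i g = 0) : g = C (g.coeff 0) := by
  ext m
  rw [coeff_C]
  by_cases hm : 0 = m
  · rw [if_pos hm, hm]
  · rw [if_neg hm]
    obtain ⟨i, hi⟩ : ∃ i, m i ≠ 0 := by
      by_contra hcon
      push Not at hcon
      exact hm (Finsupp.ext fun i => (hcon i).symm)
    have h1 := congrArg (coeff (m - Finsupp.single i 1)) (h i)
    rw [coeff_pderiv, coeff_zero] at h1
    have h2 : m - Finsupp.single i 1 + Finsupp.single i 1 = m := by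
      ext j
      by_cases hj : j = i
      · subst hj
        simp only [Finsupp.coe_add, Finsupp.coe_tsub, Pi.add_apply, Pi.sub_apply,
          Finsupp.single_eq_same]
        omega
      · simp [Finsupp.single_eq_of_ne hj]
    rw [h2] at h1
    rcases mul_eq_zero.1 h1 with h3 | h3
    · exact h3
    · exfalso
      rw [← Nat.cast_succ] at h3
      exact absurd (Nat.cast_eq_zero.1 h3) (Nat.succ_ne_zero _)

variable [IsDomain L]

theorem jac {k : ℕ} (N : Subalgebra ℂ L) (D : Fin k → Derivation ℂ L L)
    (hD : ∀ j, ∀ c ∈ N, D j c = 0) (T : Fin k → L)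
    (hdet : (Matrix.of fun j i => D j (T i)).det ≠ 0) :
    ∀ (d : ℕ) (g : MvPolynomial (Fin k) N), g.totalDegree ≤ d → g ≠ 0 → aeval T g ≠ 0 := by
  have hc : CharZero N := charZero_of_injective_algebraMap (R := ℂ) (algebraMap ℂ N).injective
  have hconst : ∀ g : MvPolynomial (Fin k) N, g = C (g.coeff 0) → g ≠ 0 → aeval T g ≠ 0 := by
    intro g h1 hg0
    rw [h1, MvPolynomial.aeval_C]
    intro h
    apply hg0
    rw [h1]
    have h2 : (g.coeff 0 : N) = 0 := Subtype.ext h
    rw [h2, map_zero]
  intro d
  induction d with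
  | zero =>
    intro g hg hg0
    refine hconst g ?_ hg0
    apply totalDegree_eq_zero_iff_eq_C.1
    omega
  | succ d ih =>
    intro g hg hg0 h
    have h1 : ∀ j, ∑ i, aeval T (pderiv i g) * D j (T i) = 0 := by
      intro j
      rw [← chain N (D j) (hD j) T g, h, map_zero]
    have h2 : (Matrix.of fun j i => D j (T i)).mulVec (fun i => aeval T (pderiv i g)) = 0 := by
      funext j
      simp only [Matrix.mulVec, dotProduct, Matrix.of_apply, Pi.zero_apply]
      rw [← h1 j]
      exact Finset.sum_congr rfl fun i _ => mul_comm _ _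
    have h3 := Matrix.eq_zero_of_mulVec_eq_zero hdet h2
    have h4 : ∀ i, pderiv i g = 0 := by
      intro i
      by_contra hne
      exact ih (pderiv i g) (totalDegree_pderiv_le g i d hg) hne (congrFun h3 i)
    exact hconst g (eq_C_of_pderiv g h4) hg0 h

end Jac

/-! ### Generalised Vandermonde determinants -/

theorem signVar_lt_card (P : Polynomial ℝ) (hP : P ≠ 0) : P.signVariations < P.support.card := by
  induction hn : P.support.card generalizing P with
  | zero =>
    rw [Finset.card_eq_zero, Polynomial.support_eq_empty] at hn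
    exact absurd hn hP
  | succ n ih =>
    have h1 := Polynomial.signVariations_le_eraseLead_succ (P := P)
    have h2 : P.eraseLead.support.card = n := by
      exact Polynomial.card_support_eraseLead' hn
    by_cases h3 : P.eraseLead = 0
    · have h4 : P.signVariations = 0 := by
        have h5 := Polynomial.eraseLead_add_monomial_natDegree_leadingCoeff P
        rw [h3, zero_add] at h5
        rw [← h5]
        exact Polynomial.signVariations_monomial _ _
      omega
    · have := ih P.eraseLead h3 h2
      omega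

theorem gen_vandermonde {k : ℕ} (α : Fin k → ℕ) (hα : Function.Injective α) (hpos : ∀ i, 0 < α i)
    (μ : Fin k → ℕ) (hμ : Function.Injective μ) :
    (Matrix.of fun i j => ((α i : ℂ)) ^ (μ j)).det ≠ 0 := by
  have hreal : (Matrix.of fun i j => ((α i : ℝ)) ^ (μ j)).det ≠ 0 := by
    intro h
    obtain ⟨c, hc0, hc⟩ := Matrix.exists_mulVec_eq_zero_iff.2 h
    let P : Polynomial ℝ := ∑ j, Polynomial.monomial (μ j) (c j)
    have hcoef : ∀ j, P.coeff (μ j) = c j := by
      intro j
      simp only [P, Polynomial.finsetSum_coeff, Polynomial.coeff_monomial]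
      rw [Finset.sum_eq_single j]
      · simp
      · intro b _ hb
        rw [if_neg fun h => hb (hμ h)]
      · intro h; exact absurd (Finset.mem_univ _) h
    have hP : P ≠ 0 := by
      intro h0
      apply hc0
      funext j
      rw [← hcoef j, h0, Polynomial.coeff_zero]; rfl
    have hcard : P.support.card ≤ k := by
      have : P.support ⊆ Finset.univ.image μ := by
        intro m hm
        rw [Polynomial.mem_support_iff] at hm
        by_contra hcon
        apply hm
        simp only [P, Polynomial.finsetSum_coeff, Polynomial.coeff_monomial]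
        apply Finset.sum_eq_zero
        intro j _
        rw [if_neg]
        intro h
        exact hcon (Finset.mem_image.2 ⟨j, Finset.mem_univ _, h⟩)
      calc P.support.card ≤ (Finset.univ.image μ).card := Finset.card_le_card this
        _ ≤ (Finset.univ : Finset (Fin k)).card := Finset.card_image_le
        _ = k := by simp
    have hroot : ∀ i, P.eval (α i : ℝ) = 0 := by
      intro i
      have h1 := congrFun hc i
      simp only [Matrix.mulVec, dotProduct, Matrix.of_apply, Pi.zero_apply] at h1
      simp only [P, Polynomial.eval_finsetSum, Polynomial.eval_monomial]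
      rw [← h1]
      exact Finset.sum_congr rfl fun j _ => mul_comm _ _
    have hcount : k ≤ P.roots.countP (0 < ·) := by
      have h1 : (Finset.univ.image fun i => (α i : ℝ)).val ≤ P.roots.filter (0 < ·) := by
        rw [Multiset.le_iff_subset (Finset.nodup _)]
        intro x hx
        have hx' : x ∈ (Finset.univ.image fun i => (α i : ℝ)) := hx
        obtain ⟨i, -, rfl⟩ := Finset.mem_image.1 hx'
        rw [Multiset.mem_filter, Polynomial.mem_roots hP]
        exact ⟨hroot i, by exact_mod_cast hpos i⟩
      have h2 := Multiset.card_le_card h1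
      rw [← Multiset.countP_eq_card_filter] at h2
      have h3 : (Finset.univ.image fun i => (α i : ℝ)).card = k := by
        rw [Finset.card_image_of_injective _ (fun a b hab => hα (by exact_mod_cast hab))]
        simp
      calc k = (Finset.univ.image fun i => (α i : ℝ)).card := h3.symm
        _ ≤ _ := h2
    have h5 := Polynomial.roots_countP_pos_le_signVariations (P := P)
    have h6 := signVar_lt_card P hP
    omega
  intro h
  apply hreal
  have h1 : (Matrix.of fun i j => ((α i : ℂ)) ^ (μ j)) =
      (Matrix.of fun i j => ((α i : ℝ)) ^ (μ j)).map (algebraMap ℝ ℂ) := by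
    ext i j
    simp
  rw [h1] at h
  have h2 := RingHom.map_det (algebraMap ℝ ℂ) (Matrix.of fun i j => ((α i : ℝ)) ^ (μ j))
  rw [RingHom.mapMatrix_apply, h] at h2
  exact (map_eq_zero (algebraMap ℝ ℂ)).1 h2

/-! ### The rank condenser -/

theorem rank_condenser {M k : ℕ} (V : Fin M → Fin k → ℂ) (μ : Fin k → Fin M)
    (hμ : Function.Injective μ) (hV : ∀ j, V (μ j) j ≠ 0) (hV0 : ∀ j m, m < μ j → V m j = 0)
    (α : Fin k → ℕ) (hα : Function.Injective α) (hpos : ∀ i, 0 < α i) :
    ∃ z : ℂ, (Matrix.of fun i j => ∑ m : Fin M, ((α i : ℂ) * z) ^ (m : ℕ) * V m j).det ≠ 0 := by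
  let E : Matrix (Fin k) (Fin k) (Polynomial ℂ) :=
    Matrix.of fun i j => ∑ m : Fin M, Polynomial.C ((α i : ℂ) ^ (m : ℕ) * V m j) * Polynomial.X ^ (m : ℕ)
  let E' : Matrix (Fin k) (Fin k) (Polynomial ℂ) :=
    Matrix.of fun i j => ∑ m : Fin M, Polynomial.C ((α i : ℂ) ^ (m : ℕ) * V m j) *
      Polynomial.X ^ ((m : ℕ) - (μ j : ℕ))
  have hE : E = Matrix.of fun i j => Polynomial.X ^ (μ j : ℕ) * E' i j := by
    ext1 i j
    simp only [E, E', Matrix.of_apply, Finset.mul_sum]
    refine Finset.sum_congr rfl fun m _ => ?_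
    by_cases h : m < μ j
    · rw [hV0 j m h]; simp
    · have h1 : (Polynomial.X : Polynomial ℂ) ^ (m : ℕ) =
          Polynomial.X ^ (μ j : ℕ) * Polynomial.X ^ ((m : ℕ) - (μ j : ℕ)) := by
        rw [← pow_add]
        congr 1
        have : (μ j : ℕ) ≤ (m : ℕ) := by
          exact_mod_cast (not_lt.1 h)
        omega
      rw [h1]
      ring
  have hdet : E.det = (∏ j, Polynomial.X ^ (μ j : ℕ)) * E'.det := by
    rw [hE]
    exact Matrix.det_mul_row _ _
  have hE'0 : E'.det.eval 0 ≠ 0 := by
    have h1 : E'.det.eval 0 = (E'.map (Polynomial.eval 0)).det := by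
      have := RingHom.map_det (Polynomial.evalRingHom (0 : ℂ)) E'
      simpa [RingHom.mapMatrix_apply] using this
    have h2 : E'.map (Polynomial.eval 0) = Matrix.of fun i j => V (μ j) j * (α i : ℂ) ^ (μ j : ℕ) := by
      ext i j
      simp only [E', Matrix.map_apply, Matrix.of_apply, Polynomial.eval_finsetSum,
        Polynomial.eval_mul, Polynomial.eval_C, Polynomial.eval_pow, Polynomial.eval_X]
      rw [Finset.sum_eq_single (μ j)]
      · simp [mul_comm]
      · intro m _ hm
        rcases lt_or_gt_of_ne hm with h | h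
        · rw [hV0 j m h]; simp
        · rw [zero_pow, mul_zero]
          have : (μ j : ℕ) < (m : ℕ) := by exact_mod_cast h
          omega
      · intro h; exact absurd (Finset.mem_univ _) h
    rw [h1, h2]
    have h3 := Matrix.det_mul_row (fun j => V (μ j) j)
      (Matrix.of fun i j => ((α i : ℂ)) ^ ((μ j : ℕ)))
    have h4 : (Matrix.of fun i j => V (μ j) j * (α i : ℂ) ^ (μ j : ℕ)) =
      (Matrix.of fun i j => (fun j => V (μ j) j) j *
        (Matrix.of fun i j => ((α i : ℂ)) ^ ((μ j : ℕ))) i j) := by
      ext i j; rfl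
    rw [h4, h3]
    refine mul_ne_zero (Finset.prod_ne_zero_iff.2 fun j _ => hV j) ?_
    exact gen_vandermonde α hα hpos (fun j => (μ j : ℕ)) (fun a b hab => hμ (Fin.ext hab))
  have hne : E.det ≠ 0 := by
    rw [hdet]
    refine mul_ne_zero (Finset.prod_ne_zero_iff.2 fun j _ => pow_ne_zero _ Polynomial.X_ne_zero) ?_
    intro h
    apply hE'0
    rw [h, Polynomial.eval_zero]
  obtain ⟨z, hz⟩ : ∃ z, E.det.eval z ≠ 0 := by
    by_contra hcon
    push Not at hcon
    exact hne (Polynomial.funext fun z => by rw [hcon z, Polynomial.eval_zero])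
  refine ⟨z, ?_⟩
  have h1 : E.det.eval z = (E.map (Polynomial.eval z)).det := by
    have := RingHom.map_det (Polynomial.evalRingHom (z : ℂ)) E
    simpa [RingHom.mapMatrix_apply] using this
  have h2 : E.map (Polynomial.eval z) =
      Matrix.of fun i j => ∑ m : Fin M, ((α i : ℂ) * z) ^ (m : ℕ) * V m j := by
    ext i j
    simp only [E, Matrix.map_apply, Matrix.of_apply, Polynomial.eval_finsetSum,
      Polynomial.eval_mul, Polynomial.eval_C, Polynomial.eval_pow, Polynomial.eval_X]
    exact Finset.sum_congr rfl fun m _ => by ring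
  rwa [h1, h2] at hz

/-! ### Vector fields killing the `q_l` -/

theorem fields {M ρ : ℕ} (q : Fin ρ → MvPolynomial (Fin M) ℂ) :
    ∀ k : ℕ, ρ + k ≤ M → ∃ (v : Fin k → Fin M → MvPolynomial (Fin M) ℂ) (μ : Fin k → Fin M),
      Function.Injective μ ∧ (∀ j l, ∑ m, v j m * pderiv m (q l) = 0) ∧ (∀ j, v j (μ j) ≠ 0) ∧
        ∀ j m, m < μ j → v j m = 0 := by
  intro k
  induction k with
  | zero => exact fun _ => ⟨fun j => j.elim0, fun j => j.elim0, fun j => j.elim0,
      fun j => j.elim0, fun j => j.elim0, fun j => j.elim0⟩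
  | succ k ih =>
    intro hM
    obtain ⟨v, μ, hμ, hq, hv, hv0⟩ := ih (by omega)
    let P := MvPolynomial (Fin M) ℂ
    let f : (Fin M → P) →ₗ[P] (Fin ρ ⊕ Fin k → P) :=
      { toFun := fun w => Sum.elim (fun l => ∑ m, w m * pderiv m (q l)) (fun a => w (μ a))
        map_add' := by
          intro w w'
          funext s
          rcases s with l | a
          · simp [add_mul, Finset.sum_add_distrib]
          · simp
        map_smul' := by
          intro c w
          funext s
          rcases s with l | a
          · simp only [Pi.smul_apply, smul_eq_mul, Sum.elim_inl, RingHom.id_apply, mul_assoc]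
            exact (Finset.mul_sum _ _ _).symm
          · simp }
    have hninj : ¬ Function.Injective f := by
      intro hinj
      have := card_le_of_injective P f hinj
      simp at this
      omega
    obtain ⟨w, hw, hw0⟩ : ∃ w, f w = 0 ∧ w ≠ 0 := by
      by_contra hcon
      push Not at hcon
      apply hninj
      rw [← LinearMap.ker_eq_bot, LinearMap.ker_eq_bot']
      exact hcon
    have hw1 : ∀ l, ∑ m, w m * pderiv m (q l) = 0 := fun l => congrFun hw (Sum.inl l)
    have hw2 : ∀ a, w (μ a) = 0 := fun a => congrFun hw (Sum.inr a)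
    classical
    have hex : (Finset.univ.filter fun m => w m ≠ 0).Nonempty := by
      by_contra hcon
      rw [Finset.not_nonempty_iff_eq_empty] at hcon
      apply hw0
      funext m
      by_contra hm
      have : m ∈ Finset.univ.filter fun m => w m ≠ 0 := by simpa using hm
      rw [hcon] at this
      simp at this
    let m0 := (Finset.univ.filter fun m => w m ≠ 0).min' hex
    have hm0 : w m0 ≠ 0 := by
      have := Finset.min'_mem _ hex
      simpa using this
    have hm1 : ∀ m, m < m0 → w m = 0 := by
      intro m hm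
      by_contra hne
      have : m ∈ Finset.univ.filter fun m => w m ≠ 0 := by simpa using hne
      exact absurd (Finset.min'_le _ _ this) (not_le.2 hm)
    refine ⟨Fin.cons w v, Fin.cons m0 μ, ?_, ?_, ?_, ?_⟩
    · rw [Fin.cons_injective_iff]
      refine ⟨?_, hμ⟩
      rintro ⟨a, ha⟩
      apply hm0
      rw [← ha]
      exact hw2 a
    · intro j l
      refine Fin.cases ?_ (fun j => ?_) j
      · simpa using hw1 l
      · simpa using hq j l
    · intro j
      refine Fin.cases ?_ (fun j => ?_) j
      · simpa using hm0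
      · simpa using hv j
    · intro j
      refine Fin.cases ?_ (fun j => ?_) j
      · intro m hm
        simpa using hm1 m (by simpa using hm)
      · intro m hm
        simpa using hv0 j m (by simpa using hm)

/-! ### The condenser lemma -/

theorem exists_eval_ne_zero' {σ : Type*} {p : MvPolynomial σ ℂ} (hp : p ≠ 0) :
    ∃ x : σ → ℂ, eval x p ≠ 0 := by
  by_contra hcon
  push Not at hcon
  exact hp (MvPolynomial.funext fun x => by rw [hcon x, map_zero])

section gmap

variable {L : Type*} [CommRing L] [Algebra ℂ L] {ρ k : ℕ}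

/-- substitution of elements of `N` for the first group of variables -/
noncomputable def gmap (N : Subalgebra ℂ L) (q' : Fin ρ → N) :
    MvPolynomial (Fin ρ ⊕ Fin k) ℂ →ₐ[ℂ] MvPolynomial (Fin k) N :=
  aeval (Sum.elim (fun l => C (q' l)) X)

theorem aeval_gmap (N : Subalgebra ℂ L) (q' : Fin ρ → N) (T : Fin k → L)
    (Φ : MvPolynomial (Fin ρ ⊕ Fin k) ℂ) :
    aeval T (gmap N q' Φ) = aeval (Sum.elim (fun l => (q' l : L)) T) Φ := by
  have h1 : (((aeval T : MvPolynomial (Fin k) N →ₐ[N] L).restrictScalars ℂ).comp (gmap N q')) =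
      aeval (Sum.elim (fun l => (q' l : L)) T) := by
    apply MvPolynomial.algHom_ext
    intro s
    rcases s with l | i
    · simp [gmap]
    · simp [gmap]
  exact congrArg (fun f : MvPolynomial (Fin ρ ⊕ Fin k) ℂ →ₐ[ℂ] L => f Φ) h1

theorem gmap_ne_zero (N : Subalgebra ℂ L) (q' : Fin ρ → N) (φ : L →ₐ[ℂ] ℂ) (t : Fin k → ℂ)
    (Φ : MvPolynomial (Fin ρ ⊕ Fin k) ℂ)
    (h : eval (Sum.elim (fun l => φ (q' l)) t) Φ ≠ 0) : gmap (k := k) N q' Φ ≠ 0 := by
  intro h0
  apply h
  let ψ : MvPolynomial (Fin k) N →+* ℂ := eval₂Hom (φ.toRingHom.comp N.val.toRingHom) t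
  have h1 : ∀ p : MvPolynomial (Fin ρ ⊕ Fin k) ℂ,
      ψ (gmap N q' p) = eval (Sum.elim (fun l => φ (q' l)) t) p := by
    intro p
    induction p using MvPolynomial.induction_on with
    | C c =>
      have h2 : gmap (k := k) N q' (C c) = C (algebraMap ℂ N c) := by
        simp only [gmap, MvPolynomial.aeval_C]
        rfl
      rw [h2, eval_C]
      simp only [ψ, eval₂Hom_C]
      change φ (algebraMap ℂ L c) = c
      rw [AlgHom.commutes]
      rfl
    | add p q hp hq => simp only [map_add, hp, hq]
    | mul_X p s hp =>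
      rw [map_mul, map_mul, map_mul, hp]
      congr 1
      rcases s with l | i
      · simp only [gmap, aeval_X, Sum.elim_inl, eval_X, ψ, eval₂Hom_C]
        rfl
      · simp [gmap, ψ]
  rw [← h1, h0, map_zero]

end gmap

abbrev LL (M : ℕ) := MvPolynomial (Option (Fin M)) ℂ

/-- **The condenser lemma.** -/
theorem condenser {M ρ k : ℕ} (hM : ρ + k ≤ M) (q : Fin ρ → MvPolynomial (Fin M) ℂ)
    (Φ : MvPolynomial (Fin ρ ⊕ Fin k) ℂ) (α : Fin k → ℕ) (hα : Function.Injective α)
    (hpos : ∀ i, 0 < α i)
    (h : ∃ (x : Fin M → ℂ) (t : Fin k → ℂ), eval (Sum.elim (fun l => eval x (q l)) t) Φ ≠ 0) :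
    ∃ (x : Fin M → ℂ) (z : ℂ), eval (Sum.elim (fun l => eval x (q l))
      (fun i => ∑ m : Fin M, x m * ((α i : ℂ) * z) ^ (m : ℕ))) Φ ≠ 0 := by
  obtain ⟨v, μ, hμ, hq, hv, hv0⟩ := fields q k hM
  let ι : MvPolynomial (Fin M) ℂ →ₐ[ℂ] LL M := rename some
  let D : Fin k → Derivation ℂ (LL M) (LL M) :=
    fun j => mkDerivation ℂ (fun o => o.elim 0 fun m => ι (v j m))
  have hDX : ∀ j m, D j (X (some m)) = ι (v j m) := fun j m => by simp [D]
  have hDz : ∀ j, D j (X none) = 0 := fun j => by simp [D]
  have hDι : ∀ j p, D j (ι p) = ∑ m, ι (v j m) * ι (pderiv m p) := by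
    intro j p
    induction p using MvPolynomial.induction_on with
    | C c =>
      simp [ι, D]
    | add p q hp hq =>
      simp only [map_add, hp, hq, mul_add, Finset.sum_add_distrib]
    | mul_X p i hp =>
      have h0 : ι (X i) = X (some i) := by simp [ι]
      simp only [map_mul, Derivation.leibniz, smul_eq_mul, hp, h0, hDX, map_add, pderiv_X, mul_add,
        Finset.sum_add_distrib]
      have h1 : ∀ m, ι (v j m) * (ι p * ι ((Pi.single m (1 : MvPolynomial (Fin M) ℂ) : Fin M → _) i))
          = if m = i then ι p * ι (v j i) else 0 := by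
        intro m
        by_cases h : m = i
        · subst h; simp [mul_comm]
        · rw [if_neg h, Pi.single_eq_of_ne (Ne.symm h)]; simp
      rw [Finset.sum_congr rfl fun m _ => h1 m, Finset.sum_ite_eq' Finset.univ i]
      simp only [Finset.mem_univ, if_true]
      rw [Finset.mul_sum]
      congr 1
      exact Finset.sum_congr rfl fun i _ => by ring
  let N : Subalgebra ℂ (LL M) :=
    { carrier := {c | ∀ j, D j c = 0}
      mul_mem' := by
        intro a b ha hb j
        rw [Derivation.leibniz, ha j, hb j, smul_zero, smul_zero, add_zero]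
      add_mem' := by
        intro a b ha hb j
        rw [map_add, ha j, hb j, add_zero]
      algebraMap_mem' := fun r j => Derivation.map_algebraMap _ _ }
  have hqN : ∀ l, ι (q l) ∈ N := by
    intro l j
    rw [hDι]
    have := congrArg ι (hq j l)
    rw [map_sum, map_zero] at this
    rw [← this]
    exact Finset.sum_congr rfl fun m _ => (map_mul ι _ _).symm
  let T : Fin k → LL M := fun i => ∑ m : Fin M, X (some m) * (C (α i : ℂ) * X none) ^ (m : ℕ)
  have hDT : ∀ j i, D j (T i) = ∑ m : Fin M, ι (v j m) * (C (α i : ℂ) * X none) ^ (m : ℕ) := by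
    intro j i
    simp only [T, map_sum]
    refine Finset.sum_congr rfl fun m _ => ?_
    rw [Derivation.leibniz, hDX]
    have h1 : D j ((C (α i : ℂ) * X none) ^ (m : ℕ)) = 0 := by
      rw [Derivation.leibniz_pow, Derivation.leibniz, hDz]
      have : D j (C (α i : ℂ)) = 0 := by
        have := Derivation.map_algebraMap (D j) (α i : ℂ)
        simpa [MvPolynomial.algebraMap_eq] using this
      rw [this]
      simp
    rw [h1, smul_zero, zero_add, smul_eq_mul, mul_comm]
  have hdet : (Matrix.of fun j i => D j (T i)).det ≠ 0 := by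
    obtain ⟨x, hx⟩ := exists_eval_ne_zero' (p := ∏ j, v j (μ j))
      (Finset.prod_ne_zero_iff.2 fun j _ => hv j)
    rw [map_prod] at hx
    obtain ⟨z, hz⟩ := rank_condenser (fun m j => eval x (v j m)) μ hμ
      (fun j => Finset.prod_ne_zero_iff.1 hx j (Finset.mem_univ _))
      (fun j m hm => by rw [hv0 j m hm, map_zero]) α hα hpos
    intro h0
    apply hz
    let φ : LL M →+* ℂ := eval (fun o : Option (Fin M) => o.elim z x)
    have hφι : ∀ p, φ (ι p) = eval x p := by
      intro p
      simp only [φ, ι, eval_rename]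
      rfl
    have h1 := RingHom.map_det φ (Matrix.of fun j i => D j (T i))
    rw [h0, map_zero] at h1
    rw [← Matrix.det_transpose, h1]
    congr 1
    ext i j
    simp only [Matrix.transpose_apply, Matrix.of_apply, RingHom.mapMatrix_apply, Matrix.map_apply,
      hDT, map_sum, map_mul, map_pow, hφι]
    refine Finset.sum_congr rfl fun m _ => ?_
    have h2 : φ (C (α j : ℂ)) = α j := by simp [φ]
    have h3 : φ (X none) = z := by simp [φ]
    rw [h2, h3]
    ring
  let q' : Fin ρ → N := fun l => ⟨ι (q l), hqN l⟩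
  have hG1 : aeval T (gmap N q' Φ) = aeval (Sum.elim (fun l => ι (q l)) T) Φ := aeval_gmap N q' T Φ
  have hG2 : gmap (k := k) N q' Φ ≠ 0 := by
    obtain ⟨x, t, hxt⟩ := h
    refine gmap_ne_zero N q' (aeval (fun o : Option (Fin M) => o.elim 0 x)) t Φ ?_
    have hφι : ∀ p, aeval (fun o : Option (Fin M) => o.elim 0 x) (ι p) = eval x p := by
      intro p
      simp only [ι, aeval_rename]
      rfl
    simp only [q', hφι]
    exact hxt
  have hfin := jac N D (fun j c hc => hc j) T hdet _ (gmap N q' Φ) le_rfl hG2
  rw [hG1] at hfin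
  obtain ⟨y, hy⟩ := exists_eval_ne_zero' hfin
  refine ⟨fun m => y (some m), y none, ?_⟩
  have h1 : eval y (aeval (Sum.elim (fun l => ι (q l)) T) Φ) =
      eval (Sum.elim (fun l => eval (fun m => y (some m)) (q l))
      (fun i => ∑ m : Fin M, y (some m) * ((α i : ℂ) * y none) ^ (m : ℕ))) Φ := by
    have h2 : ∀ p : MvPolynomial (Fin ρ ⊕ Fin k) ℂ,
        eval y (aeval (Sum.elim (fun l => ι (q l)) T) p) =
      eval (Sum.elim (fun l => eval (fun m => y (some m)) (q l))
      (fun i => ∑ m : Fin M, y (some m) * ((α i : ℂ) * y none) ^ (m : ℕ))) p := by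
      intro p
      induction p using MvPolynomial.induction_on with
      | C c => simp
      | add p q hp hq => simp only [map_add, hp, hq]
      | mul_X p s hp =>
        rw [map_mul, map_mul, map_mul, hp]
        congr 1
        rcases s with l | i
        · simp only [aeval_X, Sum.elim_inl, eval_X, ι, eval_rename]
          rfl
        · simp only [aeval_X, Sum.elim_inr, eval_X, T, map_sum, map_mul, map_pow, eval_C]
    exact h2 Φ
  rwa [h1] at hy

end Pool.Agent.V8H51.PIT
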