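import Pool.Agent.V8H51.PIT.Weights

/-!
# Symbolic determinants: every block of small rank is simple
-/

set_option autoImplicit false

namespace Pool.Agent.V8H51.PIT

open MvPolynomial Finset

/-- simplicity, with finite types in place of `Fin` -/
theorem blockSimple_of_types {n ρ κ : ℕ} (f : MvPolynomial (Fin n) ℂ) (B : Finset (Fin n))
    (H : ∀ y : Fin n → ℂ, eval y f ≠ 0 → ∃ (ι : Type) (_ : Fintype ι) (T : Finset (Fin n))
      (q : ι → MvPolynomial (Fin n) ℂ) (Φ : MvPolynomial (ι ⊕ {i // i ∈ T}) ℂ),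
      Fintype.card ι ≤ ρ ∧ T ⊆ B ∧ T.card ≤ κ ∧
      (∀ l (x x' : Fin n → ℂ), (∀ i, i ∉ B → x i = x' i) → eval x (q l) = eval x' (q l)) ∧
      eval (Sum.elim (fun l => eval y (q l)) (fun a : {i // i ∈ T} => y a)) Φ ≠ 0 ∧
      ∀ x : Fin n → ℂ, eval (Sum.elim (fun l => eval x (q l)) (fun a : {i // i ∈ T} => x a)) Φ ≠ 0 →
        eval x f ≠ 0) : BlockSimple f B ρ κ := by
  classical
  intro y hy
  obtain ⟨ι, hι, T, q, Φ, h1, h2, h3, h4, h5, h6⟩ := H y hy
  let e := T.equivFin
  let g := Fintype.equivFin ι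
  let q' : Fin ρ → MvPolynomial (Fin n) ℂ := fun l =>
    if h : (l : ℕ) < Fintype.card ι then q (g.symm ⟨l, h⟩) else 0
  let j : ι → Fin ρ := fun l => ⟨g l, (g l).2.trans_le h1⟩
  have hq' : ∀ l, q' (j l) = q l := by
    intro l
    simp only [q', j]
    rw [dif_pos (g l).2]
    simp
  let Φ' : MvPolynomial (Fin ρ ⊕ Fin T.card) ℂ := rename (Sum.map j e) Φ
  have hev : ∀ x : Fin n → ℂ, eval (Sum.elim (fun l => eval x (q' l))
      (fun a => x (e.symm a : Fin n))) Φ' =
        eval (Sum.elim (fun l => eval x (q l)) (fun a : {i // i ∈ T} => x a)) Φ := by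
    intro x
    simp only [Φ', eval_rename]
    congr 2
    funext s
    rcases s with l | a
    · simp [hq']
    · simp
  refine ⟨T.card, fun a => (e.symm a : Fin n), q', Φ', h3, ?_, ?_, ?_, ?_, ?_⟩
  · intro a b hab
    exact e.symm.injective (Subtype.ext hab)
  · intro a
    exact h2 (e.symm a).2
  · intro l x x' hx
    by_cases h : (l : ℕ) < Fintype.card ι
    · simp only [q', dif_pos h]
      exact h4 _ x x' hx
    · simp only [q', dif_neg h, map_zero]
  · rw [hev]; exact h5
  · intro x hx
    rw [hev] at hx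
    exact h6 x hx

/-- rank factorisation -/
theorem exists_rank_factor {m : Type*} [Fintype m] [DecidableEq m] (A : Matrix m m ℂ) :
    ∃ (U : Matrix m (Fin A.rank) ℂ) (V : Matrix (Fin A.rank) m ℂ), A = U * V := by
  let b : Module.Basis (Fin A.rank) ℂ (LinearMap.range A.mulVecLin) :=
    Module.finBasisOfFinrankEq ℂ _ rfl
  refine ⟨Matrix.of fun i a => (b a : m → ℂ) i,
    Matrix.of fun a j => b.repr ⟨A.mulVecLin (Pi.single j 1), LinearMap.mem_range_self _ _⟩ a, ?_⟩
  ext i j
  rw [Matrix.mul_apply]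
  simp only [Matrix.of_apply]
  have h1 := b.sum_repr ⟨A.mulVecLin (Pi.single j 1), LinearMap.mem_range_self _ _⟩
  have h2 := congrArg (fun v : LinearMap.range A.mulVecLin => (v : m → ℂ) i) h1
  simp only [Submodule.coe_sum, Submodule.coe_smul, Finset.sum_apply, Pi.smul_apply,
    smul_eq_mul] at h2
  have h3 : (A.mulVecLin (Pi.single j 1)) i = A i j := by
    simp [Matrix.mulVec_single]
  rw [h3] at h2
  rw [← h2]
  exact Finset.sum_congr rfl fun a _ => mul_comm _ _

section det

variable {n : ℕ} {m : Type} [Fintype m] [DecidableEq m]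

/-- the symbolic matrix `A₀ + ∑ X_i A_i` -/
noncomputable def symMat (A₀ : Matrix m m ℂ) (A : Fin n → Matrix m m ℂ) :
    Matrix m m (MvPolynomial (Fin n) ℂ) :=
  A₀.map C + ∑ i, (X i : MvPolynomial (Fin n) ℂ) • (A i).map C

omit [Fintype m] [DecidableEq m] in
theorem eval_symMat (A₀ : Matrix m m ℂ) (A : Fin n → Matrix m m ℂ) (x : Fin n → ℂ) :
    (symMat A₀ A).map (eval x) = A₀ + ∑ i, x i • A i := by
  ext a b
  simp [symMat, Matrix.sum_apply]

theorem eval_det_symMat (A₀ : Matrix m m ℂ) (A : Fin n → Matrix m m ℂ) (x : Fin n → ℂ) :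
    eval x (symMat A₀ A).det = (A₀ + ∑ i, x i • A i).det := by
  rw [← eval_symMat, RingHom.map_det]
  rfl

omit [Fintype m] [DecidableEq m] in
/-- the stacked factors -/
theorem sum_smul_factor {S : Type*} [CommRing S] [Algebra ℂ S] (B : Finset (Fin n))
    (r : Fin n → ℕ) (U : ∀ i, Matrix m (Fin (r i)) S) (V : ∀ i, Matrix (Fin (r i)) m S)
    (d : Fin n → S) :
    ∑ i ∈ B, d i • (U i * V i) =
      (Matrix.of fun a (p : Σ i : {i // i ∈ B}, Fin (r i)) => U p.1 a p.2 :
        Matrix m (Σ i : {i // i ∈ B}, Fin (r i)) S) *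
        (Matrix.diagonal fun p : Σ i : {i // i ∈ B}, Fin (r i) => d p.1 :
          Matrix (Σ i : {i // i ∈ B}, Fin (r i)) (Σ i : {i // i ∈ B}, Fin (r i)) S) *
        (Matrix.of fun (p : Σ i : {i // i ∈ B}, Fin (r i)) b => V p.1 p.2 b :
          Matrix (Σ i : {i // i ∈ B}, Fin (r i)) m S) := by
  ext a b
  rw [Matrix.mul_apply, Fintype.sum_sigma, Matrix.sum_apply]
  rw [← Finset.sum_coe_sort B]
  refine Finset.sum_congr rfl fun i _ => ?_
  rw [Matrix.smul_apply, Matrix.mul_apply, smul_eq_mul, Finset.mul_sum]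
  refine Finset.sum_congr rfl fun c _ => ?_
  rw [Matrix.mul_diagonal]
  simp only [Matrix.of_apply]
  ring

theorem totalDegree_det_le {S : Type*} [Fintype S] [DecidableEq S]
    (P : Matrix S S (MvPolynomial (Fin n) ℂ)) (w : S → ℕ) (h : ∀ i j, (P i j).totalDegree ≤ w j) :
    P.det.totalDegree ≤ ∑ j, w j := by
  rw [Matrix.det_apply]
  refine (totalDegree_finsetSum _ _).trans (Finset.sup_le fun σ _ => ?_)
  have h1 : ((Equiv.Perm.sign σ) • ∏ i, P (σ i) i).totalDegree = (∏ i, P (σ i) i).totalDegree := by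
    rcases Int.units_eq_one_or (Equiv.Perm.sign σ) with h | h
    · rw [h, one_smul]
    · rw [h]
      simp [totalDegree_neg]
  rw [h1]
  exact (totalDegree_finsetProd _ _).trans (Finset.sum_le_sum fun i _ => h _ _)

theorem totalDegree_symMat (A₀ : Matrix m m ℂ) (A : Fin n → Matrix m m ℂ) :
    (symMat A₀ A).det.totalDegree ≤ ∑ i, (A i).rank := by
  classical
  choose U V hUV using fun i => exists_rank_factor (A i)
  let R := Σ i : {i // i ∈ (Finset.univ : Finset (Fin n))}, Fin (A i).rank
  let CC : Matrix m m ℂ → Matrix m m (MvPolynomial (Fin n) ℂ) := fun A => A.map C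
  let UU : Matrix m R (MvPolynomial (Fin n) ℂ) := Matrix.of fun a p => C (U p.1 a p.2)
  let VV : Matrix R m (MvPolynomial (Fin n) ℂ) := Matrix.of fun p b => C (V p.1 p.2 b)
  let DD : Matrix R R (MvPolynomial (Fin n) ℂ) := Matrix.diagonal fun p : R => X (p.1 : Fin n)
  have h1 : symMat A₀ A = A₀.map C - (-(UU * DD)) * VV := by
    have h0 : -(UU * DD) * VV = -(UU * DD * VV) := Matrix.neg_mul _ _
    rw [symMat, h0, sub_neg_eq_add]
    congr 1
    have := sum_smul_factor (S := MvPolynomial (Fin n) ℂ) Finset.univ (fun i => (A i).rank)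
      (fun i => (U i).map C) (fun i => (V i).map C) (fun i => X i)
    refine Eq.trans ?_ this
    refine Finset.sum_congr rfl fun i _ => ?_
    rw [← Matrix.map_mul, ← hUV]
  rw [h1, ← Matrix.det_fromBlocks_one₂₂]
  refine (totalDegree_det_le _ (Sum.elim (fun _ => 0) (fun _ => 1)) ?_).trans ?_
  · rintro (i | i) (j | j)
    · simp
    · have h2 : (UU * DD) i j = UU i j * X (j.1 : Fin n) := Matrix.mul_diagonal _ _ _ _
      rw [Matrix.fromBlocks_apply₁₂, Matrix.neg_apply, totalDegree_neg, h2]
      refine (totalDegree_mul _ _).trans ?_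
      simp [UU]
    · simp [VV]
    · simp only [Matrix.fromBlocks_apply₂₂, Matrix.one_apply, Sum.elim_inr]
      split_ifs <;> simp
  · rw [Fintype.sum_sum_type]
    simp only [Sum.elim_inl, Sum.elim_inr, Finset.sum_const_zero, zero_add, Finset.sum_const,
      Finset.card_univ, smul_eq_mul, mul_one]
    rw [Fintype.card_sigma]
    simp only [Fintype.card_fin]
    rw [Finset.sum_coe_sort Finset.univ (fun i => (A i).rank)]

theorem blockSimple_det (A₀ : Matrix m m ℂ) (A : Fin n → Matrix m m ℂ) (B : Finset (Fin n))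
    {r : ℕ} (hB : ∑ i ∈ B, (A i).rank ≤ r) :
    BlockSimple (symMat A₀ A).det B (r ^ 2 + 1) r := by
  classical
  refine blockSimple_of_types _ B fun y hy => ?_
  choose U V hUV using fun i => exists_rank_factor (A i)
  let R := Σ i : {i // i ∈ B}, Fin (A i).rank
  have hR : Fintype.card R ≤ r := by
    have h1 : Fintype.card R = ∑ i ∈ B, (A i).rank := by
      rw [Fintype.card_sigma]
      simp only [Fintype.card_fin]
      exact Finset.sum_coe_sort B (fun i => (A i).rank)
    omega
  let T : Finset (Fin n) := B.filter fun i => (A i).rank ≠ 0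
  have hTmem : ∀ p : R, (p.1 : Fin n) ∈ T := by
    intro p
    rw [Finset.mem_filter]
    refine ⟨p.1.2, ?_⟩
    have := p.2.2
    omega
  -- the frozen matrix
  let fz : (Fin n → ℂ) → Fin n → ℂ := fun x i => if i ∈ B then y i else x i
  let fzp : Fin n → MvPolynomial (Fin n) ℂ := fun i => if i ∈ B then C (y i) else X i
  let E : (Fin n → ℂ) → Matrix m m ℂ := fun x => A₀ + ∑ i, fz x i • A i
  let Ep : Matrix m m (MvPolynomial (Fin n) ℂ) := A₀.map C + ∑ i, fzp i • (A i).map C
  have hEp : ∀ x, Ep.map (eval x) = E x := by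
    intro x
    have h1 : ∀ i, eval x (fzp i) = fz x i := by
      intro i
      by_cases hi : i ∈ B
      · simp [fzp, fz, hi]
      · simp [fzp, fz, hi]
    ext a b
    simp [Ep, E, Matrix.sum_apply, h1]
  let UU : Matrix m R ℂ := Matrix.of fun a p => U p.1 a p.2
  let VV : Matrix R m ℂ := Matrix.of fun p b => V p.1 p.2 b
  let Up : Matrix m R (MvPolynomial (Fin n) ℂ) := UU.map C
  let Vp : Matrix R m (MvPolynomial (Fin n) ℂ) := VV.map C
  let Kp : Matrix R R (MvPolynomial (Fin n) ℂ) := Vp * Ep.adjugate * Up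
  let q : Option (R × R) → MvPolynomial (Fin n) ℂ := fun o =>
    o.elim Ep.det fun p => Kp p.1 p.2
  have hq0 : ∀ x, eval x (q none) = (E x).det := by
    intro x
    simp only [q, Option.elim_none]
    rw [← hEp, RingHom.map_det]
    rfl
  have hq1 : ∀ x a b, eval x (q (some (a, b))) = (VV * (E x).adjugate * UU) a b := by
    intro x a b
    simp only [q, Option.elim_some]
    have h1 : Kp.map (eval x) = VV * (E x).adjugate * UU := by
      have h2 : Ep.adjugate.map (eval x) = (Ep.map (eval x)).adjugate :=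
        RingHom.map_adjugate (eval x) Ep
      have h3 : Up.map (eval x) = UU := by ext a b; simp [Up]
      have h4 : Vp.map (eval x) = VV := by ext a b; simp [Vp]
      simp only [Kp]
      rw [Matrix.map_mul, Matrix.map_mul, h2, hEp, h3, h4]
    rw [← h1]
    rfl
  let Φ : MvPolynomial (Option (R × R) ⊕ {i // i ∈ T}) ℂ :=
    X (Sum.inl none) * (Matrix.of fun a b : R =>
      (if a = b then X (Sum.inl none) else 0) +
        (X (Sum.inr ⟨a.1, hTmem a⟩) - C (y a.1)) * X (Sum.inl (some (a, b)))).det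
  have hΦ : ∀ x : Fin n → ℂ, eval (Sum.elim (fun l => eval x (q l))
      (fun a : {i // i ∈ T} => x a)) Φ =
      (E x).det * ((E x).det • (1 : Matrix R R ℂ) +
        (Matrix.diagonal fun p : R => x p.1 - y p.1) * (VV * (E x).adjugate * UU)).det := by
    intro x
    simp only [Φ, map_mul, eval_X, Sum.elim_inl, hq0]
    congr 1
    rw [RingHom.map_det]
    congr 1
    ext a b
    simp only [RingHom.mapMatrix_apply, Matrix.map_apply, Matrix.of_apply, map_add, map_mul,
      map_sub, eval_X, Sum.elim_inl, Sum.elim_inr, eval_C, hq1, Matrix.add_apply, Matrix.smul_apply,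
      Matrix.one_apply, Matrix.diagonal_mul, smul_eq_mul]
    congr 1
    split_ifs
    · simp [hq0]
    · simp
  have hsplit : ∀ x : Fin n → ℂ, A₀ + ∑ i, x i • A i =
      E x + UU * ((Matrix.diagonal fun p : R => x p.1 - y p.1) * VV) := by
    intro x
    have h1 : UU * ((Matrix.diagonal fun p : R => x p.1 - y p.1) * VV) =
        ∑ i ∈ B, (x i - y i) • A i := by
      rw [← Matrix.mul_assoc]
      have := sum_smul_factor (S := ℂ) B (fun i => (A i).rank) U V (fun i => x i - y i)
      rw [← this]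
      exact Finset.sum_congr rfl fun i _ => by rw [← hUV]
    rw [h1]
    simp only [E]
    rw [add_assoc]
    congr 1
    have h2 : ∑ i ∈ B, (x i - y i) • A i = ∑ i, (if i ∈ B then (x i - y i) • A i else 0) := by
      rw [← Finset.sum_filter]
      congr 1
      ext i; simp
    rw [h2, ← Finset.sum_add_distrib]
    refine Finset.sum_congr rfl fun i _ => ?_
    by_cases hi : i ∈ B
    · simp only [fz, hi, if_true]
      rw [← add_smul]
      congr 1
      ring
    · simp only [fz, hi, if_false, add_zero]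
  refine ⟨Option (R × R), inferInstance, T, q, Φ, ?_, Finset.filter_subset _ _, ?_, ?_, ?_, ?_⟩
  · rw [Fintype.card_option, Fintype.card_prod, sq]
    exact Nat.succ_le_succ (Nat.mul_le_mul hR hR)
  · calc T.card = ∑ i ∈ T, 1 := by simp
      _ ≤ ∑ i ∈ T, (A i).rank := Finset.sum_le_sum fun i hi => by
        rw [Finset.mem_filter] at hi; omega
      _ ≤ ∑ i ∈ B, (A i).rank := Finset.sum_le_sum_of_subset (Finset.filter_subset _ _)
      _ ≤ r := hB
  · intro l x x' hx
    have hE : E x = E x' := by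
      have : fz x = fz x' := by
        funext i
        by_cases hi : i ∈ B
        · simp [fz, hi]
        · simp [fz, hi, hx i hi]
      simp only [E, this]
    rcases l with _ | ⟨a, b⟩
    · rw [hq0, hq0, hE]
    · rw [hq1, hq1, hE]
  · rw [hΦ]
    have h1 : E y = A₀ + ∑ i, y i • A i := by
      have : fz y = y := by
        funext i
        by_cases hi : i ∈ B
        · simp [fz, hi]
        · simp [fz, hi]
      simp only [E, this]
    rw [eval_det_symMat, ← h1] at hy
    have h2 : (Matrix.diagonal fun p : R => y p.1 - y p.1) = (0 : Matrix R R ℂ) := by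
      ext a b
      simp [Matrix.diagonal_apply]
    rw [h2, zero_mul, add_zero, Matrix.det_smul, Matrix.det_one, mul_one]
    exact mul_ne_zero hy (pow_ne_zero _ hy)
  · intro x hx
    rw [hΦ] at hx
    have h1 : (E x).det ≠ 0 := left_ne_zero_of_mul hx
    have h2 := right_ne_zero_of_mul hx
    rw [eval_det_symMat, hsplit]
    have hu : IsUnit (E x).det := isUnit_iff_ne_zero.2 h1
    rw [Matrix.det_add_mul _ _ hu]
    refine mul_ne_zero h1 ?_
    intro h3
    apply h2
    have h4 : (E x).adjugate = (E x).det • (E x)⁻¹ := by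
      rw [Matrix.inv_def, smul_smul, Ring.mul_inverse_cancel _ hu, one_smul]
    have h5 : (E x).det • (1 : Matrix R R ℂ) +
        (Matrix.diagonal fun p : R => x p.1 - y p.1) * (VV * (E x).adjugate * UU) =
        (E x).det • (1 + (Matrix.diagonal fun p : R => x p.1 - y p.1) * VV * (E x)⁻¹ * UU) := by
      rw [h4, smul_add]
      congr 1
      simp only [Matrix.mul_smul, Matrix.smul_mul, Matrix.mul_assoc]
    rw [h5, Matrix.det_smul, h3, mul_zero]

end det

end Pool.Agent.V8H51.PIT
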