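import Pool.Agent.V8H51.PIT.Weights

/-!
# The block generator, for polynomials which are simple on families
-/

set_option autoImplicit false

namespace Pool.Agent.V8H51.PIT

open MvPolynomial Finset

/-- the point with the coordinates `t i` in `B` and `p i` elsewhere -/
def mix {n : ℕ} (B : Finset (Fin n)) (t p : Fin n → ℂ) : Fin n → ℂ :=
  fun i => if i ∈ B then t i else p i

/-- `f` is simple with respect to `B`: if the variables outside `B` are replaced by polynomials
`p i` in `M` parameters and `f` does not vanish, then there is a nonvanishing polynomial in some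
polynomials `q` in the parameters and some variables in `B`, altogether at most `N`, such that
`f` does not vanish where it does not vanish. -/
def FamSimple {n : ℕ} (f : MvPolynomial (Fin n) ℂ) (B : Finset (Fin n)) (N : ℕ) : Prop :=
  ∀ (M : ℕ) (p : Fin n → MvPolynomial (Fin M) ℂ),
    (∃ (x : Fin M → ℂ) (t : Fin n → ℂ), eval (mix B t fun i => eval x (p i)) f ≠ 0) →
    ∃ (ρ k : ℕ) (T : Fin k → Fin n) (q : Fin ρ → MvPolynomial (Fin M) ℂ)
      (Φ : MvPolynomial (Fin ρ ⊕ Fin k) ℂ),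
      ρ + k ≤ N ∧ Function.Injective T ∧ (∀ a, T a ∈ B) ∧
      (∃ (x : Fin M → ℂ) (t : Fin n → ℂ),
        eval (Sum.elim (fun l => eval x (q l)) (fun a => t (T a))) Φ ≠ 0) ∧
      ∀ (x : Fin M → ℂ) (t : Fin n → ℂ),
        eval (Sum.elim (fun l => eval x (q l)) (fun a => t (T a))) Φ ≠ 0 →
        eval (mix B t fun i => eval x (p i)) f ≠ 0

theorem fam_step {n M N : ℕ} (hM : N ≤ M) (f : MvPolynomial (Fin n) ℂ) (B : Finset (Fin n))
    (hf : FamSimple f B N) (p : Fin n → MvPolynomial (Fin M) ℂ) (X₀ : Fin M → ℂ)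
    (t : Fin n → ℂ)
    (h0 : eval (fun i => if i ∈ B then t i else eval X₀ (p i)) f ≠ 0) :
    ∃ (X : Fin M → ℂ) (z : ℂ),
      eval (fun i : Fin n => if i ∈ B then gval X z i else eval X (p i)) f ≠ 0 := by
  obtain ⟨ρ, k, T, q, Φ, hk, hT, hTB, ⟨x1, t1, hΦ0⟩, hΦ⟩ := hf M p ⟨X₀, t, h0⟩
  obtain ⟨X, z, hXz⟩ := condenser (M := M) (ρ := ρ) (k := k) (by omega) q Φ
    (fun a => (T a : ℕ) + 1) (fun a b hab => hT (Fin.ext (by simpa using hab)))
    (fun a => Nat.succ_pos _) ⟨x1, fun a => t1 (T a), hΦ0⟩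
  refine ⟨X, z, hΦ X (fun i => gval X z i) ?_⟩
  have h2 : ∀ a, gval X z (T a) =
      ∑ m : Fin M, X m * ((((T a : ℕ) + 1 : ℕ) : ℂ) * z) ^ (m : ℕ) := by
    intro a
    simp only [gval]
    push_cast
    rfl
  simp only [h2]
  exact hXz

/-- the block with number `j` -/
def block {n b : ℕ} (h : Fin n → Fin b) (j : Fin b) : Finset (Fin n) :=
  Finset.univ.filter fun i => h i = j

theorem fam_hybrid {n M b : ℕ} (hM2 : 2 ≤ M) (f : MvPolynomial (Fin n) ℂ)
    (hf : f ≠ 0) (h : Fin n → Fin b)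
    (hB : ∀ j, FamSimple f (block h j) M ∨ (block h j).card ≤ 1) :
    ∀ j : ℕ, j ≤ b → ∃ (X : Fin M → ℂ) (z : Fin b → ℂ) (y : Fin n → ℂ),
      eval (fun i => if (h i : ℕ) < j then gval X (z (h i)) i else y i) f ≠ 0 := by
  intro j
  induction j with
  | zero =>
    intro _
    obtain ⟨y, hy⟩ := exists_eval_ne_zero' hf
    exact ⟨fun _ => 0, fun _ => 0, y, by simpa using hy⟩
  | succ j ih =>
    intro hj
    obtain ⟨X₀, z, y, h0⟩ := ih (by omega)
    let j' : Fin b := ⟨j, hj⟩
    let B : Finset (Fin n) := block h j'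
    let p : Fin n → MvPolynomial (Fin M) ℂ := fun i =>
      if (h i : ℕ) < j then ∑ m : Fin M, X m * C ((((i : ℕ) : ℂ) + 1) * z (h i)) ^ (m : ℕ)
      else C (y i)
    have hp : ∀ X' i, i ∉ B → eval X' (p i) =
        if (h i : ℕ) < j then gval X' (z (h i)) i else y i := by
      intro X' i _
      by_cases hi : (h i : ℕ) < j
      · simp only [p, hi, if_true, gval, map_sum, map_mul, map_pow, eval_X, eval_C]
      · simp only [p, hi, if_false, eval_C]
    have hmem : ∀ i, i ∈ B ↔ (h i : ℕ) = j := by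
      intro i
      simp only [B, block, Finset.mem_filter, Finset.mem_univ, true_and]
      exact ⟨fun h => by rw [h], fun h => Fin.ext h⟩
    have h0' : eval (fun i => if i ∈ B then y i else eval X₀ (p i)) f ≠ 0 := by
      convert h0 using 3
      funext i
      by_cases hi : i ∈ B
      · have := (hmem i).1 hi
        rw [if_pos hi, if_neg (by omega)]
      · rw [if_neg hi, hp X₀ i hi]
    obtain ⟨X, zj, hX⟩ : ∃ (X : Fin M → ℂ) (z : ℂ),
        eval (fun i : Fin n => if i ∈ B then gval X z i else eval X (p i)) f ≠ 0 := by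
      rcases hB j' with hs | hs
      · exact fam_step le_rfl f B hs p X₀ y h0'
      · exact step_single hM2 f B hs p X₀ y h0'
    refine ⟨X, Function.update z j' zj, y, ?_⟩
    convert hX using 3
    funext i
    by_cases hi : i ∈ B
    · have h1 := (hmem i).1 hi
      have h2 : h i = j' := Fin.ext h1
      rw [if_pos hi, if_pos (by omega), h2, Function.update_self]
    · have h1 : (h i : ℕ) ≠ j := fun h => hi ((hmem i).2 h)
      rw [if_neg hi, hp X i hi]
      by_cases h3 : (h i : ℕ) < j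
      · rw [if_pos (by omega), if_pos h3, Function.update_of_ne]
        intro h4
        apply h1
        rw [h4]
      · rw [if_neg (by omega), if_neg h3]

/-- The generator: `n` polynomials in the `M + b` variables `X_m` (`m < M`) and `z_j` (`j < b`); the
polynomial with number `i` is `∑_{m < M} X_m ((i + 1) z_{h i})^m`. -/
noncomputable def generator {n b : ℕ} (M : ℕ) (h : Fin n → Fin b) (i : Fin n) :
    MvPolynomial (Fin M ⊕ Fin b) ℂ :=
  ∑ m : Fin M, X (Sum.inl m) * (C (((i : ℕ) : ℂ) + 1) * X (Sum.inr (h i))) ^ (m : ℕ)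

theorem eval_generator {n M b : ℕ} (h : Fin n → Fin b) (f : MvPolynomial (Fin n) ℂ)
    (X : Fin M → ℂ) (z : Fin b → ℂ) :
    eval (Sum.elim X z) (aeval (generator M h) f) = eval (fun i => gval X (z (h i)) i) f := by
  have h2 : (fun i => eval (Sum.elim X z) (generator M h i)) =
      (fun i : Fin n => gval X (z (h i)) i) := by
    funext i
    simp only [generator, gval, map_sum, map_mul, map_pow, eval_X, eval_C, Sum.elim_inl,
      Sum.elim_inr]
  rw [← h2]
  exact eval_aeval _ _ _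

theorem degreeOf_generator {n M b : ℕ} (h : Fin n → Fin b) (i : Fin n) (t : Fin M ⊕ Fin b) :
    (generator M h i).degreeOf t ≤ M := by
  classical
  refine (degreeOf_sum_le t _ _).trans (Finset.sup_le fun m _ => ?_)
  refine (degreeOf_mul_le t _ _).trans ?_
  have h1 : (MvPolynomial.X (Sum.inl m) : MvPolynomial (Fin M ⊕ Fin b) ℂ).degreeOf t ≤ 1 := by
    rw [degreeOf_X]; split_ifs <;> simp
  have h2 : ((C (((i : ℕ) : ℂ) + 1) * MvPolynomial.X (Sum.inr (h i)) :
      MvPolynomial (Fin M ⊕ Fin b) ℂ) ^ (m : ℕ)).degreeOf t ≤ m := by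
    refine (degreeOf_pow_le t _ _).trans ?_
    have h3 : (C (((i : ℕ) : ℂ) + 1) * MvPolynomial.X (Sum.inr (h i)) :
      MvPolynomial (Fin M ⊕ Fin b) ℂ).degreeOf t ≤ 1 := by
      refine (degreeOf_mul_le t _ _).trans ?_
      rw [degreeOf_C, degreeOf_X, zero_add]
      split_ifs <;> simp
    calc (m : ℕ) * _ ≤ (m : ℕ) * 1 := Nat.mul_le_mul_left _ h3
      _ = m := mul_one _
  have := m.2
  omega

/-- **The block generator**: it does not kill polynomials which are simple with respect to all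
blocks. -/
theorem fam_ne_zero {n M b : ℕ} (hM2 : 2 ≤ M) (f : MvPolynomial (Fin n) ℂ)
    (hf : f ≠ 0) (h : Fin n → Fin b)
    (hB : ∀ j, FamSimple f (block h j) M ∨ (block h j).card ≤ 1) :
    aeval (generator M h) f ≠ 0 := by
  obtain ⟨X, z, y, h0⟩ := fam_hybrid hM2 f hf h hB b le_rfl
  have h0' : eval (fun i => gval X (z (h i)) i) f ≠ 0 := by
    convert h0 using 3
    funext i
    rw [if_pos (h i).2]
  intro h1
  apply h0'
  rw [← eval_generator, h1, map_zero]

theorem hit_of_ne_zero {n M b d : ℕ} (f : MvPolynomial (Fin n) ℂ) (h : Fin n → Fin b)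
    (hne : aeval (generator M h) f ≠ 0) (hd : f.totalDegree ≤ d) :
    ∃ (X : Fin M → ℕ) (z : Fin b → ℕ), (∀ m, X m ≤ d * M) ∧ (∀ j, z j ≤ d * M) ∧
      eval (fun i : Fin n =>
        ((∑ m : Fin M, X m * (((i : ℕ) + 1) * z (h i)) ^ (m : ℕ) : ℕ) : ℂ)) f ≠ 0 := by
  classical
  have hdeg : ∀ t, (aeval (generator M h) f).degreeOf t ≤ d * M := by
    intro t
    refine (degreeOf_aeval_le f _ t M fun i => degreeOf_generator h i t).trans ?_
    rw [mul_comm]
    exact Nat.mul_le_mul_right _ hd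
  obtain ⟨x, hx1, hx2⟩ := exists_grid hne (d * M) hdeg
  refine ⟨fun m => x (Sum.inl m), fun j => x (Sum.inr j), fun m => hx1 _, fun j => hx1 _, ?_⟩
  have h3 : (fun t => (x t : ℂ)) = Sum.elim (fun m => (x (Sum.inl m) : ℂ))
      (fun j => (x (Sum.inr j) : ℂ)) := by
    funext t
    rcases t with t | t <;> rfl
  rw [h3, eval_generator] at hx2
  convert hx2 using 3
  funext i
  simp only [gval]
  push_cast
  rfl

theorem mem_points_of_hit {n M b D : ℕ} (a : Fin b → Fin (n + 1)) (X : Fin M → ℕ)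
    (z : Fin (b + 1) → ℕ) (hX : ∀ m, X m ≤ D) (hz : ∀ j, z j ≤ D) :
    point a X z ∈ points n M b D := by
  rw [points, Finset.mem_image]
  exact ⟨(a, fun m => ⟨X m, Nat.lt_succ_of_le (hX m)⟩, fun j => ⟨z j, Nat.lt_succ_of_le (hz j)⟩),
    Finset.mem_univ _, rfl⟩

/-- thresholds with few and light blocks -/
theorem exists_partition {n s r : ℕ} (hr : 0 < r) (b : ℕ) (hb : 2 * (s / r) ≤ b) (c : Fin n → ℕ)
    (hc : ∑ i, c i ≤ s) :
    ∃ a : Fin b → Fin (n + 1), ∀ j, ∑ i ∈ block (interval a) j, c i ≤ r ∨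
      (block (interval a) j).card ≤ 1 :=
  exists_cut hr b hb c hc

theorem fam_weight_hit {n M b s r d : ℕ} (hr : 0 < r) (hb : 2 * (s / r) ≤ b)
    (hM2 : 2 ≤ M) (f : MvPolynomial (Fin n) ℂ) (hf : f ≠ 0) (hd : f.totalDegree ≤ d)
    (c : Fin n → ℕ) (hc : ∑ i, c i ≤ s)
    (hB : ∀ B : Finset (Fin n), ∑ i ∈ B, c i ≤ r → FamSimple f B M) :
    ∃ x ∈ points n M b (d * M), eval (fun i => (x i : ℂ)) f ≠ 0 := by
  obtain ⟨a, ha⟩ := exists_partition hr b hb c hc
  have hne := fam_ne_zero hM2 f hf (interval a) (fun j => by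
    rcases ha j with h | h
    · exact Or.inl (hB _ h)
    · exact Or.inr h)
  obtain ⟨X, z, hX, hz, h⟩ := hit_of_ne_zero f (interval a) hne hd
  exact ⟨point a X z, mem_points_of_hit a X z hX hz, h⟩

/-- simplicity from generators of an algebra -/
theorem famSimple_of_adjoin {n N : ℕ} (f : MvPolynomial (Fin n) ℂ) (B T : Finset (Fin n))
    (hTB : T ⊆ B) (Q : Finset (MvPolynomial (Fin n) ℂ)) (hQ : Q.card + T.card ≤ N)
    (hQB : ∀ q ∈ Q, ∀ x x' : Fin n → ℂ, (∀ i, i ∉ B → x i = x' i) → eval x q = eval x' q)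
    (hf : f ∈ Algebra.adjoin ℂ ((Q : Set (MvPolynomial (Fin n) ℂ)) ∪ X '' (T : Set (Fin n)))) :
    FamSimple f B N := by
  classical
  intro M p hne
  let e := T.equivFin
  let g := Q.equivFin
  let q : Fin Q.card → MvPolynomial (Fin n) ℂ := fun l => (g.symm l : MvPolynomial (Fin n) ℂ)
  have hrange : f ∈ Algebra.adjoin ℂ (Set.range
      (Sum.elim q (fun a : Fin T.card => X (e.symm a : Fin n)) : Fin Q.card ⊕ Fin T.card → _)) := by
    refine Algebra.adjoin_mono ?_ hf
    rintro p (hp | ⟨i, hi, rfl⟩)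
    · exact ⟨Sum.inl (g ⟨p, hp⟩), by simp [q]⟩
    · exact ⟨Sum.inr (e ⟨i, hi⟩), by simp⟩
  rw [Algebra.adjoin_range_eq_range_aeval] at hrange
  obtain ⟨Φ, hΦ⟩ := hrange
  have hev : ∀ x : Fin n → ℂ, eval (Sum.elim (fun l => eval x (q l))
      (fun a => x (e.symm a : Fin n))) Φ = eval x f := by
    intro x
    rw [← hΦ]
    change _ = eval x (aeval _ Φ)
    rw [eval_aeval]
    congr 2
    funext s
    rcases s with l | a
    · rfl
    · simp
  let q' : Fin Q.card → MvPolynomial (Fin M) ℂ :=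
    fun l => aeval (fun i => if i ∈ B then 0 else p i) (q l)
  have hq' : ∀ (x : Fin M → ℂ) (t : Fin n → ℂ) l,
      eval x (q' l) = eval (mix B t fun i => eval x (p i)) (q l) := by
    intro x t l
    have h1 : eval x (q' l) = eval (fun i => eval x (if i ∈ B then 0 else p i)) (q l) :=
      eval_aeval _ _ _
    rw [h1]
    refine hQB _ (g.symm l).2 _ _ fun i hi => ?_
    simp [mix, hi]
  have hev' : ∀ (x : Fin M → ℂ) (t : Fin n → ℂ),
      eval (Sum.elim (fun l => eval x (q' l)) (fun a => t (e.symm a : Fin n))) Φ =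
        eval (mix B t fun i => eval x (p i)) f := by
    intro x t
    rw [← hev]
    congr 2
    funext s
    rcases s with l | a
    · simp only [Sum.elim_inl]
      exact hq' x t l
    · simp only [Sum.elim_inr, mix]
      rw [if_pos (hTB (e.symm a).2)]
  obtain ⟨x0, t0, h0⟩ := hne
  refine ⟨Q.card, T.card, fun a => (e.symm a : Fin n), q', Φ, hQ, ?_, ?_, ?_, ?_⟩
  · intro a b hab
    exact e.symm.injective (Subtype.ext hab)
  · intro a
    exact hTB (e.symm a).2
  · exact ⟨x0, t0, by rw [hev']; exact h0⟩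
  · intro x t hx
    rwa [hev'] at hx

end Pool.Agent.V8H51.PIT
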