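import Pool.Agent.V8H51.PIT.FmlDefs
import Pool.Agent.V8H51.PIT.Fam

/-!
# Circuits with polynomial gates and formula gates, and their weight
-/

set_option autoImplicit false

namespace Pool.Agent.V8H51.PIT

open MvPolynomial

/-- The leaves of a formula which are not labelled by constants: `inl i` stands for the variable
`x_i`, `inr k` for the result of the gate `k + 1` places earlier. -/
def Fml.leaves {n : ℕ} : Fml n → List (Fin n ⊕ ℕ)
  | const _ => []
  | var i => [Sum.inl i]
  | res k => [Sum.inr k]
  | add F G => F.leaves ++ G.leaves
  | mul F G => F.leaves ++ G.leaves

/-- A gate is an arbitrary polynomial of variables and results of earlier gates, or an arithmetic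
formula in variables and results of earlier gates. -/
inductive Gate (n : ℕ) : Type
  | poly (G : MvPolynomial (Fin n ⊕ ℕ) ℂ)
  | formula (F : Fml n)

namespace Gate

variable {n : ℕ}

/-- The polynomial computed by a gate, if `v k` is the result of the gate `k + 1` places earlier. -/
noncomputable def value (v : ℕ → MvPolynomial (Fin n) ℂ) : Gate n → MvPolynomial (Fin n) ℂ
  | poly G => aeval (Sum.elim X v) G
  | formula F => F.value v

/-- The inputs of a gate. -/
noncomputable def inputs : Gate n → List (Fin n ⊕ ℕ)
  | poly G => G.vars.toList
  | formula F => F.leaves

/-- The weight of a gate with the label `S`, if `L u` is the label of its input `u`. -/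
noncomputable def weight (L : Fin n ⊕ ℕ → Finset (Fin n)) (S : Finset (Fin n)) : Gate n → ℕ
  | poly G => ∑ u ∈ G.vars, (S \ L u).card
  | formula F => S.card + (F.leaves.map fun u => (L u).card).sum

/-- The crossing number of a gate and a set `B` of variables, if `L u` is the label of its input
`u`: the number of inputs with labels disjoint from `B` in the first case, and
`4 a + 1`, where `a` is the number of leaves with labels not disjoint from `B`, in the second. -/
noncomputable def crossing (L : Fin n ⊕ ℕ → Finset (Fin n)) (B : Finset (Fin n)) : Gate n → ℕ
  | poly G => (G.vars.filter fun u => Disjoint (L u) B).card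
  | formula F => 4 * (F.leaves.countP fun u => ¬ Disjoint (L u) B) + 1

end Gate

/-- A circuit is a list of gates with labels, which are sets of variables. The list begins with the
last gate. -/
abbrev Circuit (n : ℕ) := List (Gate n × Finset (Fin n))

namespace Circuit

variable {n : ℕ}

/-- The result of the gate `k` places before the last one (`0` if there is none). -/
noncomputable def value : Circuit n → ℕ → MvPolynomial (Fin n) ℂ
  | [], _ => 0
  | g :: P, 0 => g.1.value (value P)
  | _ :: P, k + 1 => value P k

/-- The label of the gate `k` places before the last one (empty if there is none). -/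
def label : Circuit n → ℕ → Finset (Fin n)
  | [], _ => ∅
  | g :: _, 0 => g.2
  | _ :: P, k + 1 => label P k

/-- The labels of the inputs of a gate which comes after the circuit `P`. -/
def inputLabel (P : Circuit n) : Fin n ⊕ ℕ → Finset (Fin n) :=
  Sum.elim (fun i => {i}) (label P)

/-- The label of every gate contains the labels of its inputs. -/
def Labelled : Circuit n → Prop
  | [] => True
  | g :: P => (∀ u ∈ g.1.inputs, inputLabel P u ⊆ g.2) ∧ Labelled P

/-- The weight of a circuit is the sum of the weights of its gates. -/
noncomputable def weight : Circuit n → ℕ
  | [] => 0
  | g :: P => g.1.weight (inputLabel P) g.2 + weight P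

/-- The crossing number of a circuit and a set `B` of variables is the sum of the crossing numbers
of the gates with labels not disjoint from `B`. -/
noncomputable def crossing (B : Finset (Fin n)) : Circuit n → ℕ
  | [] => 0
  | g :: P => (if Disjoint g.2 B then 0 else g.1.crossing (inputLabel P) B) + crossing B P

end Circuit

end Pool.Agent.V8H51.PIT
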