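import Pool.Agent.V8H51.PIT.FmlProof
import Pool.Agent.V8H51.PIT.GrowDefs

/-!
# Circuits of small weight: every block of small weight is simple
-/

set_option autoImplicit false

namespace Pool.Agent.V8H51.PIT

open MvPolynomial Finset

/-- the algebra of polynomials which do not depend on the variables in `B` -/
def inactAlg {n : ℕ} (B : Finset (Fin n)) : Subalgebra ℂ (MvPolynomial (Fin n) ℂ) where
  carrier := {p | Inact B p}
  mul_mem' := fun ha hb => Inact.mul ha hb
  add_mem' := fun ha hb => Inact.add ha hb
  algebraMap_mem' := fun r => Inact.const r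

theorem aeval_mem_of_vars {n : ℕ} {σ : Type} (A : Subalgebra ℂ (MvPolynomial (Fin n) ℂ))
    (f : σ → MvPolynomial (Fin n) ℂ) (G : MvPolynomial σ ℂ) (h : ∀ u ∈ G.vars, f u ∈ A) :
    aeval f G ∈ A := by
  rw [aeval_def, eval₂_eq]
  refine sum_mem fun m hm => mul_mem (A.algebraMap_mem _) (prod_mem fun u hu => pow_mem (h u ?_) _)
  rw [mem_vars_iff_mem_support]
  exact ⟨m, hm, hu⟩

section core

variable {n : ℕ} (B T : Finset (Fin n)) (Qp : Finset (MvPolynomial (Fin n) ℂ))
  (v : ℕ → MvPolynomial (Fin n) ℂ)

theorem fml_core (act : Fin n ⊕ ℕ → Bool) (F : Fml n)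
    (h0 : ∀ u ∈ F.leaves, act u = false → Inact B (Sum.elim X v u))
    (h1 : ∀ u ∈ F.leaves, act u = true → Sum.elim X v u ∈ Adj T Qp) :
    (F.leaves.countP act = 0 → Inact B (F.value v)) ∧
    (F.leaves.countP act ≠ 0 →
      Normal B T Qp (F.value v) (4 * (F.leaves.countP act - 1))) := by
  classical
  have leaf : ∀ (u : Fin n ⊕ ℕ) (q : MvPolynomial (Fin n) ℂ), q = Sum.elim X v u →
      (act u = false → Inact B (Sum.elim X v u)) → (act u = true → Sum.elim X v u ∈ Adj T Qp) →
      ([u].countP act = 0 → Inact B q) ∧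
      ([u].countP act ≠ 0 → Normal B T Qp q (4 * ([u].countP act - 1))) := by
    intro u q hq h0 h1
    cases hu : act u with
    | false =>
      have hc : [u].countP act = 0 := by simp [hu]
      refine ⟨fun _ => ?_, fun h => absurd hc h⟩
      rw [hq]; exact h0 hu
    | true =>
      have hc : [u].countP act = 1 := by simp [hu]
      rw [hc]
      refine ⟨fun h => absurd h one_ne_zero, fun _ => ?_⟩
      exact ⟨1, 0, q, ∅, Inact.const 1 |> fun h => by simpa using h,
        Inact.const 0 |> fun h => by simpa using h, by simp, by simp,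
        Adj_mono (Finset.subset_union_left) (hq ▸ h1 hu), by simp⟩
  induction F with
  | const c =>
    refine ⟨fun _ => Inact.const c, fun h => ?_⟩
    exact absurd (by simp [Fml.leaves]) h
  | var j =>
    exact leaf (Sum.inl j) _ rfl (h0 _ (by simp [Fml.leaves])) (h1 _ (by simp [Fml.leaves]))
  | res k =>
    exact leaf (Sum.inr k) _ rfl (h0 _ (by simp [Fml.leaves])) (h1 _ (by simp [Fml.leaves]))
  | add F G hF hG =>
    have hact : (Fml.add F G).leaves.countP act = F.leaves.countP act + G.leaves.countP act := by
      simp [Fml.leaves, List.countP_append]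
    rw [hact]
    obtain ⟨hF0, hF1⟩ := hF (fun u hu => h0 u (by simp [Fml.leaves, hu]))
      (fun u hu => h1 u (by simp [Fml.leaves, hu]))
    obtain ⟨hG0, hG1⟩ := hG (fun u hu => h0 u (by simp [Fml.leaves, hu]))
      (fun u hu => h1 u (by simp [Fml.leaves, hu]))
    refine ⟨fun h => (hF0 (by omega)).add (hG0 (by omega)), fun h => ?_⟩
    by_cases hF' : F.leaves.countP act = 0
    · obtain ⟨α, β, w, Q, h1, h2, h3, h4, h5, h6⟩ := hG1 (by omega)
      refine ⟨α, F.value v + β, w, Q, h1, (hF0 hF').add h2, h3, by omega, h5, ?_⟩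
      simp only [Fml.value, h6]; ring
    by_cases hG' : G.leaves.countP act = 0
    · obtain ⟨α, β, w, Q, h1, h2, h3, h4, h5, h6⟩ := hF1 (by omega)
      refine ⟨α, β + G.value v, w, Q, h1, h2.add (hG0 hG'), h3, by omega, h5, ?_⟩
      simp only [Fml.value, h6]; ring
    obtain ⟨Q, hQ1, hQ2, hQ3, hQ4⟩ := normal_combine B T Qp (hF1 hF') (hG1 hG')
    refine ⟨1, 0, F.value v + G.value v, Q, Inact.const 1 |> fun h => by simpa using h,
      Inact.const 0 |> fun h => by simpa using h, hQ1, by omega, add_mem hQ3 hQ4, ?_⟩
    simp [Fml.value]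
  | mul F G hF hG =>
    have hact : (Fml.mul F G).leaves.countP act = F.leaves.countP act + G.leaves.countP act := by
      simp [Fml.leaves, List.countP_append]
    rw [hact]
    obtain ⟨hF0, hF1⟩ := hF (fun u hu => h0 u (by simp [Fml.leaves, hu]))
      (fun u hu => h1 u (by simp [Fml.leaves, hu]))
    obtain ⟨hG0, hG1⟩ := hG (fun u hu => h0 u (by simp [Fml.leaves, hu]))
      (fun u hu => h1 u (by simp [Fml.leaves, hu]))
    refine ⟨fun h => (hF0 (by omega)).mul (hG0 (by omega)), fun h => ?_⟩
    by_cases hF' : F.leaves.countP act = 0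
    · obtain ⟨α, β, w, Q, h1, h2, h3, h4, h5, h6⟩ := hG1 (by omega)
      refine ⟨F.value v * α, F.value v * β, w, Q, (hF0 hF').mul h1, (hF0 hF').mul h2, h3,
        by omega, h5, ?_⟩
      simp only [Fml.value, h6]; ring
    by_cases hG' : G.leaves.countP act = 0
    · obtain ⟨α, β, w, Q, h1, h2, h3, h4, h5, h6⟩ := hF1 (by omega)
      refine ⟨G.value v * α, G.value v * β, w, Q, (hG0 hG').mul h1, (hG0 hG').mul h2, h3,
        by omega, h5, ?_⟩
      simp only [Fml.value, h6]; ring
    obtain ⟨Q, hQ1, hQ2, hQ3, hQ4⟩ := normal_combine B T Qp (hF1 hF') (hG1 hG')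
    refine ⟨1, 0, F.value v * G.value v, Q, Inact.const 1 |> fun h => by simpa using h,
      Inact.const 0 |> fun h => by simpa using h, hQ1, by omega, mul_mem hQ3 hQ4, ?_⟩
    simp [Fml.value]

theorem fml_core' (act : Fin n ⊕ ℕ → Bool) (F : Fml n)
    (h0 : ∀ u ∈ F.leaves, act u = false → Inact B (Sum.elim X v u))
    (h1 : ∀ u ∈ F.leaves, act u = true → Sum.elim X v u ∈ Adj T Qp) :
    ∃ Q : Finset (MvPolynomial (Fin n) ℂ), (∀ q ∈ Q, Inact B q) ∧
      Q.card ≤ 4 * F.leaves.countP act + 1 ∧ F.value v ∈ Adj T (Qp ∪ Q) := by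
  classical
  obtain ⟨e0, e1⟩ := fml_core B T Qp v act F h0 h1
  by_cases h : F.leaves.countP act = 0
  · refine ⟨{F.value v}, ?_, by simp, mem_Adj_of_mem (by simp)⟩
    intro q hq
    rw [Finset.mem_singleton] at hq
    rw [hq]
    exact e0 h
  · obtain ⟨α, β, w, Q, h1, h2, h3, h4, h5, h6⟩ := e1 h
    refine ⟨Q ∪ {α, β}, ?_, ?_, ?_⟩
    · intro q hq
      simp only [Finset.mem_union, Finset.mem_insert, Finset.mem_singleton] at hq
      rcases hq with h | h | h
      · exact h3 q h
      · rw [h]; exact h1
      · rw [h]; exact h2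
    · refine (Finset.card_union_le _ _).trans ?_
      have : ({α, β} : Finset (MvPolynomial (Fin n) ℂ)).card ≤ 2 := Finset.card_le_two
      omega
    · rw [h6]
      refine add_mem (mul_mem (mem_Adj_of_mem ?_) (Adj_mono ?_ h5)) (mem_Adj_of_mem ?_)
      · simp
      · intro q hq
        simp only [Finset.mem_union] at hq ⊢
        tauto
      · simp

end core

open Circuit

theorem circuit_core {n : ℕ} (B : Finset (Fin n)) (P : Circuit n) (hP : P.Labelled) :
    ∃ Q : Finset (MvPolynomial (Fin n) ℂ), (∀ q ∈ Q, Inact B q) ∧ Q.card ≤ P.crossing B ∧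
      ∀ k, (Disjoint (P.label k) B → Inact B (P.value k)) ∧
        (¬ Disjoint (P.label k) B → P.value k ∈ Adj B Q) := by
  classical
  induction P with
  | nil =>
    refine ⟨∅, by simp, by simp, fun k => ⟨fun _ => ?_, fun h => ?_⟩⟩
    · have := Inact.const (B := B) (n := n) 0
      simpa [Circuit.value] using this
    · exact absurd (by simp [Circuit.label]) h
  | cons g P ih =>
    obtain ⟨hg, hP'⟩ := hP
    obtain ⟨Q, hQ1, hQ2, hQ3⟩ := ih hP'
    have inp0 : ∀ u, Disjoint (inputLabel P u) B → Inact B (Sum.elim X (Circuit.value P) u) := by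
      intro u hu
      rcases u with i | k
      · simp only [inputLabel, Sum.elim_inl, Finset.disjoint_singleton_left] at hu
        exact Inact.var hu
      · exact (hQ3 k).1 hu
    have inp1 : ∀ u, ¬ Disjoint (inputLabel P u) B → Sum.elim X (Circuit.value P) u ∈ Adj B Q := by
      intro u hu
      rcases u with i | k
      · simp only [inputLabel, Sum.elim_inl, Finset.disjoint_singleton_left, not_not] at hu
        exact X_mem_Adj hu
      · exact (hQ3 k).2 hu
    obtain ⟨g, S⟩ := g
    simp only at hg
    by_cases hS : Disjoint S B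
    · refine ⟨Q, hQ1, ?_, ?_⟩
      · simpa only [crossing, hS, if_true, zero_add] using hQ2
      · intro k
        rcases k with _ | k
        · refine ⟨fun _ => ?_, fun h => absurd hS h⟩
          have hin : ∀ u ∈ g.inputs, Disjoint (inputLabel P u) B := fun u hu =>
            Finset.disjoint_of_subset_left (hg u hu) hS
          rcases g with G | F
          · refine aeval_mem_of_vars (inactAlg B) _ G fun u hu => inp0 u (hin u ?_)
            simpa [Gate.inputs] using hu
          · have h2 := (fml_core B B Q (Circuit.value P) (fun _ => false) F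
              (fun u hu _ => inp0 u (hin u hu)) (fun u hu h => by simp at h)).1
            exact h2 (by simp)
        · exact hQ3 k
    · have key : ∃ Q' : Finset (MvPolynomial (Fin n) ℂ), (∀ q ∈ Q', Inact B q) ∧
          Q'.card ≤ g.crossing (inputLabel P) B ∧ g.value (Circuit.value P) ∈ Adj B (Q ∪ Q') := by
        rcases g with G | F
        · refine ⟨(G.vars.filter fun u => Disjoint (inputLabel P u) B).image
            (Sum.elim X (Circuit.value P)), ?_, ?_, ?_⟩
          · intro q hq
            obtain ⟨u, hu, rfl⟩ := Finset.mem_image.1 hq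
            exact inp0 u (Finset.mem_filter.1 hu).2
          · exact Finset.card_image_le
          · refine aeval_mem_of_vars _ _ G fun u hu => ?_
            by_cases h : Disjoint (inputLabel P u) B
            · refine mem_Adj_of_mem (Finset.mem_union_right _ (Finset.mem_image_of_mem _ ?_))
              rw [Finset.mem_filter]
              exact ⟨hu, h⟩
            · exact Adj_mono Finset.subset_union_left (inp1 u h)
        · obtain ⟨Q', h1, h2, h3⟩ := fml_core' B B Q (Circuit.value P)
            (fun u => decide (¬ Disjoint (inputLabel P u) B)) F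
            (fun u _ hu => inp0 u (by simpa using hu))
            (fun u _ hu => inp1 u (by simpa using hu))
          exact ⟨Q', h1, h2, h3⟩
      obtain ⟨Q', h1, h2, h3⟩ := key
      refine ⟨Q ∪ Q', ?_, ?_, ?_⟩
      · intro q hq
        rcases Finset.mem_union.1 hq with h | h
        · exact hQ1 q h
        · exact h1 q h
      · refine (Finset.card_union_le _ _).trans ?_
        simp only [crossing, hS, if_false]
        omega
      · intro k
        rcases k with _ | k
        · exact ⟨fun h => absurd h hS, fun _ => h3⟩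
        · refine ⟨(hQ3 k).1, fun h => Adj_mono Finset.subset_union_left ((hQ3 k).2 h)⟩

/-- results of circuits are simple -/
theorem circuit_simple {n : ℕ} (B : Finset (Fin n)) (P : Circuit n) (hP : P.Labelled) {N : ℕ}
    (hN : P.crossing B + B.card ≤ N) (h1 : 1 ≤ N) : FamSimple (P.value 0) B N := by
  obtain ⟨Q, hQ1, hQ2, hQ3⟩ := circuit_core B P hP
  by_cases h : Disjoint (P.label 0) B
  · refine famSimple_of_adjoin _ B ∅ (by simp) {P.value 0} (by simpa using h1) ?_ ?_
    · intro q hq
      rw [Finset.mem_singleton] at hq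
      rw [hq]
      exact (hQ3 0).1 h
    · exact Algebra.subset_adjoin (by simp)
  · exact famSimple_of_adjoin _ B B subset_rfl Q (by omega) hQ1 ((hQ3 0).2 h)

/-! ### Weights -/

/-- the part of the weight of a gate which belongs to the variable `x_i` -/
noncomputable def Gate.cost {n : ℕ} (L : Fin n ⊕ ℕ → Finset (Fin n)) (S : Finset (Fin n))
    (i : Fin n) : Gate n → ℕ
  | poly G => (G.vars.filter fun u => i ∈ S \ L u).card
  | formula F => (if i ∈ S then 1 else 0) + F.leaves.countP fun u => i ∈ L u

/-- the part of the weight of a circuit which belongs to the variable `x_i` -/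
noncomputable def Circuit.cost {n : ℕ} (i : Fin n) : Circuit n → ℕ
  | [] => 0
  | g :: P => g.1.cost (inputLabel P) g.2 i + Circuit.cost i P

theorem sum_countP_mem {n : ℕ} (B : Finset (Fin n)) (L : Fin n ⊕ ℕ → Finset (Fin n))
    (l : List (Fin n ⊕ ℕ)) :
    ∑ i ∈ B, l.countP (fun u => i ∈ L u) = (l.map fun u => (L u ∩ B).card).sum := by
  classical
  induction l with
  | nil => simp
  | cons u l ih =>
    simp only [List.countP_cons, List.map_cons, List.sum_cons, Finset.sum_add_distrib, ih]
    rw [add_comm]
    congr 1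
    rw [Finset.inter_comm, ← Finset.filter_mem_eq_inter, Finset.card_filter]
    simp

theorem Gate.sum_cost {n : ℕ} (L : Fin n ⊕ ℕ → Finset (Fin n)) (S : Finset (Fin n)) (g : Gate n) :
    ∑ i, g.cost L S i = g.weight L S := by
  classical
  rcases g with G | F
  · simp only [Gate.cost, Gate.weight]
    simp only [Finset.card_filter]
    rw [Finset.sum_comm]
    refine Finset.sum_congr rfl fun u _ => ?_
    rw [← Finset.card_filter]
    congr 1
    ext i
    simp
  · simp only [Gate.cost, Gate.weight, Finset.sum_add_distrib]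
    congr 1
    · rw [← Finset.card_filter]
      congr 1
      ext i; simp
    · rw [sum_countP_mem]
      simp

theorem Circuit.sum_cost {n : ℕ} (P : Circuit n) : ∑ i, P.cost i = P.weight := by
  induction P with
  | nil => simp [Circuit.cost, Circuit.weight]
  | cons g P ih =>
    simp only [Circuit.cost, Circuit.weight, Finset.sum_add_distrib, ih, Gate.sum_cost]

theorem Gate.crossing_le {n : ℕ} (L : Fin n ⊕ ℕ → Finset (Fin n)) (S B : Finset (Fin n))
    (g : Gate n) (hS : ¬ Disjoint S B) : g.crossing L B ≤ 4 * ∑ i ∈ B, g.cost L S i := by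
  classical
  obtain ⟨i, hiS, hiB⟩ := Finset.not_disjoint_iff.1 hS
  rcases g with G | F
  · have h1 : (Gate.poly G).cost L S i ≤ ∑ i ∈ B, (Gate.poly G).cost L S i :=
      Finset.single_le_sum (f := fun i => (Gate.poly G).cost L S i) (fun _ _ => Nat.zero_le _) hiB
    have h2 : (Gate.poly G).crossing L B ≤ (Gate.poly G).cost L S i := by
      simp only [Gate.crossing, Gate.cost]
      refine Finset.card_le_card fun u hu => ?_
      rw [Finset.mem_filter] at hu ⊢
      refine ⟨hu.1, Finset.mem_sdiff.2 ⟨hiS, fun h => ?_⟩⟩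
      exact (Finset.disjoint_left.1 hu.2 h) hiB
    omega
  · have h1 : 1 ≤ ∑ i ∈ B, (if i ∈ S then 1 else 0 : ℕ) := by
      have : (if i ∈ S then 1 else 0 : ℕ) ≤ ∑ i ∈ B, (if i ∈ S then 1 else 0 : ℕ) :=
        Finset.single_le_sum (f := fun i => (if i ∈ S then 1 else 0 : ℕ))
          (fun _ _ => Nat.zero_le _) hiB
      simpa [hiS] using this
    have h2 : F.leaves.countP (fun u => ¬ Disjoint (L u) B) ≤
        ∑ i ∈ B, F.leaves.countP fun u => i ∈ L u := by
      rw [sum_countP_mem]
      induction F.leaves with
      | nil => simp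
      | cons u l ih =>
        simp only [List.countP_cons, List.map_cons, List.sum_cons]
        rw [add_comm]
        refine add_le_add ?_ ih
        by_cases h : Disjoint (L u) B
        · simp [h]
        · simp only [h, not_false_eq_true, decide_true, if_true]
          rw [Nat.one_le_iff_ne_zero, Finset.card_ne_zero]
          exact Finset.not_disjoint_iff_nonempty_inter.1 h
    simp only [Gate.crossing, Gate.cost, Finset.sum_add_distrib]
    omega

theorem Circuit.crossing_le {n : ℕ} (B : Finset (Fin n)) (P : Circuit n) :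
    P.crossing B ≤ 4 * ∑ i ∈ B, P.cost i := by
  induction P with
  | nil => simp [Circuit.crossing]
  | cons g P ih =>
    simp only [Circuit.crossing, Circuit.cost, Finset.sum_add_distrib]
    by_cases h : Disjoint g.2 B
    · simp only [h, if_true]
      omega
    · simp only [h, if_false]
      have := Gate.crossing_le (inputLabel P) g.2 B g.1 h
      omega

/-- every circuit has a partition of the variables into few intervals of small crossing number -/
theorem Circuit.exists_partition {n W r b : ℕ} (hr : 0 < r) (hb : 2 * ((n + W) / r) ≤ b)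
    (P : Circuit n) (hW : P.weight ≤ W) :
    ∃ a : Fin b → Fin (n + 1), ∀ j,
      P.crossing (block (interval a) j) + (block (interval a) j).card ≤ 4 * r ∨
      (block (interval a) j).card ≤ 1 := by
  obtain ⟨a, ha⟩ := PIT.exists_partition (s := n + W) hr b hb (fun i => 1 + P.cost i) (by
    rw [Finset.sum_add_distrib, P.sum_cost]
    simp only [Finset.sum_const, Finset.card_univ, Fintype.card_fin, smul_eq_mul, mul_one]
    omega)
  refine ⟨a, fun j => (ha j).imp (fun h => ?_) id⟩
  rw [Finset.sum_add_distrib, ← Finset.card_eq_sum_ones] at h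
  have := P.crossing_le (block (interval a) j)
  omega

end Pool.Agent.V8H51.PIT
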