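import Pool.Agent.V8H51.PIT.DetGate
import Pool.Agent.V8H51.PIT.GrowProof

/-!
# Circuits with determinant gates: every block of small weight is simple
-/

set_option autoImplicit false

namespace Pool.Agent.V8H51.PIT

open MvPolynomial Finset

theorem famSub_X {n M : ℕ} (B : Finset (Fin n)) (p : Fin n → MvPolynomial (Fin M) ℂ) (i : Fin n) :
    famSub B p (X i) = if i ∈ B then X (Sum.inr i) else emb n M (p i) := by
  simp [famSub]

theorem aeval_mem_of_vars' {τ σ : Type} (A : Subalgebra ℂ (MvPolynomial τ ℂ))
    (f : σ → MvPolynomial τ ℂ) (G : MvPolynomial σ ℂ) (h : ∀ u ∈ G.vars, f u ∈ A) :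
    aeval f G ∈ A := by
  rw [aeval_def, eval₂_eq]
  refine sum_mem fun m hm => mul_mem (A.algebraMap_mem _) (prod_mem fun u hu => pow_mem (h u ?_) _)
  rw [mem_vars_iff_mem_support]
  exact ⟨m, hm, hu⟩

theorem famSub_aeval {n M : ℕ} {σ : Type} (B : Finset (Fin n)) (p : Fin n → MvPolynomial (Fin M) ℂ)
    (f : σ → MvPolynomial (Fin n) ℂ) (G : MvPolynomial σ ℂ) :
    famSub B p (aeval f G) = aeval (fun u => famSub B p (f u)) G := by
  induction G using MvPolynomial.induction_on with
  | C c => simp
  | add a b ha hb => simp only [map_add, ha, hb]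
  | mul_X a u ha => simp only [map_mul, aeval_X, ha]

theorem famSub_det {n M : ℕ} {σ : Type} (B : Finset (Fin n)) (p : Fin n → MvPolynomial (Fin M) ℂ)
    {N : ℕ} (A₀ : Matrix (Fin N) (Fin N) ℂ) (U : Finset σ) (A : σ → Matrix (Fin N) (Fin N) ℂ)
    (w : σ → MvPolynomial (Fin n) ℂ) :
    famSub B p (A₀.map C + ∑ u ∈ U, w u • (A u).map C).det =
      (A₀.map C + ∑ u ∈ U, famSub B p (w u) • (A u).map C).det := by
  have h1 : famSub B p (A₀.map C + ∑ u ∈ U, w u • (A u).map C).det =
      ((A₀.map C + ∑ u ∈ U, w u • (A u).map C : Matrix (Fin N) (Fin N) (MvPolynomial (Fin n) ℂ)).map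
        (famSub B p)).det := (famSub B p).toRingHom.map_det _
  rw [h1]
  congr 1
  refine Matrix.ext fun i j => ?_
  have hC : ∀ c : ℂ, famSub B p (C c) = C c := fun c => by simp [famSub]
  simp only [Matrix.map_apply, Matrix.add_apply, Matrix.sum_apply, Matrix.smul_apply, smul_eq_mul,
    map_add, map_sum, map_mul, hC]

theorem C_mem_subalgebra {τ : Type} (A : Subalgebra ℂ (MvPolynomial τ ℂ)) (c : ℂ) : C c ∈ A :=
  A.algebraMap_mem c

theorem det_affine_mem {τ σ : Type} (S : Subalgebra ℂ (MvPolynomial τ ℂ)) {N : ℕ}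
    (A₀ : Matrix (Fin N) (Fin N) ℂ) (U : Finset σ) (A : σ → Matrix (Fin N) (Fin N) ℂ)
    (w : σ → MvPolynomial τ ℂ) (hw : ∀ u ∈ U, w u ∈ S) :
    (A₀.map C + ∑ u ∈ U, w u • (A u).map C).det ∈ S := by
  refine det_mem _ _ fun i j => ?_
  simp only [Matrix.add_apply, Matrix.sum_apply, Matrix.smul_apply, Matrix.map_apply,
    smul_eq_mul]
  exact add_mem (C_mem_subalgebra S _) (sum_mem fun u hu => mul_mem (hw u hu)
    (C_mem_subalgebra S _))

theorem detCircuit_core {n M : ℕ} (B : Finset (Fin n)) (p : Fin n → MvPolynomial (Fin M) ℂ)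
    (P : DetCircuit n) (hP : P.Labelled) :
    ∃ Q : Finset (MvPolynomial (Fin M) ℂ), Q.card ≤ P.crossing B ∧
      ∀ k, (Disjoint (P.label k) B → famSub B p (P.value k) ∈ (emb n M).range) ∧
        (¬ Disjoint (P.label k) B → famSub B p (P.value k) ∈ loc B Q) := by
  classical
  induction P with
  | nil =>
    refine ⟨∅, by simp, fun k => ⟨fun _ => ?_, fun h => ?_⟩⟩
    · simp only [DetCircuit.value, map_zero]
      exact zero_mem _
    · exact absurd (by simp [DetCircuit.label]) h
  | cons g P ih =>
    obtain ⟨hg, hP'⟩ := hP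
    obtain ⟨Q, hQ2, hQ3⟩ := ih hP'
    have inp0 : ∀ u, Disjoint (DetCircuit.inputLabel P u) B →
        famSub B p (Sum.elim X (DetCircuit.value P) u) ∈ (emb n M).range := by
      intro u hu
      rcases u with i | k
      · simp only [DetCircuit.inputLabel, Sum.elim_inl, Finset.disjoint_singleton_left] at hu
        rw [Sum.elim_inl, famSub_X, if_neg hu]
        exact ⟨p i, rfl⟩
      · exact (hQ3 k).1 hu
    have inp1 : ∀ u, ¬ Disjoint (DetCircuit.inputLabel P u) B →
        famSub B p (Sum.elim X (DetCircuit.value P) u) ∈ loc B Q := by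
      intro u hu
      rcases u with i | k
      · simp only [DetCircuit.inputLabel, Sum.elim_inl, Finset.disjoint_singleton_left, not_not]
          at hu
        rw [Sum.elim_inl, famSub_X, if_pos hu]
        exact X_mem_loc B hu
      · exact (hQ3 k).2 hu
    obtain ⟨g, S⟩ := g
    simp only at hg
    by_cases hS : Disjoint S B
    · refine ⟨Q, ?_, ?_⟩
      · simpa only [DetCircuit.crossing, hS, if_true, zero_add] using hQ2
      · intro k
        rcases k with _ | k
        · refine ⟨fun _ => ?_, fun h => absurd hS h⟩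
          have hin : ∀ u ∈ g.inputs, Disjoint (DetCircuit.inputLabel P u) B := fun u hu =>
            Finset.disjoint_of_subset_left (hg u hu) hS
          rcases g with G | ⟨N, A₀, U, A⟩
          · simp only [DetCircuit.value, DetGate.value]
            rw [famSub_aeval]
            exact aeval_mem_of_vars' _ _ G fun u hu => inp0 u (hin u hu)
          · simp only [DetCircuit.value, DetGate.value]
            rw [famSub_det]
            exact det_affine_mem _ A₀ U A _ fun u hu => inp0 u (hin u hu)
        · exact hQ3 k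
    · have key : ∃ Q' : Finset (MvPolynomial (Fin M) ℂ),
          Q'.card ≤ g.crossing (DetCircuit.inputLabel P) B ∧
          famSub B p (g.value (DetCircuit.value P)) ∈ loc B (Q ∪ Q') := by
        rcases g with G | ⟨N, A₀, U, A⟩
        · have hr : ∀ u, ∃ r : MvPolynomial (Fin M) ℂ, Disjoint (DetCircuit.inputLabel P u) B →
              emb n M r = famSub B p (Sum.elim X (DetCircuit.value P) u) := by
            intro u
            by_cases h : Disjoint (DetCircuit.inputLabel P u) B
            · obtain ⟨r, hr⟩ := inp0 u h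
              exact ⟨r, fun _ => hr⟩
            · exact ⟨0, fun h2 => absurd h2 h⟩
          choose r hr using hr
          refine ⟨(G.vars.filter fun u => Disjoint (DetCircuit.inputLabel P u) B).image r,
            Finset.card_image_le, ?_⟩
          simp only [DetGate.value]
          rw [famSub_aeval]
          refine aeval_mem_of_vars' _ _ G fun u hu => ?_
          by_cases h : Disjoint (DetCircuit.inputLabel P u) B
          · rw [← hr u h]
            refine emb_mem_loc B (Finset.mem_union_right _ (Finset.mem_image_of_mem _ ?_))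
            rw [Finset.mem_filter]
            exact ⟨hu, h⟩
          · exact loc_mono B Finset.subset_union_left (inp1 u h)
        · obtain ⟨Q', h1, h2⟩ := det_gate B A₀ U A
            (fun u => famSub B p (Sum.elim X (DetCircuit.value P) u))
            (fun u => ¬ Disjoint (DetCircuit.inputLabel P u) B) Q
            (fun u _ hu => inp0 u (not_not.1 hu)) (fun u _ hu => inp1 u hu)
          refine ⟨Q', h1, ?_⟩
          simp only [DetGate.value]
          rw [famSub_det]
          exact h2
      obtain ⟨Q', h2, h3⟩ := key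
      refine ⟨Q ∪ Q', ?_, ?_⟩
      · refine (Finset.card_union_le _ _).trans ?_
        simp only [DetCircuit.crossing, hS, if_false]
        omega
      · intro k
        rcases k with _ | k
        · exact ⟨fun h => absurd h hS, fun _ => h3⟩
        · exact ⟨(hQ3 k).1, fun h => loc_mono B Finset.subset_union_left ((hQ3 k).2 h)⟩

/-- polynomials which do not depend on `B` on families are simple -/
theorem famSimple_of_range {n : ℕ} (f : MvPolynomial (Fin n) ℂ) (B : Finset (Fin n))
    (H : ∀ (M : ℕ) (p : Fin n → MvPolynomial (Fin M) ℂ), famSub B p f ∈ (emb n M).range) {N : ℕ}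
    (hN : 1 ≤ N) : FamSimple f B N := by
  intro M p hne
  obtain ⟨r, hr⟩ := H M p
  have hev : ∀ (x : Fin M → ℂ) (t : Fin n → ℂ),
      eval x r = eval (mix B t fun i => eval x (p i)) f := by
    intro x t
    rw [← eval_famSub, ← hr]
    change _ = eval (Sum.elim x t) (emb n M r)
    rw [eval_rename]
    rfl
  obtain ⟨x0, t0, h0⟩ := hne
  refine ⟨1, 0, fun a => a.elim0, fun _ => r, X (Sum.inl 0), by omega,
    fun a => a.elim0, fun a => a.elim0, ?_, ?_⟩
  · refine ⟨x0, t0, ?_⟩
    rw [eval_X, Sum.elim_inl, hev x0 t0]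
    exact h0
  · intro x t hx
    rw [eval_X, Sum.elim_inl, hev x t] at hx
    exact hx

/-- results of circuits are simple -/
theorem detCircuit_simple {n : ℕ} (B : Finset (Fin n)) (P : DetCircuit n) (hP : P.Labelled) {N : ℕ}
    (hN : P.crossing B + B.card ≤ N) (h1 : 1 ≤ N) : FamSimple (P.value 0) B N := by
  classical
  by_cases h : Disjoint (P.label 0) B
  · refine famSimple_of_range _ B (fun M p => ?_) h1
    obtain ⟨Q, hQ2, hQ3⟩ := detCircuit_core B p P hP
    exact (hQ3 0).1 h
  · refine famSimple_of_loc _ B fun M p => ?_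
    obtain ⟨Q, hQ2, hQ3⟩ := detCircuit_core B p P hP
    exact ⟨Q, by omega, (hQ3 0).2 h⟩

end Pool.Agent.V8H51.PIT
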