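import Pool.Agent.V8H51.PIT.Fam

/-!
# Circuits with polynomial gates and determinant gates
-/

set_option autoImplicit false

namespace Pool.Agent.V8H51.PIT

open MvPolynomial

/-- A gate is an arbitrary polynomial of variables and results of earlier gates (`inl i` is the
variable `x_i`, `inr k` the result of the gate `k + 1` places earlier), or a symbolic determinant:
the determinant of `A₀ + ∑ u, u • A u`, where `u` runs through a finite set `U` of variables and
results of earlier gates and `A₀` and the `A u` are complex matrices of order `N`. -/
inductive DetGate (n : ℕ) : Type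
  | poly (G : MvPolynomial (Fin n ⊕ ℕ) ℂ)
  | det (N : ℕ) (A₀ : Matrix (Fin N) (Fin N) ℂ) (U : Finset (Fin n ⊕ ℕ))
      (A : Fin n ⊕ ℕ → Matrix (Fin N) (Fin N) ℂ)

/-- The rank of the matrix which consists of the matrices `A u`, `u ∈ V`, written side by side: the
dimension of the sum of their column spaces. -/
noncomputable def colRank {σ : Type} {N : ℕ} (V : Finset σ) (A : σ → Matrix (Fin N) (Fin N) ℂ) :
    ℕ :=
  (Matrix.of fun i (p : {u // u ∈ V} × Fin N) => A p.1 i p.2).rank

/-- The rank of the matrix which consists of the matrices `A u`, `u ∈ V`, written one below the
other: the dimension of the sum of their row spaces. -/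
noncomputable def rowRank {σ : Type} {N : ℕ} (V : Finset σ) (A : σ → Matrix (Fin N) (Fin N) ℂ) :
    ℕ :=
  (Matrix.of fun (p : {u // u ∈ V} × Fin N) j => A p.1 p.2 j).rank

namespace DetGate

variable {n : ℕ}

/-- The polynomial computed by a gate, if `v k` is the result of the gate `k + 1` places earlier. -/
noncomputable def value (v : ℕ → MvPolynomial (Fin n) ℂ) : DetGate n → MvPolynomial (Fin n) ℂ
  | poly G => aeval (Sum.elim X v) G
  | det _ A₀ U A => (A₀.map C + ∑ u ∈ U, (Sum.elim X v u : MvPolynomial (Fin n) ℂ) •
      (A u).map C).det

/-- The inputs of a gate. -/
noncomputable def inputs : DetGate n → Finset (Fin n ⊕ ℕ)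
  | poly G => G.vars
  | det _ _ U _ => U

/-- The weight of a gate with the label `S`, if `L u` is the label of its input `u`. -/
noncomputable def weight (L : Fin n ⊕ ℕ → Finset (Fin n)) (S : Finset (Fin n)) : DetGate n → ℕ
  | poly G => ∑ u ∈ G.vars, (S \ L u).card
  | det _ _ U A => S.card + ∑ u ∈ U, (A u).rank * (L u).card

/-- The crossing number of a gate and a set `B` of variables, if `L u` is the label of its input
`u`: the number of inputs with labels disjoint from `B` in the first case, and one plus the product
of the joint ranks of the coefficients of the inputs with labels not disjoint from `B` in the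
second. -/
noncomputable def crossing (L : Fin n ⊕ ℕ → Finset (Fin n)) (B : Finset (Fin n)) : DetGate n → ℕ
  | poly G => (G.vars.filter fun u => Disjoint (L u) B).card
  | det _ _ U A => colRank (U.filter fun u => ¬ Disjoint (L u) B) A *
      rowRank (U.filter fun u => ¬ Disjoint (L u) B) A + 1

end DetGate

/-- A circuit is a list of gates with labels, which are sets of variables. The list begins with the
last gate. -/
abbrev DetCircuit (n : ℕ) := List (DetGate n × Finset (Fin n))

namespace DetCircuit

variable {n : ℕ}

/-- The result of the gate `k` places before the last one (`0` if there is none). -/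
noncomputable def value : DetCircuit n → ℕ → MvPolynomial (Fin n) ℂ
  | [], _ => 0
  | g :: P, 0 => g.1.value (value P)
  | _ :: P, k + 1 => value P k

/-- The label of the gate `k` places before the last one (empty if there is none). -/
def label : DetCircuit n → ℕ → Finset (Fin n)
  | [], _ => ∅
  | g :: _, 0 => g.2
  | _ :: P, k + 1 => label P k

/-- The labels of the inputs of a gate which comes after the circuit `P`. -/
def inputLabel (P : DetCircuit n) : Fin n ⊕ ℕ → Finset (Fin n) :=
  Sum.elim (fun i => {i}) (label P)

/-- The label of every gate contains the labels of its inputs. -/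
def Labelled : DetCircuit n → Prop
  | [] => True
  | g :: P => (∀ u ∈ g.1.inputs, inputLabel P u ⊆ g.2) ∧ Labelled P

/-- The weight of a circuit is the sum of the weights of its gates. -/
noncomputable def weight : DetCircuit n → ℕ
  | [] => 0
  | g :: P => g.1.weight (inputLabel P) g.2 + weight P

/-- The crossing number of a circuit and a set `B` of variables is the sum of the crossing numbers
of the gates with labels not disjoint from `B`. -/
noncomputable def crossing (B : Finset (Fin n)) : DetCircuit n → ℕ
  | [] => 0
  | g :: P => (if Disjoint g.2 B then 0 else g.1.crossing (inputLabel P) B) + crossing B P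

end DetCircuit

end Pool.Agent.V8H51.PIT
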