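import Pool.Agent.V8H51.PIT.Loc
import Pool.Agent.V8H51.PIT.DetDefs

/-!
# Determinant gates
-/

set_option autoImplicit false

namespace Pool.Agent.V8H51.PIT

open MvPolynomial Finset
open scoped Matrix

/-! ### Joint rank factorisations -/

theorem exists_left_factor {m p : Type*} [Fintype m] [DecidableEq m] [Fintype p] [DecidableEq p]
    (H : Matrix m p ℂ) :
    ∃ (U : Matrix m (Fin H.rank) ℂ) (P : Matrix (Fin H.rank) m ℂ), U * P * H = H := by
  let W := LinearMap.range H.mulVecLin
  let b : Module.Basis (Fin H.rank) ℂ W := Module.finBasisOfFinrankEq ℂ _ rfl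
  obtain ⟨π, hπ⟩ := LinearMap.exists_leftInverse_of_injective W.subtype W.ker_subtype
  refine ⟨LinearMap.toMatrix' (W.subtype ∘ₗ b.equivFun.symm.toLinearMap),
    LinearMap.toMatrix' (b.equivFun.toLinearMap ∘ₗ π), ?_⟩
  apply Matrix.toLin'.injective
  rw [Matrix.toLin'_mul, Matrix.toLin'_mul, Matrix.toLin'_toMatrix', Matrix.toLin'_toMatrix']
  refine LinearMap.ext fun v => ?_
  simp only [LinearMap.comp_apply, LinearEquiv.coe_coe, LinearEquiv.symm_apply_apply]
  have h1 : (Matrix.toLin' H) v ∈ W := ⟨v, rfl⟩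
  have h2 := LinearMap.congr_fun hπ ⟨_, h1⟩
  simp only [LinearMap.comp_apply, Submodule.subtype_apply, LinearMap.id_apply] at h2
  rw [h2]
  rfl

theorem exists_joint_factor {σ : Type} [DecidableEq σ] {N : ℕ} (V : Finset σ)
    (A : σ → Matrix (Fin N) (Fin N) ℂ) :
    ∃ (r₁ r₂ : ℕ) (U : Matrix (Fin N) (Fin r₁) ℂ) (W : Matrix (Fin r₂) (Fin N) ℂ)
      (D : σ → Matrix (Fin r₁) (Fin r₂) ℂ), r₁ = colRank V A ∧ r₂ = rowRank V A ∧
      ∀ u ∈ V, A u = U * D u * W := by
  let H : Matrix (Fin N) ({u // u ∈ V} × Fin N) ℂ := Matrix.of fun i p => A p.1 i p.2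
  let G : Matrix ({u // u ∈ V} × Fin N) (Fin N) ℂ := Matrix.of fun p j => A p.1 p.2 j
  obtain ⟨U, P, hUP⟩ := exists_left_factor H
  obtain ⟨U', P', hUP'⟩ := exists_left_factor Gᵀ
  refine ⟨H.rank, Gᵀ.rank, U, U'ᵀ, fun u => P * A u * P'ᵀ, rfl, ?_, fun u hu => ?_⟩
  · rw [Matrix.rank_transpose]
    rfl
  · have h1 : U * P * A u = A u := by
      ext i j
      have h := congrFun (congrFun hUP i) (⟨u, hu⟩, j)
      simpa [Matrix.mul_apply, H] using h
    have h2 : A u * (P'ᵀ * U'ᵀ) = A u := by
      have h3 : G * (P'ᵀ * U'ᵀ) = G := by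
        have := congrArg Matrix.transpose hUP'
        simpa [Matrix.transpose_mul] using this
      ext i j
      have h := congrFun (congrFun h3 (⟨u, hu⟩, i)) j
      simpa [Matrix.mul_apply, G] using h
    calc A u = U * P * (A u * (P'ᵀ * U'ᵀ)) := by rw [h2, h1]
      _ = U * (P * A u * P'ᵀ) * U'ᵀ := by simp only [Matrix.mul_assoc]

/-! ### The determinant identity -/

theorem det_field {F : Type*} [Field F] {m a b : Type*} [Fintype m] [DecidableEq m] [Fintype a]
    [DecidableEq a] [Fintype b] [DecidableEq b] (E : Matrix m m F) (U : Matrix m a F)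
    (Y : Matrix a b F) (V : Matrix b m F) (hE : E.det ≠ 0) :
    E.det ^ Fintype.card a * (E + U * (Y * V)).det =
      E.det * (E.det • (1 : Matrix a a F) + Y * (V * E.adjugate * U)).det := by
  have hu : IsUnit E.det := isUnit_iff_ne_zero.2 hE
  rw [Matrix.det_add_mul _ _ hu]
  have h4 : E.adjugate = E.det • E⁻¹ := by
    rw [Matrix.inv_def, smul_smul, Ring.mul_inverse_cancel _ hu, one_smul]
  have h5 : E.det • (1 : Matrix a a F) + Y * (V * E.adjugate * U) =
      E.det • (1 + Y * V * E⁻¹ * U) := by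
    rw [h4, smul_add]
    congr 1
    simp only [Matrix.mul_smul, Matrix.smul_mul, Matrix.mul_assoc]
  rw [h5, Matrix.det_smul]
  ring

theorem det_domain {S : Type*} [CommRing S] [IsDomain S] {m a b : Type*} [Fintype m]
    [DecidableEq m] [Fintype a] [DecidableEq a] [Fintype b] [DecidableEq b] (E : Matrix m m S)
    (U : Matrix m a S) (Y : Matrix a b S) (V : Matrix b m S) (hE : E.det ≠ 0) :
    E.det ^ Fintype.card a * (E + U * (Y * V)).det =
      E.det * (E.det • (1 : Matrix a a S) + Y * (V * E.adjugate * U)).det := by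
  let φ : S →+* FractionRing S := algebraMap S (FractionRing S)
  have hφ : Function.Injective φ := IsFractionRing.injective S (FractionRing S)
  apply hφ
  have hE' : (E.map φ).det ≠ 0 := by
    rw [← RingHom.mapMatrix_apply, ← RingHom.map_det]
    intro h
    exact hE (hφ (by rw [h, map_zero]))
  have key := det_field (E.map φ) (U.map φ) (Y.map φ) (V.map φ) hE'
  have e1 : (E + U * (Y * V)).map φ = E.map φ + U.map φ * (Y.map φ * V.map φ) := by
    rw [Matrix.map_add _ (map_add φ), Matrix.map_mul, Matrix.map_mul]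
  have e2 : (E.det • (1 : Matrix a a S) + Y * (V * E.adjugate * U)).map φ =
      (E.map φ).det • (1 : Matrix a a (FractionRing S)) +
        Y.map φ * (V.map φ * (E.map φ).adjugate * U.map φ) := by
    have h2 : E.adjugate.map φ = (E.map φ).adjugate := RingHom.map_adjugate φ E
    have h3 : φ E.det = (E.map φ).det := RingHom.map_det φ E
    rw [Matrix.map_add _ (map_add φ), Matrix.map_mul, Matrix.map_mul, Matrix.map_mul, h2]
    congr 1
    ext i j
    simp only [Matrix.map_apply, Matrix.smul_apply, smul_eq_mul, map_mul, h3, Matrix.one_apply]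
    split_ifs <;> simp
  rw [map_mul, map_mul, map_pow, RingHom.map_det, RingHom.map_det, RingHom.map_det,
    RingHom.mapMatrix_apply, RingHom.mapMatrix_apply, RingHom.mapMatrix_apply, e1, e2]
  exact key

theorem det_mem {R S k : Type*} [CommRing R] [CommRing S] [Algebra R S] [Fintype k]
    [DecidableEq k] (A : Subalgebra R S) (X : Matrix k k S) (h : ∀ i j, X i j ∈ A) :
    X.det ∈ A := by
  rw [Matrix.det_apply]
  refine sum_mem fun σ _ => ?_
  rw [Units.smul_def]
  exact zsmul_mem (prod_mem fun i _ => h _ _) _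

theorem eval_det_affine {σ τ : Type} {N : ℕ} (A₀ : Matrix (Fin N) (Fin N) ℂ) (U : Finset σ)
    (A : σ → Matrix (Fin N) (Fin N) ℂ) (w : σ → MvPolynomial τ ℂ) (y : τ → ℂ) :
    eval y (A₀.map C + ∑ u ∈ U, w u • (A u).map C).det =
      (A₀ + ∑ u ∈ U, eval y (w u) • A u).det := by
  rw [RingHom.map_det]
  congr 1
  ext i j
  simp [Matrix.sum_apply]

theorem det_gate {n M : ℕ} (B : Finset (Fin n)) {σ : Type} [DecidableEq σ] {N : ℕ}
    (A₀ : Matrix (Fin N) (Fin N) ℂ) (U : Finset σ) (A : σ → Matrix (Fin N) (Fin N) ℂ)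
    (w : σ → MvPolynomial (Fin M ⊕ Fin n) ℂ) (act : σ → Prop) [DecidablePred act]
    (Q : Finset (MvPolynomial (Fin M) ℂ)) (h0 : ∀ u ∈ U, ¬ act u → w u ∈ (emb n M).range)
    (h1 : ∀ u ∈ U, act u → w u ∈ loc B Q) :
    ∃ Q' : Finset (MvPolynomial (Fin M) ℂ),
      Q'.card ≤ colRank (U.filter act) A * rowRank (U.filter act) A + 1 ∧
      ((A₀.map C + ∑ u ∈ U, w u • (A u).map C).det : MvPolynomial (Fin M ⊕ Fin n) ℂ) ∈
        loc B (Q ∪ Q') := by
  classical
  obtain ⟨r, hr⟩ : ∃ r : σ → MvPolynomial (Fin M) ℂ, ∀ u ∈ U, ¬ act u → emb n M (r u) = w u := by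
    have : ∀ u, ∃ r : MvPolynomial (Fin M) ℂ, u ∈ U → ¬ act u → emb n M r = w u := by
      intro u
      by_cases h : u ∈ U ∧ ¬ act u
      · obtain ⟨r, hr⟩ := h0 u h.1 h.2
        exact ⟨r, fun _ _ => hr⟩
      · exact ⟨0, fun h2 h3 => absurd ⟨h2, h3⟩ h⟩
    choose r hr using this
    exact ⟨r, hr⟩
  let E : (σ → ℂ) → Matrix (Fin N) (Fin N) (MvPolynomial (Fin M) ℂ) := fun e =>
    A₀.map C + ∑ u ∈ U, (if act u then C (e u) else r u) • (A u).map C
  by_cases hall : ∀ e, (E e).det = 0
  · refine ⟨∅, by simp, ?_⟩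
    have hz : (A₀.map C + ∑ u ∈ U, w u • (A u).map C).det =
        (0 : MvPolynomial (Fin M ⊕ Fin n) ℂ) := by
      refine MvPolynomial.funext fun y => ?_
      rw [map_zero, eval_det_affine]
      have h2 := congrArg (eval fun m => y (Sum.inl m)) (hall fun u => eval y (w u))
      rw [map_zero, eval_det_affine] at h2
      rw [← h2]
      congr 2
      refine Finset.sum_congr rfl fun u hu => ?_
      congr 1
      by_cases h : act u
      · simp [h]
      · rw [if_neg h, ← hr u hu h, eval_rename]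
        rfl
    rw [hz]
    exact zero_mem _
  · push Not at hall
    obtain ⟨e, he⟩ := hall
    obtain ⟨r₁, r₂, UU, W, D, hr₁, hr₂, hD⟩ := exists_joint_factor (U.filter act) A
    let K : Matrix (Fin r₂) (Fin r₁) (MvPolynomial (Fin M) ℂ) :=
      W.map (C : ℂ → MvPolynomial (Fin M) ℂ) * (E e).adjugate *
        UU.map (C : ℂ → MvPolynomial (Fin M) ℂ)
    let Q' : Finset (MvPolynomial (Fin M) ℂ) :=
      insert (E e).det (Finset.univ.image fun p : Fin r₂ × Fin r₁ => K p.1 p.2)
    have hdetQ : (E e).det ∈ Q ∪ Q' := Finset.mem_union_right _ (Finset.mem_insert_self _ _)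
    have hKQ : ∀ i j, K i j ∈ Q ∪ Q' := fun i j =>
      Finset.mem_union_right _ (Finset.mem_insert_of_mem
        (Finset.mem_image.2 ⟨(i, j), Finset.mem_univ _, rfl⟩))
    refine ⟨Q', ?_, ?_⟩
    · refine (Finset.card_insert_le _ _).trans (Nat.succ_le_succ ?_)
      refine Finset.card_image_le.trans ?_
      rw [Finset.card_univ, Fintype.card_prod, Fintype.card_fin, Fintype.card_fin, hr₁, hr₂,
        mul_comm]
    · let E' : Matrix (Fin N) (Fin N) (MvPolynomial (Fin M ⊕ Fin n) ℂ) := (E e).map (emb n M)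
      let Y : Matrix (Fin r₁) (Fin r₂) (MvPolynomial (Fin M ⊕ Fin n) ℂ) :=
        ∑ u ∈ U.filter act, (w u - C (e u)) • (D u).map C
      have hE' : E'.det = emb n M (E e).det := ((emb n M).toRingHom.map_det _).symm
      have hE'0 : E'.det ≠ 0 := by
        rw [hE']
        intro h
        exact he (emb_injective n M (by rw [h, map_zero]))
      have hCC : ∀ {k l : ℕ} (X : Matrix (Fin k) (Fin l) ℂ),
          (X.map (C : ℂ → MvPolynomial (Fin M) ℂ)).map (emb n M) =
            X.map (C : ℂ → MvPolynomial (Fin M ⊕ Fin n) ℂ) := by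
        intro k l X
        ext i j
        simp
      have hT : (A₀.map C + ∑ u ∈ U, w u • (A u).map C :
          Matrix (Fin N) (Fin N) (MvPolynomial (Fin M ⊕ Fin n) ℂ)) =
          E' + (UU.map C : Matrix (Fin N) (Fin r₁) (MvPolynomial (Fin M ⊕ Fin n) ℂ)) * (Y * (W.map C : Matrix (Fin r₂) (Fin N) (MvPolynomial (Fin M ⊕ Fin n) ℂ))) := by
        have e1 : (UU.map C : Matrix (Fin N) (Fin r₁) (MvPolynomial (Fin M ⊕ Fin n) ℂ)) * (Y * (W.map C : Matrix (Fin r₂) (Fin N) (MvPolynomial (Fin M ⊕ Fin n) ℂ))) =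
            ∑ u ∈ U.filter act, (w u - C (e u)) • (A u).map
              (C : ℂ → MvPolynomial (Fin M ⊕ Fin n) ℂ) := by
          simp only [Y]
          rw [Matrix.sum_mul, Matrix.mul_sum]
          refine Finset.sum_congr rfl fun u hu => ?_
          rw [Matrix.smul_mul, Matrix.mul_smul]
          congr 1
          conv_rhs => rw [hD u hu]
          rw [Matrix.map_mul, Matrix.map_mul, Matrix.mul_assoc]
        have e2 : E' = A₀.map C + ∑ u ∈ U, (if act u then C (e u) else w u) • (A u).map
              (C : ℂ → MvPolynomial (Fin M ⊕ Fin n) ℂ) := by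
          refine Matrix.ext fun i j => ?_
          simp only [E', E, Matrix.map_apply, Matrix.add_apply, Matrix.sum_apply,
            Matrix.smul_apply, smul_eq_mul, map_add, map_sum, map_mul, rename_C]
          rw [add_right_inj]
          refine Finset.sum_congr rfl fun u hu => ?_
          by_cases h : act u
          · simp [h]
          · rw [if_neg h, if_neg h, hr u hu h]
        rw [e1, e2, add_assoc, Finset.sum_filter, ← Finset.sum_add_distrib]
        congr 1
        refine Finset.sum_congr rfl fun u _ => ?_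
        by_cases h : act u
        · rw [if_pos h, if_pos h, ← add_smul]
          congr 1
          ring
        · rw [if_neg h, if_neg h, add_zero]
      have hK : K.map (emb n M) = (W.map C : Matrix (Fin r₂) (Fin N) (MvPolynomial (Fin M ⊕ Fin n) ℂ)) * E'.adjugate * (UU.map C : Matrix (Fin N) (Fin r₁) (MvPolynomial (Fin M ⊕ Fin n) ℂ)) := by
        have h2 : (E e).adjugate.map (emb n M) = E'.adjugate :=
          RingHom.map_adjugate (emb n M).toRingHom (E e)
        simp only [K]
        rw [Matrix.map_mul, Matrix.map_mul, h2, hCC, hCC]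
      have key := det_domain E' ((UU.map C : Matrix (Fin N) (Fin r₁) (MvPolynomial (Fin M ⊕ Fin n) ℂ))) Y ((W.map C : Matrix (Fin r₂) (Fin N) (MvPolynomial (Fin M ⊕ Fin n) ℂ))) hE'0
      rw [← hT, ← hK, Fintype.card_fin, hE'] at key
      refine mem_loc_of_mul B hdetQ he r₁ ?_
      rw [key]
      refine mul_mem (emb_mem_loc B hdetQ) (det_mem _ _ fun i j => ?_)
      rw [Matrix.add_apply, Matrix.smul_apply, Matrix.mul_apply]
      refine add_mem ?_ (sum_mem fun k _ => mul_mem ?_ ?_)
      · rw [smul_eq_mul]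
        refine mul_mem (emb_mem_loc B hdetQ) ?_
        rw [Matrix.one_apply]
        split_ifs
        · exact one_mem _
        · exact zero_mem _
      · simp only [Y, Matrix.sum_apply, Matrix.smul_apply, Matrix.map_apply, smul_eq_mul]
        refine sum_mem fun u hu => mul_mem (sub_mem ?_ ?_) ?_
        · rw [Finset.mem_filter] at hu
          exact loc_mono B Finset.subset_union_left (h1 u hu.1 hu.2)
        · exact Subalgebra.algebraMap_mem _ (e u)
        · exact Subalgebra.algebraMap_mem _ (D u i k)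
      · rw [Matrix.map_apply]
        exact emb_mem_loc B (hKQ k j)

end Pool.Agent.V8H51.PIT
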