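import Pool.Agent.V8H51.PIT.DetCirc

/-!
# Weights of circuits with determinant gates
-/

set_option autoImplicit false

namespace Pool.Agent.V8H51.PIT

open MvPolynomial Finset

theorem rank_add_le' {m p : Type*} [Fintype m] [Fintype p] [DecidableEq p] (A B : Matrix m p ℂ) :
    (A + B).rank ≤ A.rank + B.rank := by
  unfold Matrix.rank
  rw [Matrix.mulVecLin_add]
  refine (Submodule.finrank_mono (t := LinearMap.range A.mulVecLin ⊔ LinearMap.range B.mulVecLin)
    ?_).trans (Submodule.finrank_add_le_finrank_add_finrank _ _)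
  rintro _ ⟨x, rfl⟩
  exact Submodule.add_mem_sup ⟨x, rfl⟩ ⟨x, rfl⟩

theorem sq_add_sq_le {a b c d : ℕ} (h1 : c ≤ a ^ 2) (h2 : d ≤ b ^ 2) : c + d ≤ (a + b) ^ 2 := by
  nlinarith [Nat.zero_le (a * b)]

theorem rank_sum_le {σ m p : Type*} [Fintype m] [Fintype p] [DecidableEq p] (s : Finset σ)
    (f : σ → Matrix m p ℂ) : (∑ u ∈ s, f u).rank ≤ ∑ u ∈ s, (f u).rank := by
  classical
  induction s using Finset.induction_on with
  | empty => simp
  | insert a s ha ih =>
    rw [Finset.sum_insert ha, Finset.sum_insert ha]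
    exact (rank_add_le' _ _).trans (add_le_add le_rfl ih)

theorem colRank_le {σ : Type} [DecidableEq σ] {N : ℕ} (V : Finset σ)
    (A : σ → Matrix (Fin N) (Fin N) ℂ) : colRank V A ≤ ∑ u ∈ V, (A u).rank := by
  classical
  let S : {u // u ∈ V} → Matrix (Fin N) ({u // u ∈ V} × Fin N) ℂ := fun u =>
    Matrix.of fun k p => if p.1 = u ∧ p.2 = k then 1 else 0
  have h1 : (Matrix.of fun i (p : {u // u ∈ V} × Fin N) => A p.1 i p.2 :
      Matrix (Fin N) ({u // u ∈ V} × Fin N) ℂ) = ∑ u : {u // u ∈ V}, A u * S u := by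
    ext i ⟨v, j⟩
    rw [Matrix.sum_apply, Finset.sum_eq_single v]
    · simp [Matrix.mul_apply, S]
    · intro u _ hu
      rw [Matrix.mul_apply]
      refine Finset.sum_eq_zero fun k _ => ?_
      simp [S, Ne.symm hu]
    · intro h; exact absurd (Finset.mem_univ _) h
  rw [colRank, h1]
  refine (rank_sum_le _ _).trans ?_
  calc ∑ u : {u // u ∈ V}, (A u * S u).rank ≤ ∑ u : {u // u ∈ V}, (A u).rank :=
        Finset.sum_le_sum fun u _ => Matrix.rank_mul_le_left _ _
    _ = ∑ u ∈ V, (A u).rank := Finset.sum_coe_sort V fun u => (A u).rank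

theorem rowRank_le {σ : Type} [DecidableEq σ] {N : ℕ} (V : Finset σ)
    (A : σ → Matrix (Fin N) (Fin N) ℂ) : rowRank V A ≤ ∑ u ∈ V, (A u).rank := by
  classical
  let S : {u // u ∈ V} → Matrix ({u // u ∈ V} × Fin N) (Fin N) ℂ := fun u =>
    Matrix.of fun p k => if p.1 = u ∧ p.2 = k then 1 else 0
  have h1 : (Matrix.of fun (p : {u // u ∈ V} × Fin N) j => A p.1 p.2 j :
      Matrix ({u // u ∈ V} × Fin N) (Fin N) ℂ) = ∑ u : {u // u ∈ V}, S u * A u := by
    ext ⟨v, i⟩ j
    rw [Matrix.sum_apply, Finset.sum_eq_single v]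
    · simp [Matrix.mul_apply, S]
    · intro u _ hu
      rw [Matrix.mul_apply]
      refine Finset.sum_eq_zero fun k _ => ?_
      simp [S, Ne.symm hu]
    · intro h; exact absurd (Finset.mem_univ _) h
  rw [rowRank, h1]
  refine (rank_sum_le _ _).trans ?_
  calc ∑ u : {u // u ∈ V}, (S u * A u).rank ≤ ∑ u : {u // u ∈ V}, (A u).rank :=
        Finset.sum_le_sum fun u _ => Matrix.rank_mul_le_right _ _
    _ = ∑ u ∈ V, (A u).rank := Finset.sum_coe_sort V fun u => (A u).rank

/-- the part of the weight of a gate which belongs to the variable `x_i` -/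
noncomputable def DetGate.cost {n : ℕ} (L : Fin n ⊕ ℕ → Finset (Fin n)) (S : Finset (Fin n))
    (i : Fin n) : DetGate n → ℕ
  | poly G => (G.vars.filter fun u => i ∈ S \ L u).card
  | det _ _ U A => (if i ∈ S then 1 else 0) + ∑ u ∈ U, (A u).rank * (if i ∈ L u then 1 else 0)

/-- the part of the weight of a circuit which belongs to the variable `x_i` -/
noncomputable def DetCircuit.cost {n : ℕ} (i : Fin n) : DetCircuit n → ℕ
  | [] => 0
  | g :: P => g.1.cost (DetCircuit.inputLabel P) g.2 i + DetCircuit.cost i P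

theorem card_eq_sum_ite {n : ℕ} (S : Finset (Fin n)) : ∑ i, (if i ∈ S then 1 else 0 : ℕ) = S.card := by
  rw [← Finset.card_filter]
  congr 1
  ext i; simp

theorem DetGate.sum_cost {n : ℕ} (L : Fin n ⊕ ℕ → Finset (Fin n)) (S : Finset (Fin n))
    (g : DetGate n) : ∑ i, g.cost L S i = g.weight L S := by
  classical
  rcases g with G | ⟨N, A₀, U, A⟩
  · simp only [DetGate.cost, DetGate.weight]
    simp only [Finset.card_filter]
    rw [Finset.sum_comm]
    refine Finset.sum_congr rfl fun u _ => ?_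
    rw [← Finset.card_filter]
    congr 1
    ext i
    simp
  · simp only [DetGate.cost, DetGate.weight, Finset.sum_add_distrib]
    congr 1
    · exact card_eq_sum_ite S
    · rw [Finset.sum_comm]
      refine Finset.sum_congr rfl fun u _ => ?_
      rw [← Finset.mul_sum, card_eq_sum_ite]

theorem DetCircuit.sum_cost {n : ℕ} (P : DetCircuit n) : ∑ i, P.cost i = P.weight := by
  induction P with
  | nil => simp [DetCircuit.cost, DetCircuit.weight]
  | cons g P ih =>
    simp only [DetCircuit.cost, DetCircuit.weight, Finset.sum_add_distrib, ih, DetGate.sum_cost]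

theorem DetGate.crossing_le {n : ℕ} (L : Fin n ⊕ ℕ → Finset (Fin n)) (S B : Finset (Fin n))
    (g : DetGate n) (hS : ¬ Disjoint S B) : g.crossing L B ≤ (∑ i ∈ B, g.cost L S i) ^ 2 := by
  classical
  obtain ⟨i, hiS, hiB⟩ := Finset.not_disjoint_iff.1 hS
  rcases g with G | ⟨N, A₀, U, A⟩
  · have h1 : (DetGate.poly G).cost L S i ≤ ∑ i ∈ B, (DetGate.poly G).cost L S i :=
      Finset.single_le_sum (f := fun i => (DetGate.poly G).cost L S i)
        (fun _ _ => Nat.zero_le _) hiB
    have h2 : (DetGate.poly G).crossing L B ≤ (DetGate.poly G).cost L S i := by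
      simp only [DetGate.crossing, DetGate.cost]
      refine Finset.card_le_card fun u hu => ?_
      rw [Finset.mem_filter] at hu ⊢
      refine ⟨hu.1, Finset.mem_sdiff.2 ⟨hiS, fun h => ?_⟩⟩
      exact (Finset.disjoint_left.1 hu.2 h) hiB
    exact (h2.trans h1).trans (Nat.le_self_pow two_ne_zero _)
  · have h1 : 1 ≤ ∑ i ∈ B, (if i ∈ S then 1 else 0 : ℕ) := by
      have : (if i ∈ S then 1 else 0 : ℕ) ≤ ∑ i ∈ B, (if i ∈ S then 1 else 0 : ℕ) :=
        Finset.single_le_sum (f := fun i => (if i ∈ S then 1 else 0 : ℕ))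
          (fun _ _ => Nat.zero_le _) hiB
      simpa [hiS] using this
    have h2 : ∑ u ∈ U.filter (fun u => ¬ Disjoint (L u) B), (A u).rank ≤
        ∑ i ∈ B, ∑ u ∈ U, (A u).rank * (if i ∈ L u then 1 else 0) := by
      rw [Finset.sum_comm, Finset.sum_filter]
      refine Finset.sum_le_sum fun u _ => ?_
      by_cases h : Disjoint (L u) B
      · simp [h]
      · rw [if_pos h, ← Finset.mul_sum]
        obtain ⟨j, hj1, hj2⟩ := Finset.not_disjoint_iff.1 h
        have h3 : (if j ∈ L u then 1 else 0 : ℕ) ≤ ∑ i ∈ B, (if i ∈ L u then 1 else 0 : ℕ) :=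
          Finset.single_le_sum (f := fun i => (if i ∈ L u then 1 else 0 : ℕ))
            (fun _ _ => Nat.zero_le _) hj2
        rw [if_pos hj1] at h3
        exact Nat.le_mul_of_pos_right _ h3
    have h3 := (colRank_le (U.filter fun u => ¬ Disjoint (L u) B) A).trans h2
    have h4 := (rowRank_le (U.filter fun u => ¬ Disjoint (L u) B) A).trans h2
    simp only [DetGate.crossing, DetGate.cost, Finset.sum_add_distrib]
    nlinarith [Nat.mul_le_mul h3 h4]

theorem DetCircuit.crossing_le {n : ℕ} (B : Finset (Fin n)) (P : DetCircuit n) :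
    P.crossing B ≤ (∑ i ∈ B, P.cost i) ^ 2 := by
  induction P with
  | nil => simp [DetCircuit.crossing]
  | cons g P ih =>
    simp only [DetCircuit.crossing, DetCircuit.cost, Finset.sum_add_distrib]
    by_cases h : Disjoint g.2 B
    · simp only [h, if_true]
      exact sq_add_sq_le (Nat.zero_le _) ih
    · simp only [h, if_false]
      exact sq_add_sq_le (DetGate.crossing_le (DetCircuit.inputLabel P) g.2 B g.1 h) ih

/-- every circuit has a partition of the variables into few intervals of small crossing number -/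
theorem DetCircuit.exists_partition {n W r b : ℕ} (hr : 0 < r) (hb : 2 * ((n + W) / r) ≤ b)
    (P : DetCircuit n) (hW : P.weight ≤ W) :
    ∃ a : Fin b → Fin (n + 1), ∀ j,
      P.crossing (block (interval a) j) + (block (interval a) j).card ≤ r ^ 2 ∨
      (block (interval a) j).card ≤ 1 := by
  obtain ⟨a, ha⟩ := PIT.exists_partition (s := n + W) hr b hb (fun i => 1 + P.cost i) (by
    rw [Finset.sum_add_distrib, P.sum_cost]
    simp only [Finset.sum_const, Finset.card_univ, Fintype.card_fin, smul_eq_mul, mul_one]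
    omega)
  refine ⟨a, fun j => (ha j).imp (fun h => ?_) id⟩
  rw [Finset.sum_add_distrib, ← Finset.card_eq_sum_ones] at h
  have h1 := sq_add_sq_le (Nat.le_self_pow two_ne_zero (block (interval a) j).card)
    (P.crossing_le (block (interval a) j))
  have h2 := Nat.pow_le_pow_left h 2
  omega

end Pool.Agent.V8H51.PIT
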