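import Mathlib

/-!
# Arithmetic formulas and programs
-/

set_option autoImplicit false

namespace Pool.Agent.V8H51.PIT

open MvPolynomial

/-- Arithmetic formulas over `ℂ` in the variables `x_i`, `i < n`. The leaves are constants, variables
or results of earlier formulas; `res k` is the result of the formula `k + 1` places earlier. -/
inductive Fml (n : ℕ) : Type
  | const (c : ℂ)
  | var (i : Fin n)
  | res (k : ℕ)
  | add (F G : Fml n)
  | mul (F G : Fml n)

namespace Fml

variable {n : ℕ}

/-- The polynomial computed by a formula, if `v k` is the polynomial `res k`. -/
noncomputable def value (v : ℕ → MvPolynomial (Fin n) ℂ) : Fml n → MvPolynomial (Fin n) ℂ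
  | const c => C c
  | var i => X i
  | res k => v k
  | add F G => F.value v + G.value v
  | mul F G => F.value v * G.value v

/-- The number of leaves which are labelled by variables. -/
def reads : Fml n → ℕ
  | const _ => 0
  | var _ => 1
  | res _ => 0
  | add F G => F.reads + G.reads
  | mul F G => F.reads + G.reads

/-- The number of leaves which are labelled by results of earlier formulas. -/
def uses : Fml n → ℕ
  | const _ => 0
  | var _ => 0
  | res _ => 1
  | add F G => F.uses + G.uses
  | mul F G => F.uses + G.uses

end Fml

/-- The results of a program, that is of a sequence of formulas. The list begins with the last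
formula; `results P 0` is its result, and `results P k` is the result of the formula `k` places
earlier (`0` if there is none). -/
noncomputable def results {n : ℕ} : List (Fml n) → ℕ → MvPolynomial (Fin n) ℂ
  | [], _ => 0
  | F :: P, 0 => F.value (results P)
  | _ :: P, k + 1 => results P k

end Pool.Agent.V8H51.PIT
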