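import Pool.Agent.V8H51.PIT.Weights
import Pool.Agent.V8H51.PIT.FmlDefs

/-!
# Programs: every block with few reads is simple
-/

set_option autoImplicit false

namespace Pool.Agent.V8H51.PIT

open MvPolynomial Finset

/-- the value of `p` does not depend on the coordinates in `B` -/
def Inact {n : ℕ} (B : Finset (Fin n)) (p : MvPolynomial (Fin n) ℂ) : Prop :=
  ∀ x x' : Fin n → ℂ, (∀ i, i ∉ B → x i = x' i) → eval x p = eval x' p

section inact

variable {n : ℕ} {B : Finset (Fin n)} {p q : MvPolynomial (Fin n) ℂ}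

theorem Inact.const (c : ℂ) : Inact B (C c) := fun x x' _ => by simp

theorem Inact.add (hp : Inact B p) (hq : Inact B q) : Inact B (p + q) := fun x x' h => by
  rw [map_add, map_add, hp x x' h, hq x x' h]

theorem Inact.mul (hp : Inact B p) (hq : Inact B q) : Inact B (p * q) := fun x x' h => by
  rw [map_mul, map_mul, hp x x' h, hq x x' h]

theorem Inact.var {i : Fin n} (hi : i ∉ B) : Inact B (X i) := fun x x' h => by
  rw [eval_X, eval_X, h i hi]

end inact

/-- the number of leaves labelled by `x_i` -/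
def Fml.readsOf {n : ℕ} (i : Fin n) : Fml n → ℕ
  | const _ => 0
  | var j => if j = i then 1 else 0
  | res _ => 0
  | add F G => F.readsOf i + G.readsOf i
  | mul F G => F.readsOf i + G.readsOf i

theorem Fml.sum_readsOf {n : ℕ} (F : Fml n) : ∑ i, F.readsOf i = F.reads := by
  induction F with
  | const c => simp [readsOf, reads]
  | var j => simp [readsOf, reads]
  | res k => simp [readsOf, reads]
  | add F G hF hG => simp [readsOf, reads, Finset.sum_add_distrib, hF, hG]
  | mul F G hF hG => simp [readsOf, reads, Finset.sum_add_distrib, hF, hG]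

/-- the number of active leaves -/
def Fml.act {n : ℕ} (B : Finset (Fin n)) (F : Fml n) : ℕ := ∑ i ∈ B, F.readsOf i + F.uses

section core

variable {n : ℕ} (B T : Finset (Fin n)) (Qp : Finset (MvPolynomial (Fin n) ℂ))
  (v : ℕ → MvPolynomial (Fin n) ℂ)

noncomputable abbrev Adj (T : Finset (Fin n)) (Q : Finset (MvPolynomial (Fin n) ℂ)) :
    Subalgebra ℂ (MvPolynomial (Fin n) ℂ) :=
  Algebra.adjoin ℂ ((Q : Set (MvPolynomial (Fin n) ℂ)) ∪ X '' (T : Set (Fin n)))

theorem Adj_mono {T : Finset (Fin n)} {Q Q' : Finset (MvPolynomial (Fin n) ℂ)} (h : Q ⊆ Q') :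
    Adj T Q ≤ Adj T Q' :=
  Algebra.adjoin_mono (Set.union_subset_union_left _ (by exact_mod_cast h))

theorem mem_Adj_of_mem {T : Finset (Fin n)} {Q : Finset (MvPolynomial (Fin n) ℂ)}
    {p : MvPolynomial (Fin n) ℂ} (h : p ∈ Q) : p ∈ Adj T Q :=
  Algebra.subset_adjoin (Or.inl h)

theorem X_mem_Adj {T : Finset (Fin n)} {Q : Finset (MvPolynomial (Fin n) ℂ)}
    {i : Fin n} (h : i ∈ T) : (X i : MvPolynomial (Fin n) ℂ) ∈ Adj T Q :=
  Algebra.subset_adjoin (Or.inr ⟨i, h, rfl⟩)

/-- the affine normal form -/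
def Normal (F : MvPolynomial (Fin n) ℂ) (N : ℕ) : Prop :=
  ∃ (α β w : MvPolynomial (Fin n) ℂ) (Q : Finset (MvPolynomial (Fin n) ℂ)),
    Inact B α ∧ Inact B β ∧ (∀ q ∈ Q, Inact B q) ∧ Q.card ≤ N ∧ w ∈ Adj T (Qp ∪ Q) ∧ F = α * w + β

theorem normal_combine {F G : MvPolynomial (Fin n) ℂ} {N N' : ℕ} (hF : Normal B T Qp F N)
    (hG : Normal B T Qp G N') :
    ∃ Q : Finset (MvPolynomial (Fin n) ℂ), (∀ q ∈ Q, Inact B q) ∧ Q.card ≤ N + N' + 4 ∧
      F ∈ Adj T (Qp ∪ Q) ∧ G ∈ Adj T (Qp ∪ Q) := by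
  classical
  obtain ⟨α, β, w, Q, h1, h2, h3, h4, h5, h6⟩ := hF
  obtain ⟨α', β', w', Q', h1', h2', h3', h4', h5', h6'⟩ := hG
  refine ⟨(Q ∪ Q') ∪ {α, β, α', β'}, ?_, ?_, ?_, ?_⟩
  · intro q hq
    simp only [Finset.mem_union, Finset.mem_insert, Finset.mem_singleton] at hq
    rcases hq with (h | h) | h | h | h | h
    · exact h3 q h
    · exact h3' q h
    · rw [h]; exact h1
    · rw [h]; exact h2
    · rw [h]; exact h1'
    · rw [h]; exact h2'
  · refine (Finset.card_union_le _ _).trans ?_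
    have e1 := Finset.card_union_le Q Q'
    have e2 : ({α, β, α', β'} : Finset (MvPolynomial (Fin n) ℂ)).card ≤ 4 := Finset.card_le_four
    omega
  · rw [h6]
    refine add_mem (mul_mem (mem_Adj_of_mem ?_) (Adj_mono ?_ h5)) (mem_Adj_of_mem ?_)
    · simp
    · intro q hq
      simp only [Finset.mem_union] at hq ⊢
      tauto
    · simp
  · rw [h6']
    refine add_mem (mul_mem (mem_Adj_of_mem ?_) (Adj_mono ?_ h5')) (mem_Adj_of_mem ?_)
    · simp
    · intro q hq
      simp only [Finset.mem_union] at hq ⊢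
      tauto
    · simp

theorem core (hv : ∀ k, v k ∈ Adj T Qp) (F : Fml n) (hT : ∀ i ∈ B, F.readsOf i ≠ 0 → i ∈ T) :
    (F.act B = 0 → Inact B (F.value v)) ∧
    (F.act B ≠ 0 → Normal B T Qp (F.value v) (4 * (F.act B - 1))) := by
  classical
  induction F with
  | const c =>
    refine ⟨fun _ => Inact.const c, fun h => ?_⟩
    exact absurd (by simp [Fml.act, Fml.readsOf, Fml.uses]) h
  | var j =>
    constructor
    · intro h
      refine Inact.var fun hj => ?_
      have h1 : (Fml.var j : Fml n).readsOf j ≤ ∑ i ∈ B, (Fml.var j : Fml n).readsOf i :=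
        Finset.single_le_sum (f := fun i => (Fml.var j : Fml n).readsOf i)
          (fun _ _ => Nat.zero_le _) hj
      simp only [Fml.readsOf, if_true] at h1
      simp only [Fml.act, Fml.readsOf] at h
      omega
    · intro h
      have hj : j ∈ B := by
        by_contra hj
        apply h
        simp only [Fml.act, Fml.readsOf, Fml.uses, add_zero]
        refine Finset.sum_eq_zero fun i hi => ?_
        rw [if_neg]
        rintro rfl
        exact hj hi
      have hjT : j ∈ T := hT j hj (by simp [Fml.readsOf])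
      exact ⟨1, 0, X j, ∅, Inact.const 1 |> fun h => by simpa using h,
        Inact.const 0 |> fun h => by simpa using h, by simp, by simp, X_mem_Adj hjT, by
          simp [Fml.value]⟩
  | res k =>
    constructor
    · intro h
      simp [Fml.act, Fml.uses] at h
    · intro h
      exact ⟨1, 0, v k, ∅, Inact.const 1 |> fun h => by simpa using h,
        Inact.const 0 |> fun h => by simpa using h, by simp, by simp,
        Adj_mono (Finset.subset_union_left) (hv k), by simp [Fml.value]⟩
  | add F G hF hG =>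
    have hTF : ∀ i ∈ B, F.readsOf i ≠ 0 → i ∈ T := fun i hi h => hT i hi (by
      simp only [Fml.readsOf]; omega)
    have hTG : ∀ i ∈ B, G.readsOf i ≠ 0 → i ∈ T := fun i hi h => hT i hi (by
      simp only [Fml.readsOf]; omega)
    have hact : (Fml.add F G).act B = F.act B + G.act B := by
      simp only [Fml.act, Fml.readsOf, Fml.uses, Finset.sum_add_distrib]
      omega
    rw [hact]
    obtain ⟨hF0, hF1⟩ := hF hTF
    obtain ⟨hG0, hG1⟩ := hG hTG
    refine ⟨fun h => (hF0 (by omega)).add (hG0 (by omega)), fun h => ?_⟩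
    by_cases hF' : F.act B = 0
    · obtain ⟨α, β, w, Q, h1, h2, h3, h4, h5, h6⟩ := hG1 (by omega)
      refine ⟨α, F.value v + β, w, Q, h1, (hF0 hF').add h2, h3, by omega, h5, ?_⟩
      simp only [Fml.value, h6]; ring
    by_cases hG' : G.act B = 0
    · obtain ⟨α, β, w, Q, h1, h2, h3, h4, h5, h6⟩ := hF1 (by omega)
      refine ⟨α, β + G.value v, w, Q, h1, h2.add (hG0 hG'), h3, by omega, h5, ?_⟩
      simp only [Fml.value, h6]; ring
    obtain ⟨Q, hQ1, hQ2, hQ3, hQ4⟩ := normal_combine B T Qp (hF1 hF') (hG1 hG')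
    refine ⟨1, 0, F.value v + G.value v, Q, Inact.const 1 |> fun h => by simpa using h,
      Inact.const 0 |> fun h => by simpa using h, hQ1, by omega, add_mem hQ3 hQ4, ?_⟩
    simp [Fml.value]
  | mul F G hF hG =>
    have hTF : ∀ i ∈ B, F.readsOf i ≠ 0 → i ∈ T := fun i hi h => hT i hi (by
      simp only [Fml.readsOf]; omega)
    have hTG : ∀ i ∈ B, G.readsOf i ≠ 0 → i ∈ T := fun i hi h => hT i hi (by
      simp only [Fml.readsOf]; omega)
    have hact : (Fml.mul F G).act B = F.act B + G.act B := by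
      simp only [Fml.act, Fml.readsOf, Fml.uses, Finset.sum_add_distrib]
      omega
    rw [hact]
    obtain ⟨hF0, hF1⟩ := hF hTF
    obtain ⟨hG0, hG1⟩ := hG hTG
    refine ⟨fun h => (hF0 (by omega)).mul (hG0 (by omega)), fun h => ?_⟩
    by_cases hF' : F.act B = 0
    · obtain ⟨α, β, w, Q, h1, h2, h3, h4, h5, h6⟩ := hG1 (by omega)
      refine ⟨F.value v * α, F.value v * β, w, Q, (hF0 hF').mul h1, (hF0 hF').mul h2, h3,
        by omega, h5, ?_⟩
      simp only [Fml.value, h6]; ring
    by_cases hG' : G.act B = 0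
    · obtain ⟨α, β, w, Q, h1, h2, h3, h4, h5, h6⟩ := hF1 (by omega)
      refine ⟨G.value v * α, G.value v * β, w, Q, (hG0 hG').mul h1, (hG0 hG').mul h2, h3,
        by omega, h5, ?_⟩
      simp only [Fml.value, h6]; ring
    obtain ⟨Q, hQ1, hQ2, hQ3, hQ4⟩ := normal_combine B T Qp (hF1 hF') (hG1 hG')
    refine ⟨1, 0, F.value v * G.value v, Q, Inact.const 1 |> fun h => by simpa using h,
      Inact.const 0 |> fun h => by simpa using h, hQ1, by omega, mul_mem hQ3 hQ4, ?_⟩
    simp [Fml.value]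

theorem core' (hv : ∀ k, v k ∈ Adj T Qp) (F : Fml n) (hT : ∀ i ∈ B, F.readsOf i ≠ 0 → i ∈ T) :
    ∃ Q : Finset (MvPolynomial (Fin n) ℂ), (∀ q ∈ Q, Inact B q) ∧ Q.card ≤ 4 * F.act B + 1 ∧
      F.value v ∈ Adj T (Qp ∪ Q) := by
  classical
  obtain ⟨h0, h1⟩ := core B T Qp v hv F hT
  by_cases h : F.act B = 0
  · refine ⟨{F.value v}, ?_, by simp, mem_Adj_of_mem (by simp)⟩
    intro q hq
    rw [Finset.mem_singleton] at hq
    rw [hq]
    exact h0 h
  · obtain ⟨α, β, w, Q, h1, h2, h3, h4, h5, h6⟩ := h1 h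
    refine ⟨Q ∪ {α, β}, ?_, ?_, ?_⟩
    · intro q hq
      simp only [Finset.mem_union, Finset.mem_insert, Finset.mem_singleton] at hq
      rcases hq with h | h | h
      · exact h3 q h
      · rw [h]; exact h1
      · rw [h]; exact h2
    · refine (Finset.card_union_le _ _).trans ?_
      have : ({α, β} : Finset (MvPolynomial (Fin n) ℂ)).card ≤ 2 := Finset.card_le_two
      omega
    · rw [h6]
      refine add_mem (mul_mem (mem_Adj_of_mem ?_) (Adj_mono ?_ h5)) (mem_Adj_of_mem ?_)
      · simp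
      · intro q hq
        simp only [Finset.mem_union] at hq ⊢
        tauto
      · simp

end core

theorem prog_core {n : ℕ} (B T : Finset (Fin n)) (P : List (Fml n))
    (hT : ∀ F ∈ P, ∀ i ∈ B, F.readsOf i ≠ 0 → i ∈ T) :
    ∃ Q : Finset (MvPolynomial (Fin n) ℂ), (∀ q ∈ Q, Inact B q) ∧
      Q.card ≤ 4 * (P.map fun F => F.act B).sum + P.length ∧ ∀ k, results P k ∈ Adj T Q := by
  classical
  induction P with
  | nil => exact ⟨∅, by simp, by simp, fun k => by simp [results]⟩
  | cons F P ih =>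
    obtain ⟨Q, h1, h2, h3⟩ := ih fun F hF => hT F (List.mem_cons_of_mem _ hF)
    obtain ⟨Q', h1', h2', h3'⟩ := core' B T Q (results P) h3 F (hT F List.mem_cons_self)
    refine ⟨Q ∪ Q', ?_, ?_, ?_⟩
    · intro q hq
      rcases Finset.mem_union.1 hq with h | h
      · exact h1 q h
      · exact h1' q h
    · refine (Finset.card_union_le _ _).trans ?_
      simp only [List.map_cons, List.sum_cons, List.length_cons]
      omega
    · intro k
      rcases k with _ | k
      · exact h3'
      · exact Adj_mono Finset.subset_union_left (h3 k)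

theorem sum_reads {n : ℕ} (P : List (Fml n)) :
    ∑ i, (P.map (Fml.readsOf i)).sum = (P.map Fml.reads).sum := by
  induction P with
  | nil => simp
  | cons F P ih =>
    simp only [List.map_cons, List.sum_cons, Finset.sum_add_distrib, ih, Fml.sum_readsOf]

theorem sum_act {n : ℕ} (B : Finset (Fin n)) (P : List (Fml n)) :
    (P.map fun F => F.act B).sum = ∑ i ∈ B, (P.map (Fml.readsOf i)).sum + (P.map Fml.uses).sum := by
  induction P with
  | nil => simp
  | cons F P ih =>
    rw [List.map_cons, List.sum_cons, ih]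
    simp only [List.map_cons, List.sum_cons, Finset.sum_add_distrib, Fml.act]
    omega

theorem prog_hit {n t U s r b d : ℕ} (hr : 0 < r) (hb : 2 * (s / r) ≤ b) (P : List (Fml n))
    (ht : P.length ≤ t) (hU : (P.map Fml.uses).sum ≤ U) (hs : (P.map Fml.reads).sum ≤ s)
    (hd : (results P 0).totalDegree ≤ d) (hf : results P 0 ≠ 0) :
    ∃ x ∈ points n (5 * r + 4 * U + t) b (d * (5 * r + 4 * U + t)),
      eval (fun i => (x i : ℂ)) (results P 0) ≠ 0 := by
  classical
  let c : Fin n → ℕ := fun i => (P.map (Fml.readsOf i)).sum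
  have hc : ∑ i, c i ≤ s := by
    rw [sum_reads]; exact hs
  have hle : ∀ F ∈ P, ∀ i, F.readsOf i ≤ c i := by
    intro F hF i
    exact List.single_le_sum (fun _ _ => Nat.zero_le _) _ (List.mem_map_of_mem hF)
  refine weight_hit (ρ := 4 * (r + U) + t) (κ := r) hr hb (by omega) (by omega) _ hf hd c hc ?_
  intro B hB
  let T := B.filter fun i => c i ≠ 0
  obtain ⟨Q, h1, h2, h3⟩ := prog_core B T P (by
    intro F hF i hi h
    rw [Finset.mem_filter]
    refine ⟨hi, ?_⟩
    have := hle F hF i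
    omega)
  refine blockSimple_of_adjoin _ B T (Finset.filter_subset _ _) ?_ Q ?_ h1 (h3 0)
  · calc T.card = ∑ i ∈ T, 1 := by simp
      _ ≤ ∑ i ∈ T, c i := Finset.sum_le_sum fun i hi => by
        rw [Finset.mem_filter] at hi; omega
      _ ≤ ∑ i ∈ B, c i := Finset.sum_le_sum_of_subset (Finset.filter_subset _ _)
      _ ≤ r := hB
  · have h4 : (P.map fun F => F.act B).sum = ∑ i ∈ B, c i + (P.map Fml.uses).sum := sum_act B P
    omega

end Pool.Agent.V8H51.PIT
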