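import Pool.Agent.V8H51.PIT.Fam

/-!
# Simplicity up to denominators
-/

set_option autoImplicit false

namespace Pool.Agent.V8H51.PIT

open MvPolynomial Finset

/-- polynomials in the parameters, as polynomials in the parameters and the variables -/
noncomputable abbrev emb (n M : ℕ) :
    MvPolynomial (Fin M) ℂ →ₐ[ℂ] MvPolynomial (Fin M ⊕ Fin n) ℂ :=
  rename Sum.inl

theorem emb_injective (n M : ℕ) : Function.Injective (emb n M) :=
  rename_injective _ Sum.inl_injective

section loc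

variable {n M : ℕ} (B : Finset (Fin n))

/-- the algebra generated by `Q` and the variables in `B` -/
noncomputable def genAlg (Q : Finset (MvPolynomial (Fin M) ℂ)) :
    Subalgebra ℂ (MvPolynomial (Fin M ⊕ Fin n) ℂ) :=
  Algebra.adjoin ℂ ((emb n M) '' (Q : Set (MvPolynomial (Fin M) ℂ)) ∪
    (fun i => X (Sum.inr i)) '' (B : Set (Fin n)))

theorem genAlg_mono {Q Q' : Finset (MvPolynomial (Fin M) ℂ)} (h : Q ⊆ Q') :
    genAlg B Q ≤ genAlg B Q' :=
  Algebra.adjoin_mono (Set.union_subset_union_left _ (Set.image_mono (by exact_mod_cast h)))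

theorem emb_mem_genAlg {Q : Finset (MvPolynomial (Fin M) ℂ)} {δ : MvPolynomial (Fin M) ℂ}
    (h : δ ∈ Algebra.adjoin ℂ (Q : Set (MvPolynomial (Fin M) ℂ))) : emb n M δ ∈ genAlg B Q := by
  have h1 : emb n M δ ∈ (Algebra.adjoin ℂ (Q : Set (MvPolynomial (Fin M) ℂ))).map (emb n M) :=
    ⟨δ, h, rfl⟩
  rw [AlgHom.map_adjoin] at h1
  exact Algebra.adjoin_mono Set.subset_union_left h1

/-- the polynomials which lie in the algebra generated by `Q` and the variables in `B` after
multiplication by some nonzero element of the algebra generated by `Q` -/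
noncomputable def loc (Q : Finset (MvPolynomial (Fin M) ℂ)) :
    Subalgebra ℂ (MvPolynomial (Fin M ⊕ Fin n) ℂ) where
  carrier := {g | ∃ δ ∈ Algebra.adjoin ℂ (Q : Set (MvPolynomial (Fin M) ℂ)), δ ≠ 0 ∧
    emb n M δ * g ∈ genAlg B Q}
  mul_mem' := by
    rintro a b ⟨δ, h1, h2, h3⟩ ⟨δ', h1', h2', h3'⟩
    refine ⟨δ * δ', mul_mem h1 h1', mul_ne_zero h2 h2', ?_⟩
    have e : emb n M (δ * δ') * (a * b) = (emb n M δ * a) * (emb n M δ' * b) := by
      rw [map_mul]; ring
    rw [e]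
    exact mul_mem h3 h3'
  add_mem' := by
    rintro a b ⟨δ, h1, h2, h3⟩ ⟨δ', h1', h2', h3'⟩
    refine ⟨δ * δ', mul_mem h1 h1', mul_ne_zero h2 h2', ?_⟩
    have e : emb n M (δ * δ') * (a + b) =
        emb n M δ' * (emb n M δ * a) + emb n M δ * (emb n M δ' * b) := by
      rw [map_mul]; ring
    rw [e]
    exact add_mem (mul_mem (emb_mem_genAlg B h1') h3) (mul_mem (emb_mem_genAlg B h1) h3')
  algebraMap_mem' := by
    intro c
    refine ⟨1, one_mem _, one_ne_zero, ?_⟩
    rw [map_one, one_mul]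
    exact Subalgebra.algebraMap_mem _ c

theorem loc_mono {Q Q' : Finset (MvPolynomial (Fin M) ℂ)} (h : Q ⊆ Q') : loc B Q ≤ loc B Q' := by
  rintro g ⟨δ, h1, h2, h3⟩
  exact ⟨δ, Algebra.adjoin_mono (by exact_mod_cast h) h1, h2, genAlg_mono B h h3⟩

theorem genAlg_le_loc (Q : Finset (MvPolynomial (Fin M) ℂ)) : genAlg B Q ≤ loc B Q := by
  intro g hg
  exact ⟨1, one_mem _, one_ne_zero, by rwa [map_one, one_mul]⟩

theorem emb_mem_loc {Q : Finset (MvPolynomial (Fin M) ℂ)} {q : MvPolynomial (Fin M) ℂ}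
    (h : q ∈ Q) : emb n M q ∈ loc B Q :=
  genAlg_le_loc B Q (Algebra.subset_adjoin (Or.inl ⟨q, h, rfl⟩))

theorem X_mem_loc {Q : Finset (MvPolynomial (Fin M) ℂ)} {i : Fin n} (h : i ∈ B) :
    (X (Sum.inr i) : MvPolynomial (Fin M ⊕ Fin n) ℂ) ∈ loc B Q :=
  genAlg_le_loc B Q (Algebra.subset_adjoin (Or.inr ⟨i, h, rfl⟩))

/-- denominators from `Q` may be removed -/
theorem mem_loc_of_mul {Q : Finset (MvPolynomial (Fin M) ℂ)} {q : MvPolynomial (Fin M) ℂ}
    (h : q ∈ Q) (hq : q ≠ 0) (k : ℕ) {g : MvPolynomial (Fin M ⊕ Fin n) ℂ}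
    (hg : emb n M q ^ k * g ∈ loc B Q) : g ∈ loc B Q := by
  obtain ⟨δ, h1, h2, h3⟩ := hg
  refine ⟨δ * q ^ k, mul_mem h1 (pow_mem (Algebra.subset_adjoin h) k),
    mul_ne_zero h2 (pow_ne_zero _ hq), ?_⟩
  have e : emb n M (δ * q ^ k) * g = emb n M δ * (emb n M q ^ k * g) := by
    rw [map_mul, map_pow]; ring
  rw [e]
  exact h3

/-- the substitution of a family -/
noncomputable def famSub (p : Fin n → MvPolynomial (Fin M) ℂ) :
    MvPolynomial (Fin n) ℂ →ₐ[ℂ] MvPolynomial (Fin M ⊕ Fin n) ℂ :=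
  aeval fun i => if i ∈ B then X (Sum.inr i) else emb n M (p i)

theorem eval_famSub (p : Fin n → MvPolynomial (Fin M) ℂ) (f : MvPolynomial (Fin n) ℂ)
    (x : Fin M → ℂ) (t : Fin n → ℂ) :
    eval (Sum.elim x t) (famSub B p f) = eval (mix B t fun i => eval x (p i)) f := by
  have h2 : (fun i => eval (Sum.elim x t) (if i ∈ B then X (Sum.inr i) else emb n M (p i))) =
      mix B t fun i => eval x (p i) := by
    funext i
    by_cases hi : i ∈ B
    · simp [mix, hi]
    · simp only [mix, hi, if_false, eval_rename]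
      rfl
  rw [← h2]
  exact eval_aeval _ _ _

end loc

/-- simplicity up to denominators is enough -/
theorem famSimple_of_loc {n N : ℕ} (f : MvPolynomial (Fin n) ℂ) (B : Finset (Fin n))
    (H : ∀ (M : ℕ) (p : Fin n → MvPolynomial (Fin M) ℂ),
      ∃ Q : Finset (MvPolynomial (Fin M) ℂ), Q.card + B.card ≤ N ∧ famSub B p f ∈ loc B Q) :
    FamSimple f B N := by
  classical
  intro M p hne
  obtain ⟨Q, hQ, δ, hδ1, hδ2, hδ3⟩ := H M p
  let e := B.equivFin
  let g := Q.equivFin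
  let q : Fin Q.card → MvPolynomial (Fin M) ℂ := fun l => (g.symm l : MvPolynomial (Fin M) ℂ)
  let w : Fin Q.card ⊕ Fin B.card → MvPolynomial (Fin M ⊕ Fin n) ℂ :=
    Sum.elim (fun l => emb n M (q l)) (fun a => X (Sum.inr (e.symm a : Fin n)))
  have hrange : emb n M δ * famSub B p f ∈ Algebra.adjoin ℂ (Set.range w) := by
    refine Algebra.adjoin_mono ?_ hδ3
    rintro p (⟨a, ha, rfl⟩ | ⟨i, hi, rfl⟩)
    · exact ⟨Sum.inl (g ⟨a, ha⟩), by simp [w, q]⟩
    · exact ⟨Sum.inr (e ⟨i, hi⟩), by simp [w]⟩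
  rw [Algebra.adjoin_range_eq_range_aeval] at hrange
  obtain ⟨Φ, hΦ⟩ := hrange
  have hev : ∀ (x : Fin M → ℂ) (t : Fin n → ℂ),
      eval (Sum.elim (fun l => eval x (q l)) (fun a => t (e.symm a : Fin n))) Φ =
        eval (Sum.elim x t) (emb n M δ * famSub B p f) := by
    intro x t
    rw [← hΦ]
    change _ = eval (Sum.elim x t) (aeval w Φ)
    rw [eval_aeval]
    congr 2
    funext s
    rcases s with l | a
    · simp only [Sum.elim_inl, w, eval_rename]
      rfl
    · simp [w]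
  have hne' : emb n M δ * famSub B p f ≠ 0 := by
    refine mul_ne_zero ?_ ?_
    · intro h
      exact hδ2 (emb_injective n M (by rw [h, map_zero]))
    · obtain ⟨x, t, h⟩ := hne
      intro h0
      apply h
      rw [← eval_famSub, h0, map_zero]
  obtain ⟨y, hy⟩ := exists_eval_ne_zero' hne'
  have hy' : y = Sum.elim (fun m => y (Sum.inl m)) (fun i => y (Sum.inr i)) := by
    funext s
    rcases s with m | i <;> rfl
  refine ⟨Q.card, B.card, fun a => (e.symm a : Fin n), q, Φ, hQ, ?_, ?_, ?_, ?_⟩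
  · intro a b hab
    exact e.symm.injective (Subtype.ext hab)
  · intro a
    exact (e.symm a).2
  · refine ⟨fun m => y (Sum.inl m), fun i => y (Sum.inr i), ?_⟩
    have h1 := hev (fun m => y (Sum.inl m)) (fun i => y (Sum.inr i))
    rw [← hy'] at h1
    exact h1.symm ▸ hy
  · intro x t hx
    rw [hev, map_mul] at hx
    rw [← eval_famSub]
    exact right_ne_zero_of_mul hx

end Pool.Agent.V8H51.PIT
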