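import Mathlib

/-!
# Polynomials of small width in a fixed order of the variables, and the recursive generator
-/

set_option autoImplicit false

namespace Pool.Agent.V8H51.PIT

open MvPolynomial

/-- `f` has width at most `w`: for every cut `i` there are at most `w` polynomials `q` in the
variables `x_j`, `j < i`, such that `f` is a polynomial in these `q` and the variables `x_j`,
`j ≥ i`. -/
def WidthLE {n : ℕ} (f : MvPolynomial (Fin n) ℂ) (w : ℕ) : Prop :=
  ∀ i : ℕ, ∃ Q : Finset (MvPolynomial (Fin n) ℂ), Q.card ≤ w ∧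
    (∀ q ∈ Q, q ∈ Algebra.adjoin ℂ (X '' {j : Fin n | (j : ℕ) < i})) ∧
    f ∈ Algebra.adjoin ℂ ((Q : Set (MvPolynomial (Fin n) ℂ)) ∪ X '' {j : Fin n | i ≤ (j : ℕ)})

/-- The recursive generator. `gen w l S` is a sequence of length `2 ^ l`, it depends on the seed
`S 0, …, S (l (w + 1))`. Its first half is `gen w l S'` for the sequence `S' m = S (m + 1)`, its
second half is `gen w l S''` for `S'' j = ∑_m S (m + 1) ((j + 1) S 0) ^ m`, `m < (l + 1) (w + 1)`. -/
def gen {R : Type*} [CommSemiring R] (w : ℕ) : ℕ → (ℕ → R) → ℕ → R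
  | 0, S, _ => S 0
  | l + 1, S, i =>
    if i < 2 ^ l then gen w l (fun m => S (m + 1)) i
    else gen w l (fun j => ∑ m ∈ Finset.range ((l + 1) * (w + 1)),
      S (m + 1) * (((j : R) + 1) * S 0) ^ m) (i - 2 ^ l)

/-- The set of all points with coordinates `gen w L S i`, `i < n`, for the seeds
`S 0, …, S (L (w + 1)) ≤ D`. -/
def genPoints (n w L D : ℕ) : Finset (Fin n → ℕ) :=
  Finset.univ.image fun S : Fin (L * (w + 1) + 1) → Fin (D + 1) =>
    fun i : Fin n => gen w L (fun m => if h : m < L * (w + 1) + 1 then (S ⟨m, h⟩ : ℕ) else 0) i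

end Pool.Agent.V8H51.PIT
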