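import Pool.Agent.V8H51.PIT.Block
import Pool.Agent.V8H51.PIT.PrefixDefs

/-!
# The recursive generator hits the polynomials of small width
-/

set_option autoImplicit false

namespace Pool.Agent.V8H51.PIT

open MvPolynomial Finset

theorem gen_congr {R : Type*} [CommSemiring R] (w l : ℕ) : ∀ (S S' : ℕ → R),
    (∀ m, m ≤ l * (w + 1) → S m = S' m) → ∀ i, gen w l S i = gen w l S' i := by
  induction l with
  | zero => intro S S' h i; exact h 0 (by omega)
  | succ l ih =>
    intro S S' h i
    have h0 : S 0 = S' 0 := h 0 (Nat.zero_le _)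
    simp only [gen]
    have e : (l + 1) * (w + 1) = l * (w + 1) + w + 1 := by ring
    split_ifs
    · exact ih _ _ (fun m hm => h _ (by omega)) i
    · refine ih _ _ (fun j _ => ?_) _
      refine Finset.sum_congr rfl fun m hm => ?_
      rw [Finset.mem_range] at hm
      rw [h0, h (m + 1) (by omega)]

theorem map_gen {R R' : Type*} [CommSemiring R] [CommSemiring R'] (φ : R →+* R') (w l : ℕ) :
    ∀ (S : ℕ → R) (i : ℕ), φ (gen w l S i) = gen w l (fun m => φ (S m)) i := by
  induction l with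
  | zero => intro S i; rfl
  | succ l ih =>
    intro S i
    simp only [gen]
    split_ifs
    · exact ih _ _
    · rw [ih]
      congr 1
      funext j
      simp only [map_sum, map_mul, map_pow, map_add, map_natCast, map_one]

theorem totalDegree_gen {σ : Type*} (w l : ℕ) : ∀ (S : ℕ → MvPolynomial σ ℂ) (δ : ℕ)
    (_ : ∀ m, (S m).totalDegree ≤ δ) (i : ℕ),
    (gen w l S i).totalDegree ≤ δ * (l.factorial * (w + 1) ^ l) := by
  induction l with
  | zero => intro S δ h i; simpa [gen] using h 0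
  | succ l ih =>
    intro S δ h i
    have e : δ * ((l + 1).factorial * (w + 1) ^ (l + 1)) =
        (δ * ((l + 1) * (w + 1))) * (l.factorial * (w + 1) ^ l) := by
      rw [Nat.factorial_succ, pow_succ]; ring
    have h1 : 1 ≤ (l + 1) * (w + 1) := Nat.mul_pos (Nat.succ_pos _) (Nat.succ_pos _)
    rw [e]
    simp only [gen]
    split_ifs
    · refine (ih (fun m => S (m + 1)) δ (fun m => h _) i).trans ?_
      exact Nat.mul_le_mul_right _ (Nat.le_mul_of_pos_right _ h1)
    · refine ih _ _ (fun j => ?_) _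
      refine (totalDegree_finsetSum _ _).trans (Finset.sup_le fun m hm => ?_)
      rw [Finset.mem_range] at hm
      refine (totalDegree_mul _ _).trans ?_
      have h2 : ((((j : MvPolynomial σ ℂ) + 1) * S 0) ^ m).totalDegree ≤ m * δ := by
        refine (totalDegree_pow _ _).trans (Nat.mul_le_mul_left _ ?_)
        refine (totalDegree_mul _ _).trans ?_
        have h3 : ((j : MvPolynomial σ ℂ) + 1).totalDegree = 0 := by
          have : ((j : MvPolynomial σ ℂ) + 1) = C ((j : ℂ) + 1) := by simp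
          rw [this, totalDegree_C]
        rw [h3, zero_add]
        exact h 0
      calc (S (m + 1)).totalDegree + ((((j : MvPolynomial σ ℂ) + 1) * S 0) ^ m).totalDegree
          ≤ δ + m * δ := Nat.add_le_add (h _) h2
        _ = δ * (m + 1) := by ring
        _ ≤ δ * ((l + 1) * (w + 1)) := Nat.mul_le_mul_left _ (by omega)

theorem eval_congr_adjoin {n : ℕ} {A : Set (Fin n)} {q : MvPolynomial (Fin n) ℂ}
    (hq : q ∈ Algebra.adjoin ℂ (X '' A)) (x x' : Fin n → ℂ) (h : ∀ i ∈ A, x i = x' i) :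
    eval x q = eval x' q := by
  induction hq using Algebra.adjoin_induction with
  | mem p hp =>
    obtain ⟨i, hi, rfl⟩ := hp
    simp [h i hi]
  | algebraMap c => simp [MvPolynomial.algebraMap_eq]
  | add p q _ _ hp hq => rw [map_add, map_add, hp, hq]
  | mul p q _ _ hp hq => rw [map_mul, map_mul, hp, hq]

/-- the point `y` with a block replaced by the generator -/
noncomputable def blockPoint {n : ℕ} (w l p : ℕ) (S : ℕ → ℂ) (y : Fin n → ℂ) (j : Fin n) : ℂ :=
  if p ≤ (j : ℕ) ∧ (j : ℕ) < p + 2 ^ l then gen w l S (j - p) else y j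

/-- extension by zero -/
def ext0 {R : Type*} [Zero R] {k : ℕ} (S : Fin k → R) (m : ℕ) : R :=
  if h : m < k then S ⟨m, h⟩ else 0

theorem map_ext0 {R R' : Type*} [CommSemiring R] [CommSemiring R'] (φ : R →+* R') {k : ℕ}
    (S : Fin k → R) : (fun m => φ (ext0 S m)) = ext0 fun i => φ (S i) := by
  funext m
  simp only [ext0]
  split_ifs
  · rfl
  · exact map_zero φ

theorem width_step {n w : ℕ} (f : MvPolynomial (Fin n) ℂ) (hf : WidthLE f w) :
    ∀ (l p : ℕ) (y : Fin n → ℂ), eval y f ≠ 0 →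
      ∃ S : ℕ → ℂ, eval (blockPoint w l p S y) f ≠ 0 := by
  classical
  intro l
  induction l with
  | zero =>
    intro p y hy
    by_cases hp : p < n
    · refine ⟨fun _ => y ⟨p, hp⟩, ?_⟩
      convert hy using 3
      funext j
      simp only [blockPoint, gen]
      split_ifs with h
      · congr 1
        apply Fin.ext
        simp only
        omega
      · rfl
    · refine ⟨fun _ => 0, ?_⟩
      convert hy using 3
      funext j
      simp only [blockPoint]
      rw [if_neg]
      have := j.2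
      omega
  | succ l ih =>
    intro p y hy
    obtain ⟨S1, h1⟩ := ih p y hy
    obtain ⟨S2, h2⟩ := ih (p + 2 ^ l) _ h1
    obtain ⟨Q, hQ1, hQ2, hQ3⟩ := hf (p + 2 ^ l)
    set mid := p + 2 ^ l with hmid
    let g := Q.equivFin
    let q : Fin w → MvPolynomial (Fin n) ℂ := fun a =>
      if h : (a : ℕ) < Q.card then (g.symm ⟨a, h⟩ : MvPolynomial (Fin n) ℂ) else 0
    have hq : ∀ a, q a ∈ Algebra.adjoin ℂ (X '' {j : Fin n | (j : ℕ) < mid}) := by
      intro a
      simp only [q]
      split_ifs with h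
      · exact hQ2 _ (g.symm ⟨a, h⟩).2
      · exact zero_mem _
    have hrange : f ∈ Algebra.adjoin ℂ (Set.range
        (Sum.elim q (fun j : {j : Fin n // mid ≤ (j : ℕ)} => (X (j : Fin n) : MvPolynomial (Fin n) ℂ)))) := by
      refine Algebra.adjoin_mono ?_ hQ3
      rintro u (hu | ⟨j, hj, rfl⟩)
      · refine ⟨Sum.inl ⟨(g ⟨u, hu⟩ : ℕ), ?_⟩, ?_⟩
        · exact (g ⟨u, hu⟩).2.trans_le hQ1
        · simp only [Sum.elim_inl, q]
          rw [dif_pos (g ⟨u, hu⟩).2]
          simp
      · exact ⟨Sum.inr ⟨j, hj⟩, by simp⟩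
    rw [Algebra.adjoin_range_eq_range_aeval] at hrange
    obtain ⟨F, hF⟩ := hrange
    have hF' : aeval (Sum.elim q (fun j : {j : Fin n // mid ≤ (j : ℕ)} =>
      (X (j : Fin n) : MvPolynomial (Fin n) ℂ))) F = f := hF
    set M := (l + 1) * (w + 1) with hM
    set k := l * (w + 1) + 1 with hk
    have hMk : w + k ≤ M := by
      rw [hM, hk]
      apply le_of_eq
      ring
    let q' : Fin w → MvPolynomial (Fin M) ℂ := fun a =>
      aeval (fun j : Fin n => if p ≤ (j : ℕ) ∧ (j : ℕ) < mid then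
        gen w l (ext0 fun m : Fin M => (X m : MvPolynomial (Fin M) ℂ)) (j - p) else C (y j)) (q a)
    let Φ : MvPolynomial (Fin w ⊕ Fin k) ℂ :=
      aeval (Sum.elim (fun a => X (Sum.inl a)) (fun j : {j : Fin n // mid ≤ (j : ℕ)} =>
        if ((j : Fin n) : ℕ) < mid + 2 ^ l then
          gen w l (ext0 fun m : Fin k => (X (Sum.inr m) : MvPolynomial (Fin w ⊕ Fin k) ℂ)) (j - mid)
        else C (y j))) F
    let pt : (Fin M → ℂ) → (Fin k → ℂ) → Fin n → ℂ := fun S t j =>
      if p ≤ (j : ℕ) ∧ (j : ℕ) < mid then gen w l (ext0 S) (j - p)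
      else if mid ≤ (j : ℕ) ∧ (j : ℕ) < mid + 2 ^ l then gen w l (ext0 t) (j - mid) else y j
    have hΦ : ∀ (S : Fin M → ℂ) (t : Fin k → ℂ),
        eval (Sum.elim (fun a => eval S (q' a)) t) Φ = eval (pt S t) f := by
      intro S t
      rw [← hF']
      simp only [Φ]
      rw [eval_aeval, eval_aeval]
      congr 2
      funext s
      rcases s with a | j
      · simp only [Sum.elim_inl, eval_X, q']
        rw [eval_aeval]
        refine eval_congr_adjoin (hq a) _ _ fun j hj => ?_
        have hj' : (j : ℕ) < mid := hj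
        simp only [pt]
        by_cases hc : p ≤ (j : ℕ) ∧ (j : ℕ) < mid
        · rw [if_pos hc, if_pos hc, map_gen, map_ext0]
          simp only [eval_X]
        · rw [if_neg hc, if_neg hc, if_neg (by omega), eval_C]
      · simp only [Sum.elim_inr, eval_X]
        have hj' := j.2
        simp only [pt]
        rw [if_neg (show ¬ (p ≤ ((j : Fin n) : ℕ) ∧ ((j : Fin n) : ℕ) < mid) by omega)]
        by_cases hc : ((j : Fin n) : ℕ) < mid + 2 ^ l
        · rw [if_pos hc, if_pos ⟨hj', hc⟩, map_gen, map_ext0]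
          simp only [eval_X, Sum.elim_inr]
        · rw [if_neg hc, if_neg (fun h => hc h.2), eval_C]
    obtain ⟨S, z, hSz⟩ := condenser hMk q' Φ (fun i => (i : ℕ) + 1)
      (fun a b hab => Fin.ext (by simpa using hab)) (fun i => Nat.succ_pos _)
      ⟨fun m => S1 m, fun m => S2 m, by
        rw [hΦ]
        convert h2 using 3
        funext j
        simp only [pt, blockPoint, ← hmid]
        by_cases hc : p ≤ (j : ℕ) ∧ (j : ℕ) < mid
        · rw [if_pos hc, if_neg (by omega), if_pos hc]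
          refine gen_congr w l _ _ (fun m hm => ?_) _
          simp only [ext0]
          rw [dif_pos (by omega)]
        · rw [if_neg hc]
          by_cases hc2 : mid ≤ (j : ℕ) ∧ (j : ℕ) < mid + 2 ^ l
          · rw [if_pos hc2, if_pos hc2]
            refine gen_congr w l _ _ (fun m hm => ?_) _
            simp only [ext0]
            rw [dif_pos (by omega)]
          · rw [if_neg hc2, if_neg hc2, if_neg hc]⟩
    rw [hΦ] at hSz
    refine ⟨fun m => if m = 0 then z else ext0 S (m - 1), ?_⟩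
    convert hSz using 3
    funext j
    have e2 : 2 ^ (l + 1) = 2 ^ l + 2 ^ l := by ring
    simp only [pt, blockPoint]
    by_cases hc : p ≤ (j : ℕ) ∧ (j : ℕ) < mid
    · rw [if_pos hc, if_pos (by omega)]
      simp only [gen]
      rw [if_pos (by omega)]
      refine gen_congr w l _ _ (fun m hm => ?_) _
      rw [if_neg (by omega)]
      rfl
    · rw [if_neg hc]
      by_cases hc2 : mid ≤ (j : ℕ) ∧ (j : ℕ) < mid + 2 ^ l
      · rw [if_pos hc2, if_pos (by omega)]
        simp only [gen]
        rw [if_neg (by omega)]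
        have e3 : (j : ℕ) - p - 2 ^ l = (j : ℕ) - mid := by omega
        rw [e3]
        refine gen_congr w l _ _ (fun m hm => ?_) _
        simp only [ext0]
        rw [dif_pos (show m < k by omega)]
        rw [← hM, Finset.sum_range]
        refine Finset.sum_congr rfl fun a _ => ?_
        rw [if_neg (Nat.succ_ne_zero _)]
        simp only [Nat.add_sub_cancel, if_true]
        rw [dif_pos a.2]
        push_cast
        rfl
      · rw [if_neg hc2, if_neg (by omega)]

theorem width_gen_hit {n w L d : ℕ} (hn : n ≤ 2 ^ L) (f : MvPolynomial (Fin n) ℂ) (hw : WidthLE f w)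
    (hd : f.totalDegree ≤ d) (hf : f ≠ 0) :
    ∃ a ∈ genPoints n w L (d * (L.factorial * (w + 1) ^ L)), eval (fun i => (a i : ℂ)) f ≠ 0 := by
  classical
  obtain ⟨y, hy⟩ := exists_eval_ne_zero' hf
  obtain ⟨S, hS⟩ := width_step f hw L 0 y hy
  let G : Fin n → MvPolynomial (Fin (L * (w + 1) + 1)) ℂ := fun i =>
    gen w L (ext0 fun m => (X m : MvPolynomial (Fin (L * (w + 1) + 1)) ℂ)) i
  have hG : ∀ T : Fin (L * (w + 1) + 1) → ℂ,
      eval T (aeval G f) = eval (fun i : Fin n => gen w L (ext0 T) i) f := by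
    intro T
    rw [eval_aeval]
    congr 2
    funext i
    simp only [G]
    rw [map_gen, map_ext0]
    simp only [eval_X]
  have hne : aeval G f ≠ 0 := by
    intro h
    apply hS
    have h1 := hG fun m => S m
    rw [h, map_zero] at h1
    rw [h1]
    congr 2
    funext j
    simp only [blockPoint]
    rw [if_pos ⟨Nat.zero_le _, by have := j.2; omega⟩]
    refine gen_congr w L _ _ (fun m hm => ?_) _
    simp only [ext0]
    rw [dif_pos (by omega)]
  have hdeg : ∀ t, (aeval G f).degreeOf t ≤ d * (L.factorial * (w + 1) ^ L) := by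
    intro t
    refine (degreeOf_aeval_le f G t (L.factorial * (w + 1) ^ L) ?_).trans ?_
    · intro i
      refine (degreeOf_le_totalDegree _ _).trans ?_
      refine (totalDegree_gen w L _ 1 ?_ i).trans (le_of_eq (one_mul _))
      intro m
      simp only [ext0]
      split_ifs
      · simp
      · simp
    · rw [mul_comm]
      exact Nat.mul_le_mul_right _ hd
  obtain ⟨T, hT, hT2⟩ := exists_grid hne _ hdeg
  rw [hG] at hT2
  refine ⟨fun i : Fin n => gen w L (ext0 T) i, ?_, ?_⟩
  · rw [genPoints, Finset.mem_image]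
    exact ⟨fun m => ⟨T m, Nat.lt_succ_of_le (hT m)⟩, Finset.mem_univ _, rfl⟩
  · convert hT2 using 3
    funext i
    have h1 := map_gen (Nat.castRingHom ℂ) w L (ext0 T) (i : ℕ)
    rw [map_ext0] at h1
    simpa using h1

theorem card_genPoints_le (n w L D : ℕ) : (genPoints n w L D).card ≤ (D + 1) ^ (L * (w + 1) + 1) := by
  refine Finset.card_image_le.trans ?_
  rw [Finset.card_univ]
  simp only [Fintype.card_fun, Fintype.card_fin]
  exact le_rfl

theorem WidthLE.of_le {n w : ℕ} (f : MvPolynomial (Fin n) ℂ)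
    (h : ∀ i : ℕ, i ≤ n → ∃ Q : Finset (MvPolynomial (Fin n) ℂ), Q.card ≤ w ∧
    (∀ q ∈ Q, q ∈ Algebra.adjoin ℂ (X '' {j : Fin n | (j : ℕ) < i})) ∧
    f ∈ Algebra.adjoin ℂ ((Q : Set (MvPolynomial (Fin n) ℂ)) ∪ X '' {j : Fin n | i ≤ (j : ℕ)})) :
    WidthLE f w := by
  intro i
  by_cases hin : i ≤ n
  · exact h i hin
  · obtain ⟨Q, h1, h2, h3⟩ := h n le_rfl
    have h4 : (X '' {j : Fin n | (j : ℕ) < n} : Set (MvPolynomial (Fin n) ℂ)) ⊆
        X '' {j : Fin n | (j : ℕ) < i} := by
      rintro _ ⟨j, hj, rfl⟩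
      exact ⟨j, j.2.trans (not_le.1 hin), rfl⟩
    have h5 : (Q : Set (MvPolynomial (Fin n) ℂ)) ∪ X '' {j : Fin n | n ≤ (j : ℕ)} ⊆
        (Q : Set (MvPolynomial (Fin n) ℂ)) ∪ X '' {j : Fin n | i ≤ (j : ℕ)} := by
      rintro u (hu | ⟨j, hj, rfl⟩)
      · exact Or.inl hu
      · exact absurd j.2 (not_lt.2 hj)
    exact ⟨Q, h1, fun q hq => Algebra.adjoin_mono h4 (h2 q hq), Algebra.adjoin_mono h5 h3⟩

/-- Every polynomial computed by a machine which reads `x_0, x_1, …` once, in this order, and whose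
state consists of `w` polynomials has width at most `w`. -/
theorem widthLE_of_states {n w : ℕ} (f : MvPolynomial (Fin n) ℂ)
    (st : ℕ → Fin w → MvPolynomial (Fin n) ℂ)
    (upd : ℕ → Fin w → MvPolynomial (Fin w ⊕ Unit) ℂ) (out : MvPolynomial (Fin w) ℂ)
    (h0 : ∀ a, ∃ c : ℂ, st 0 a = C c)
    (hst : ∀ (i : Fin n) a, st (i + 1) a =
      aeval (Sum.elim (st i) (fun _ : Unit => X i)) (upd i a))
    (hf : f = aeval (st n) out) : WidthLE f w := by
  classical
  have hstep : ∀ (A : Subalgebra ℂ (MvPolynomial (Fin n) ℂ)) (i : Fin n), X i ∈ A →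
      (∀ a, st i a ∈ A) → ∀ a, st (i + 1) a ∈ A := by
    intro A i hX hA a
    rw [hst i a]
    have h3 : Algebra.adjoin ℂ (Set.range (Sum.elim (st i) (fun _ : Unit => X i))) ≤ A := by
      rw [Algebra.adjoin_le_iff]
      rintro _ ⟨s, rfl⟩
      rcases s with b | u
      · exact hA b
      · exact hX
    refine h3 ?_
    rw [Algebra.adjoin_range_eq_range_aeval]
    exact ⟨_, rfl⟩
  have hout : ∀ (A : Subalgebra ℂ (MvPolynomial (Fin n) ℂ)), (∀ a, st n a ∈ A) → f ∈ A := by
    intro A hA
    rw [hf]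
    have h5 : Algebra.adjoin ℂ (Set.range (st n)) ≤ A := by
      rw [Algebra.adjoin_le_iff]
      rintro _ ⟨s, rfl⟩
      exact hA s
    refine h5 ?_
    rw [Algebra.adjoin_range_eq_range_aeval]
    exact ⟨_, rfl⟩
  have hpre : ∀ i : ℕ, i ≤ n → ∀ a, st i a ∈ Algebra.adjoin ℂ (X '' {j : Fin n | (j : ℕ) < i}) := by
    intro i
    induction i with
    | zero =>
      intro _ a
      obtain ⟨c, hc⟩ := h0 a
      rw [hc]
      exact Subalgebra.algebraMap_mem _ c
    | succ i ih =>
      intro hi a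
      refine hstep _ ⟨i, hi⟩ ?_ ?_ a
      · exact Algebra.subset_adjoin ⟨⟨i, hi⟩, Nat.lt_succ_self i, rfl⟩
      · intro b
        have h4 : (X '' {j : Fin n | (j : ℕ) < i} : Set (MvPolynomial (Fin n) ℂ)) ⊆
            X '' {j : Fin n | (j : ℕ) < i + 1} := by
          rintro _ ⟨j, hj, rfl⟩
          exact ⟨j, Nat.lt_succ_of_lt hj, rfl⟩
        exact Algebra.adjoin_mono h4 (ih (by omega) b)
  refine WidthLE.of_le f fun i hin => ?_
  obtain ⟨Q, hQ1, hQ2, hQ3⟩ : ∃ Q : Finset (MvPolynomial (Fin n) ℂ), Q.card ≤ w ∧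
      (∀ a, st i a ∈ Q) ∧ ∀ q ∈ Q, ∃ a, q = st i a := by
    refine ⟨Finset.univ.image (st i), Finset.card_image_le.trans (by simp), fun a =>
      Finset.mem_image.2 ⟨a, Finset.mem_univ _, rfl⟩, fun q hq => ?_⟩
    obtain ⟨a, -, h⟩ := Finset.mem_image.1 hq
    exact ⟨a, h.symm⟩
  refine ⟨Q, hQ1, ?_, hout _ ?_⟩
  · intro q hq
    obtain ⟨a, rfl⟩ := hQ3 q hq
    exact hpre i hin a
  · obtain ⟨A, hA⟩ : ∃ A, A = Algebra.adjoin ℂ ((Q : Set (MvPolynomial (Fin n) ℂ)) ∪
      X '' {j : Fin n | i ≤ (j : ℕ)}) := ⟨_, rfl⟩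
    rw [← hA]
    have hXA : ∀ j : Fin n, i ≤ (j : ℕ) → X j ∈ A := fun j hj => by
      rw [hA]; exact Algebra.subset_adjoin (Or.inr ⟨j, hj, rfl⟩)
    have h0A : ∀ a, st i a ∈ A := fun a => by
      rw [hA]; exact Algebra.subset_adjoin (Or.inl (hQ2 a))
    have key : ∀ j : ℕ, i + j ≤ n → ∀ a, st (i + j) a ∈ A := by
      intro j
      induction j with
      | zero => exact fun _ a => h0A a
      | succ j ihj =>
        intro hj a
        have hlt : i + j < n := by omega
        have h1 := hstep A ⟨i + j, hlt⟩ (hXA ⟨i + j, hlt⟩ (Nat.le_add_right _ _))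
          (ihj (by omega)) a
        have h2 : i + (j + 1) = ((⟨i + j, hlt⟩ : Fin n) : ℕ) + 1 := rfl
        rw [h2]
        exact h1
    have := key (n - i) (by omega)
    rwa [Nat.add_sub_cancel' hin] at this

end Pool.Agent.V8H51.PIT
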