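import Mathlib

/-!
# The explicit point sets
-/

set_option autoImplicit false

namespace Pool.Agent.V8H51.PIT

/-- The thresholds `a 0, …, a (b - 1)` cut `{0, …, n - 1}` into at most `b + 1` intervals: the
number of the interval of `i` is the number of thresholds `≤ i`. -/
def interval {n b : ℕ} (a : Fin b → Fin (n + 1)) (i : Fin n) : Fin (b + 1) :=
  ⟨(Finset.univ.filter fun l => (a l : ℕ) ≤ (i : ℕ)).card,
    Nat.lt_succ_of_le ((Finset.card_filter_le _ _).trans (by simp))⟩

/-- The point with the coordinates `∑_{m < M} X_m ((i + 1) z_j)^m`, where `j` is the number of the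
interval of `i`. -/
def point {n b M : ℕ} (a : Fin b → Fin (n + 1)) (X : Fin M → ℕ) (z : Fin (b + 1) → ℕ) :
    Fin n → ℕ :=
  fun i => ∑ m : Fin M, X m * (((i : ℕ) + 1) * z (interval a i)) ^ (m : ℕ)

/-- The set of all points `point a X z` with thresholds `a l ≤ n` (`l < b`) and with numbers
`X m ≤ D` (`m < M`) and `z j ≤ D` (`j ≤ b`). -/
def points (n M b D : ℕ) : Finset (Fin n → ℕ) :=
  Finset.univ.image fun s : (Fin b → Fin (n + 1)) × (Fin M → Fin (D + 1)) ×
      (Fin (b + 1) → Fin (D + 1)) =>
    point s.1 (fun m => (s.2.1 m : ℕ)) (fun j => (s.2.2 j : ℕ))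

theorem card_points_le (n M b D : ℕ) :
    (points n M b D).card ≤ (n + 1) ^ b * (D + 1) ^ (M + b + 1) := by
  refine Finset.card_image_le.trans ?_
  rw [Finset.card_univ]
  simp only [Fintype.card_prod, Fintype.card_fun, Fintype.card_fin]
  rw [← pow_add, add_assoc]

end Pool.Agent.V8H51.PIT
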