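import Pool.Agent.V8H51.PIT.Block
import Pool.Agent.V8H51.PIT.Set

/-!
# Cutting the variables into intervals of small weight
-/

set_option autoImplicit false

namespace Pool.Agent.V8H51.PIT

open MvPolynomial Finset

/-- every monotone function is given by thresholds -/
theorem exists_thresholds {n b : ℕ} (H : Fin n → ℕ) (hH : Monotone H) (hb : ∀ i, H i ≤ b) :
    ∃ a : Fin b → Fin (n + 1), ∀ i, (interval a i : ℕ) = H i := by
  refine ⟨fun l => ⟨(Finset.univ.filter fun i : Fin n => H i ≤ l).card,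
    Nat.lt_succ_of_le ((Finset.card_filter_le _ _).trans (by simp))⟩, ?_⟩
  intro i
  have key : ∀ l : Fin b, (Finset.univ.filter fun i' : Fin n => H i' ≤ l).card ≤ (i : ℕ) ↔
      (l : ℕ) < H i := by
    intro l
    constructor
    · intro h
      by_contra hcon
      push Not at hcon
      have h1 : Finset.univ.filter (fun i' : Fin n => i' ≤ i) ⊆
          Finset.univ.filter fun i' : Fin n => H i' ≤ l := by
        intro i' hi'
        rw [Finset.mem_filter] at hi' ⊢
        exact ⟨hi'.1, (hH hi'.2).trans hcon⟩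
      have h2 := Finset.card_le_card h1
      have h3 : (Finset.univ.filter (fun i' : Fin n => i' ≤ i)).card = (i : ℕ) + 1 := by
        rw [← Fin.card_Iic]
        congr 1
        ext; simp
      omega
    · intro h
      have h1 : (Finset.univ.filter fun i' : Fin n => H i' ≤ l) ⊆
          Finset.univ.filter (fun i' : Fin n => i' < i) := by
        intro i' hi'
        rw [Finset.mem_filter] at hi' ⊢
        refine ⟨hi'.1, ?_⟩
        by_contra hcon
        have := hH (not_lt.1 hcon)
        omega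
      have h2 := Finset.card_le_card h1
      have h3 : (Finset.univ.filter (fun i' : Fin n => i' < i)).card = (i : ℕ) := by
        rw [← Fin.card_Iio]
        congr 1
        ext; simp
      omega
  simp only [interval, key]
  have h4 : (Finset.univ.filter fun l : Fin b => (l : ℕ) < H i) =
      (Finset.univ.filter fun l : Fin b => (l : ℕ) < H i) := rfl
  have h5 : (Finset.univ.filter fun l : Fin b => (l : ℕ) < H i).card = min (H i) b := by
    have h6 : (Finset.univ.filter fun l : Fin b => (l : ℕ) < H i).card =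
        ((Finset.univ.filter fun l : Fin b => (l : ℕ) < H i).image Fin.val).card :=
      (Finset.card_image_of_injective _ Fin.val_injective).symm
    have h7 : (Finset.univ.filter fun l : Fin b => (l : ℕ) < H i).image Fin.val =
        Finset.range (min (H i) b) := by
      ext l
      simp only [Finset.mem_image, Finset.mem_filter, Finset.mem_univ, true_and, Finset.mem_range,
        lt_min_iff]
      constructor
      · rintro ⟨l', h, rfl⟩
        exact ⟨h, l'.2⟩
      · rintro ⟨h1, h2⟩
        exact ⟨⟨l, h2⟩, h1, rfl⟩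
    rw [h6, h7, Finset.card_range]
  rw [h5]
  exact min_eq_left (hb i)

/-- the weight of the first `i` variables -/
def prefixWeight {n : ℕ} (c : Fin n → ℕ) (i : ℕ) : ℕ :=
  ∑ i' ∈ Finset.univ.filter (fun i' : Fin n => (i' : ℕ) < i), c i'

theorem prefixWeight_mono {n : ℕ} (c : Fin n → ℕ) : Monotone (prefixWeight c) := by
  intro i j hij
  refine Finset.sum_le_sum_of_subset fun i' hi' => ?_
  rw [Finset.mem_filter] at hi' ⊢
  exact ⟨hi'.1, hi'.2.trans_le hij⟩

theorem exists_cut {n s r : ℕ} (hr : 0 < r) (b : ℕ) (hb : 2 * (s / r) ≤ b) (c : Fin n → ℕ)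
    (hc : ∑ i, c i ≤ s) :
    ∃ a : Fin b → Fin (n + 1), ∀ j, ∑ i ∈ Finset.univ.filter (fun i => interval a i = j), c i ≤ r ∨
      (Finset.univ.filter fun i => interval a i = j).card ≤ 1 := by
  have htot : ∀ i, prefixWeight c i ≤ s := fun i =>
    (Finset.sum_le_sum_of_subset (Finset.filter_subset _ _)).trans hc
  let H : Fin n → ℕ := fun i => prefixWeight c i / r + prefixWeight c ((i : ℕ) + 1) / r
  have hH : Monotone H := by
    intro i j hij
    have h1 : (i : ℕ) ≤ j := hij
    exact add_le_add (Nat.div_le_div_right (prefixWeight_mono c h1))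
      (Nat.div_le_div_right (prefixWeight_mono c (by omega)))
  obtain ⟨a, ha⟩ := exists_thresholds (b := b) H hH (fun i => by
    have h1 := Nat.div_le_div_right (c := r) (htot i)
    have h2 := Nat.div_le_div_right (c := r) (htot ((i : ℕ) + 1))
    show prefixWeight c i / r + prefixWeight c ((i : ℕ) + 1) / r ≤ b
    omega)
  refine ⟨a, fun j => ?_⟩
  by_cases hcard : (Finset.univ.filter fun i => interval a i = j).card ≤ 1
  · exact Or.inr hcard
  left
  push Not at hcard
  set S := Finset.univ.filter fun i => interval a i = j with hS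
  have hne : S.Nonempty := Finset.card_pos.1 (by omega)
  obtain ⟨i1, hi1⟩ : ∃ i, i = S.min' hne := ⟨_, rfl⟩
  obtain ⟨i2, hi2⟩ : ∃ i, i = S.max' hne := ⟨_, rfl⟩
  have hm1 : i1 ∈ S := hi1 ▸ S.min'_mem hne
  have hm2 : i2 ∈ S := hi2 ▸ S.max'_mem hne
  have hlt : i1 < i2 := by
    rw [hi1, hi2]
    exact S.min'_lt_max'_of_card (by omega)
  have hval : ∀ i ∈ S, H i = j := by
    intro i hi
    rw [hS, Finset.mem_filter] at hi
    rw [← ha i, hi.2]
  have e1 := hval i1 hm1
  have e2 := hval i2 hm2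
  have hlt' : (i1 : ℕ) + 1 ≤ i2 := hlt
  have m1 : prefixWeight c i1 / r ≤ prefixWeight c ((i1 : ℕ) + 1) / r :=
    Nat.div_le_div_right (prefixWeight_mono c (by omega))
  have m2 : prefixWeight c ((i1 : ℕ) + 1) / r ≤ prefixWeight c (i2 : ℕ) / r :=
    Nat.div_le_div_right (prefixWeight_mono c hlt')
  have m3 : prefixWeight c (i2 : ℕ) / r ≤ prefixWeight c ((i2 : ℕ) + 1) / r :=
    Nat.div_le_div_right (prefixWeight_mono c (by omega))
  have e3 : prefixWeight c ((i2 : ℕ) + 1) / r = prefixWeight c i1 / r := by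
    simp only [H] at e1 e2
    omega
  have hsum : prefixWeight c i1 + ∑ i ∈ S, c i ≤ prefixWeight c ((i2 : ℕ) + 1) := by
    have hdisj : Disjoint (Finset.univ.filter fun i' : Fin n => (i' : ℕ) < i1) S := by
      rw [Finset.disjoint_left]
      intro i' hi' hi''
      rw [Finset.mem_filter] at hi'
      have : i1 ≤ i' := hi1 ▸ S.min'_le _ hi''
      have h4 : (i1 : ℕ) ≤ i' := this
      omega
    rw [prefixWeight, ← Finset.sum_union hdisj]
    refine Finset.sum_le_sum_of_subset fun i' hi' => ?_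
    rw [Finset.mem_union, Finset.mem_filter] at hi'
    rw [Finset.mem_filter]
    refine ⟨Finset.mem_univ _, ?_⟩
    rcases hi' with h | h
    · omega
    · have : i' ≤ i2 := hi2 ▸ S.le_max' _ h
      have h4 : (i' : ℕ) ≤ i2 := this
      omega
  have hd1 := Nat.div_add_mod (prefixWeight c ((i2 : ℕ) + 1)) r
  have hd2 := Nat.div_add_mod (prefixWeight c i1) r
  have hmod := Nat.mod_lt (prefixWeight c ((i2 : ℕ) + 1)) hr
  rw [e3] at hd1
  omega

/-- **The general theorem** on polynomials for which every set of variables of small weight is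
simple. -/
theorem weight_hit {n M ρ κ b s r d : ℕ} (hr : 0 < r) (hb : 2 * (s / r) ≤ b) (hM : ρ + κ ≤ M)
    (hM2 : 2 ≤ M) (f : MvPolynomial (Fin n) ℂ) (hf : f ≠ 0) (hd : f.totalDegree ≤ d)
    (c : Fin n → ℕ) (hc : ∑ i, c i ≤ s)
    (hB : ∀ B : Finset (Fin n), ∑ i ∈ B, c i ≤ r → BlockSimple f B ρ κ) :
    ∃ x ∈ points n M b (d * M), eval (fun i => (x i : ℂ)) f ≠ 0 := by
  obtain ⟨a, ha⟩ := exists_cut hr b hb c hc
  obtain ⟨X, z, hX, hz, h⟩ := block_hit hM hM2 f hf hd (interval a) (fun j => by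
    rcases ha j with h | h
    · exact Or.inl (hB _ h)
    · exact Or.inr h)
  refine ⟨point a X z, ?_, ?_⟩
  · rw [points, Finset.mem_image]
    exact ⟨(a, fun m => ⟨X m, Nat.lt_succ_of_le (hX m)⟩, fun j => ⟨z j, Nat.lt_succ_of_le (hz j)⟩),
      Finset.mem_univ _, rfl⟩
  · exact h

/-! ### Simplicity from generators -/

theorem blockSimple_of_adjoin {n ρ κ : ℕ} (f : MvPolynomial (Fin n) ℂ) (B T : Finset (Fin n))
    (hTB : T ⊆ B) (hT : T.card ≤ κ) (Q : Finset (MvPolynomial (Fin n) ℂ)) (hQ : Q.card ≤ ρ)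
    (hQB : ∀ q ∈ Q, ∀ x x' : Fin n → ℂ, (∀ i, i ∉ B → x i = x' i) → eval x q = eval x' q)
    (hf : f ∈ Algebra.adjoin ℂ ((Q : Set (MvPolynomial (Fin n) ℂ)) ∪ X '' (T : Set (Fin n)))) :
    BlockSimple f B ρ κ := by
  intro y hy
  classical
  let e := T.equivFin
  let g := Q.equivFin
  have hρ : ∀ l : Fin ρ, (l : ℕ) < Q.card ∨ ¬ (l : ℕ) < Q.card := fun l => em _
  let q : Fin ρ → MvPolynomial (Fin n) ℂ := fun l =>
    if h : (l : ℕ) < Q.card then (g.symm ⟨l, h⟩ : MvPolynomial (Fin n) ℂ) else 0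
  have hrange : f ∈ Algebra.adjoin ℂ (Set.range
      (Sum.elim q (fun a : Fin T.card => X (e.symm a : Fin n)) : Fin ρ ⊕ Fin T.card → _)) := by
    refine Algebra.adjoin_mono ?_ hf
    rintro p (hp | ⟨i, hi, rfl⟩)
    · refine ⟨Sum.inl ⟨(g ⟨p, hp⟩ : ℕ), ?_⟩, ?_⟩
      · exact (g ⟨p, hp⟩).2.trans_le hQ
      · simp only [Sum.elim_inl, q]
        rw [dif_pos (g ⟨p, hp⟩).2]
        simp
    · exact ⟨Sum.inr (e ⟨i, hi⟩), by simp⟩
  rw [Algebra.adjoin_range_eq_range_aeval] at hrange
  obtain ⟨Φ, hΦ⟩ := hrange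
  have hev : ∀ x : Fin n → ℂ, eval (Sum.elim (fun l => eval x (q l))
      (fun a => x (e.symm a : Fin n))) Φ = eval x f := by
    intro x
    rw [← hΦ]
    change _ = eval x (aeval _ Φ)
    rw [eval_aeval]
    congr 2
    funext s
    rcases s with l | a
    · rfl
    · simp
  refine ⟨T.card, fun a => (e.symm a : Fin n), q, Φ, hT, ?_, ?_, ?_, ?_, ?_⟩
  · intro a b hab
    exact e.symm.injective (Subtype.ext hab)
  · intro a
    exact hTB (e.symm a).2
  · intro l x x' hx
    by_cases h : (l : ℕ) < Q.card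
    · simp only [q, dif_pos h]
      exact hQB _ (g.symm ⟨l, h⟩).2 x x' hx
    · simp only [q, dif_neg h, map_zero]
  · rw [hev]; exact hy
  · intro x hx
    rwa [hev] at hx

end Pool.Agent.V8H51.PIT
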