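import Mathlib

/-!
# Oblivious branching programs with repeated reads
-/

set_option autoImplicit false

namespace Pool.Agent.V8H51.PIT

open MvPolynomial

/-- An oblivious program of width `w`: the step `(i, A)` reads `x_i` and multiplies with the matrix
`A (x_i)`, where `A (t)` is a `w × w` matrix of univariate polynomials. The variables are read in
any order, and any number of times. -/
abbrev WProg (n w : ℕ) : Type := List (Fin n × Matrix (Fin w) (Fin w) (Polynomial ℂ))

/-- The product `A_1 (x_{i_1}) A_2 (x_{i_2}) ⋯` of the matrices of a program. -/
noncomputable def progMatrix {n w : ℕ} (P : WProg n w) :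
    Matrix (Fin w) (Fin w) (MvPolynomial (Fin n) ℂ) :=
  (P.map fun s => s.2.map (Polynomial.aeval (X s.1 : MvPolynomial (Fin n) ℂ))).prod

end Pool.Agent.V8H51.PIT
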