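import Pool.Agent.V8H51.PIT.FmlProof
import Pool.Agent.V8H51.PIT.WidthDefs

/-!
# Oblivious programs of small width: every block with few reads is simple
-/

set_option autoImplicit false

namespace Pool.Agent.V8H51.PIT

open MvPolynomial Finset

theorem Inact.aeval_X {n : ℕ} {B : Finset (Fin n)} {i : Fin n} (hi : i ∉ B) (p : Polynomial ℂ) :
    Inact B (Polynomial.aeval (X i : MvPolynomial (Fin n) ℂ) p) := by
  induction p using Polynomial.induction_on' with
  | add p q hp hq => rw [map_add]; exact hp.add hq
  | monomial k c =>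
    rw [Polynomial.aeval_monomial]
    refine Inact.mul (Inact.const c) ?_
    intro x x' h
    rw [map_pow, map_pow, eval_X, eval_X, h i hi]

theorem Inact.sum {n : ℕ} {B : Finset (Fin n)} {ι : Type*} (s : Finset ι)
    (f : ι → MvPolynomial (Fin n) ℂ) (h : ∀ i ∈ s, Inact B (f i)) : Inact B (∑ i ∈ s, f i) := by
  intro x x' hx
  rw [map_sum, map_sum]
  exact Finset.sum_congr rfl fun i hi => h i hi x x' hx

theorem width_core {n w : ℕ} (B T : Finset (Fin n)) (P : WProg n w)
    (hT : ∀ s ∈ P, s.1 ∈ B → s.1 ∈ T) :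
    ∃ (W Y : Matrix (Fin w) (Fin w) (MvPolynomial (Fin n) ℂ)) (Q : Finset (MvPolynomial (Fin n) ℂ)),
      (∀ a b, Inact B (W a b)) ∧ (∀ q ∈ Q, Inact B q) ∧
      Q.card ≤ (P.countP fun s => s.1 ∈ B) * w ^ 2 ∧ (∀ a b, Y a b ∈ Adj T Q) ∧
      progMatrix P = W * Y := by
  classical
  induction P with
  | nil =>
    refine ⟨1, 1, ∅, ?_, by simp, by simp, ?_, by simp [progMatrix]⟩
    · intro a b
      rw [Matrix.one_apply]
      split_ifs
      · simpa using Inact.const (B := B) 1
      · simpa using Inact.const (B := B) 0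
    · intro a b
      rw [Matrix.one_apply]
      split_ifs
      · exact one_mem _
      · exact zero_mem _
  | cons s P ih =>
    obtain ⟨W, Y, Q, h1, h2, h3, h4, h5⟩ := ih fun s hs => hT s (List.mem_cons_of_mem _ hs)
    let A : Matrix (Fin w) (Fin w) (MvPolynomial (Fin n) ℂ) :=
      s.2.map (Polynomial.aeval (X s.1 : MvPolynomial (Fin n) ℂ))
    have hprod : progMatrix (s :: P) = A * progMatrix P := by
      simp only [progMatrix, List.map_cons, List.prod_cons, A]
    by_cases hs : s.1 ∈ B
    · refine ⟨1, A * W * Y, Q ∪ (Finset.univ.image fun p : Fin w × Fin w => W p.1 p.2),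
        ?_, ?_, ?_, ?_, ?_⟩
      · intro a b
        rw [Matrix.one_apply]
        split_ifs
        · simpa using Inact.const (B := B) 1
        · simpa using Inact.const (B := B) 0
      · intro q hq
        rcases Finset.mem_union.1 hq with h | h
        · exact h2 q h
        · obtain ⟨p, -, rfl⟩ := Finset.mem_image.1 h
          exact h1 _ _
      · refine (Finset.card_union_le _ _).trans ?_
        have h6 : (Finset.univ.image fun p : Fin w × Fin w => W p.1 p.2).card ≤ w ^ 2 := by
          refine Finset.card_image_le.trans ?_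
          simp [sq]
        rw [List.countP_cons_of_pos (by simpa using hs), add_mul, one_mul]
        omega
      · have hA : ∀ a b, A a b ∈ Adj T (Q ∪ (Finset.univ.image fun p : Fin w × Fin w => W p.1 p.2)) := by
          intro a b
          have : A a b = Polynomial.aeval (X s.1 : MvPolynomial (Fin n) ℂ) (s.2 a b) := rfl
          rw [this]
          exact Algebra.adjoin_le (by simpa using X_mem_Adj (hT s List.mem_cons_self hs))
            (Polynomial.aeval_mem_adjoin_singleton ℂ _)
        have hW : ∀ a b, W a b ∈ Adj T (Q ∪ (Finset.univ.image fun p : Fin w × Fin w => W p.1 p.2)) :=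
          fun a b => mem_Adj_of_mem (Finset.mem_union_right _
            (Finset.mem_image.2 ⟨(a, b), Finset.mem_univ _, rfl⟩))
        have hY : ∀ a b, Y a b ∈ Adj T (Q ∪ (Finset.univ.image fun p : Fin w × Fin w => W p.1 p.2)) :=
          fun a b => Adj_mono Finset.subset_union_left (h4 a b)
        intro a b
        rw [Matrix.mul_apply]
        refine sum_mem fun c _ => mul_mem ?_ (hY _ _)
        rw [Matrix.mul_apply]
        exact sum_mem fun e _ => mul_mem (hA _ _) (hW _ _)
      · rw [hprod, h5, one_mul, Matrix.mul_assoc]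
    · refine ⟨A * W, Y, Q, ?_, h2, ?_, h4, ?_⟩
      · intro a b
        rw [Matrix.mul_apply]
        exact Inact.sum _ _ fun c _ => (Inact.aeval_X hs _).mul (h1 _ _)
      · rw [List.countP_cons_of_neg (by simpa using hs)]
        exact h3
      · rw [hprod, h5, Matrix.mul_assoc]

theorem width_hit {n w s r d : ℕ} (hw : 0 < w) (hr : 0 < r) (P : WProg n w) (hs : P.length ≤ s)
    (f : MvPolynomial (Fin n) ℂ)
    (hfP : f ∈ Algebra.adjoin ℂ (Set.range fun p : Fin w × Fin w => progMatrix P p.1 p.2))
    (hd : f.totalDegree ≤ d) (hf : f ≠ 0) :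
    ∃ x ∈ points n ((r + 1) * w ^ 2 + r) (2 * (s / r)) (d * ((r + 1) * w ^ 2 + r)),
      eval (fun i => (x i : ℂ)) f ≠ 0 := by
  classical
  let c : Fin n → ℕ := fun i => P.countP fun s => s.1 = i
  have hcount : ∀ B : Finset (Fin n), ∑ i ∈ B, c i = P.countP fun s => s.1 ∈ B := by
    intro B
    simp only [c]
    clear hfP hs
    induction P with
    | nil => simp
    | cons s P ih =>
      simp only [List.countP_cons, Finset.sum_add_distrib, ih]
      congr 1
      by_cases h : s.1 ∈ B
      · rw [Finset.sum_eq_single s.1]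
        · simp [h]
        · intro b _ hb
          simp [hb.symm]
        · intro h'; exact absurd h h'
      · rw [Finset.sum_eq_zero]
        · simp [h]
        · intro i hi
          have : s.1 ≠ i := fun h' => h (h' ▸ hi)
          simp [this]
  have hc : ∑ i, c i ≤ s := by
    rw [hcount]
    exact (List.countP_le_length).trans hs
  have hw2 : 1 ≤ w ^ 2 := Nat.one_le_pow _ _ hw
  refine weight_hit (ρ := (r + 1) * w ^ 2) (κ := r) hr le_rfl le_rfl (by nlinarith) f hf hd c hc ?_
  intro B hB
  let T := B.filter fun i => c i ≠ 0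
  obtain ⟨W, Y, Q, h1, h2, h3, h4, h5⟩ := width_core B T P (by
    intro s hs hsB
    rw [Finset.mem_filter]
    refine ⟨hsB, ?_⟩
    have : 0 < P.countP fun s' => s'.1 = s.1 := List.countP_pos_iff.2 ⟨s, hs, by simp⟩
    exact this.ne')
  let Q' := Q ∪ (Finset.univ.image fun p : Fin w × Fin w => W p.1 p.2)
  refine blockSimple_of_adjoin _ B T (Finset.filter_subset _ _) ?_ Q' ?_ ?_ ?_
  · calc T.card = ∑ i ∈ T, 1 := by simp
      _ ≤ ∑ i ∈ T, c i := Finset.sum_le_sum fun i hi => by
        rw [Finset.mem_filter] at hi; omega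
      _ ≤ ∑ i ∈ B, c i := Finset.sum_le_sum_of_subset (Finset.filter_subset _ _)
      _ ≤ r := hB
  · refine (Finset.card_union_le _ _).trans ?_
    have h6 : (Finset.univ.image fun p : Fin w × Fin w => W p.1 p.2).card ≤ w ^ 2 := by
      refine Finset.card_image_le.trans ?_
      simp [sq]
    rw [hcount] at hB
    have h7 := Nat.mul_le_mul_right (w ^ 2) hB
    rw [add_mul, one_mul]
    omega
  · intro q hq
    rcases Finset.mem_union.1 hq with h | h
    · exact h2 q h
    · obtain ⟨p, -, rfl⟩ := Finset.mem_image.1 h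
      exact h1 _ _
  · refine Algebra.adjoin_le ?_ hfP
    rintro _ ⟨p, rfl⟩
    simp only [h5, Matrix.mul_apply]
    refine sum_mem fun e _ => mul_mem ?_ ?_
    · exact mem_Adj_of_mem (Finset.mem_union_right _
            (Finset.mem_image.2 ⟨(p.1, e), Finset.mem_univ _, rfl⟩))
    · exact Adj_mono Finset.subset_union_left (h4 _ _)

end Pool.Agent.V8H51.PIT
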